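import Pool.Agent.Helper28.Model

set_option autoImplicit false

namespace Pool.Agent.Helper28

open Module Filter Topology NCG
open scoped ComplexOrder ENNReal

variable {H : Type*} [NormedAddCommGroup H] [InnerProductSpace ℂ H] [CompleteSpace H]

/-- bounded commutator -/
def Good (D : H →ₗ.[ℂ] H) (a : H →L[ℂ] H) : Prop :=
  ∃ C : ℝ, 0 ≤ C ∧ ∀ x : D.domain, ∃ h : a x ∈ D.domain, ‖D ⟨a x, h⟩ - a (D x)‖ ≤ C * ‖(x : H)‖

lemma Good.add {D : H →ₗ.[ℂ] H} {a b : H →L[ℂ] H} (ha : Good D a) (hb : Good D b) :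
    Good D (a + b) := by
  obtain ⟨C, hC0, hC⟩ := ha
  obtain ⟨C', hC0', hC'⟩ := hb
  refine ⟨C + C', by positivity, fun x => ?_⟩
  obtain ⟨h, h1⟩ := hC x
  obtain ⟨h', h1'⟩ := hC' x
  have hm : (a + b) x ∈ D.domain := D.domain.add_mem h h'
  refine ⟨hm, ?_⟩
  have h2 : D ⟨(a + b) x, hm⟩ = D ⟨a x, h⟩ + D ⟨b x, h'⟩ := by
    rw [← D.map_add]
    rfl
  have h3 : D ⟨(a + b) x, hm⟩ - (a + b) (D x) =
      (D ⟨a x, h⟩ - a (D x)) + (D ⟨b x, h'⟩ - b (D x)) := by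
    rw [h2, ContinuousLinearMap.add_apply]
    abel
  rw [h3]
  refine (norm_add_le _ _).trans ?_
  rw [add_mul]
  exact add_le_add h1 h1'

lemma Good.mul {D : H →ₗ.[ℂ] H} {a b : H →L[ℂ] H} (ha : Good D a) (hb : Good D b) :
    Good D (a * b) := by
  obtain ⟨C, hC0, hC⟩ := ha
  obtain ⟨C', hC0', hC'⟩ := hb
  refine ⟨C * ‖b‖ + ‖a‖ * C', by positivity, fun x => ?_⟩
  obtain ⟨h', h1'⟩ := hC' x
  obtain ⟨h, h1⟩ := hC ⟨b x, h'⟩
  refine ⟨h, ?_⟩
  have h3 : D ⟨(a * b) x, h⟩ - (a * b) (D x) =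
      (D ⟨a (b x), h⟩ - a (D ⟨b x, h'⟩)) + a (D ⟨b x, h'⟩ - b (D x)) := by
    rw [map_sub]
    change D ⟨a (b x), h⟩ - a (b (D x)) = _
    abel
  rw [h3]
  refine (norm_add_le _ _).trans ?_
  rw [add_mul]
  refine add_le_add ?_ ?_
  · refine h1.trans ?_
    rw [mul_assoc]
    exact mul_le_mul_of_nonneg_left (b.le_opNorm _) hC0
  · refine (a.le_opNorm _).trans ?_
    rw [mul_assoc]
    exact mul_le_mul_of_nonneg_left h1' (norm_nonneg _)

lemma good_algebraMap (D : H →ₗ.[ℂ] H) (c : ℂ) : Good D (algebraMap ℂ (H →L[ℂ] H) c) := by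
  refine ⟨0, le_rfl, fun x => ?_⟩
  have h1 : ∀ y : H, (algebraMap ℂ (H →L[ℂ] H) c) y = c • y := by
    intro y
    rw [Algebra.algebraMap_eq_smul_one]
    rfl
  have hm : (algebraMap ℂ (H →L[ℂ] H) c) x ∈ D.domain := by
    rw [h1]
    exact D.domain.smul_mem c x.2
  refine ⟨hm, ?_⟩
  have h2 : D ⟨(algebraMap ℂ (H →L[ℂ] H) c) x, hm⟩ = c • D x := by
    rw [← D.map_smul]
    congr 1
  rw [h2, h1, sub_self, norm_zero, zero_mul]

lemma mem_Dop_of_eq {ι : Type} (b : HilbertBasis ι ℂ H) (l : ι → ℝ) (x z : H)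
    (h : ∀ i, b.repr z i = (l i : ℂ) * b.repr x i) :
    ∃ hm : x ∈ (Dop b l).domain, Dop b l ⟨x, hm⟩ = z := by
  have hm : x ∈ (Dop b l).domain := by
    rw [mem_Dop]
    have h1 : (fun i => (l i : ℂ) * b.repr x i) = fun i => b.repr z i := by
      ext i
      exact (h i).symm
    rw [h1]
    exact lp.memℓp _
  refine ⟨hm, repr_ext b fun i => ?_⟩
  rw [repr_Dop, h]

lemma good_V (b : HilbertBasis (ℕ × ℤ) ℂ H) (l : ℕ × ℤ → ℝ) (c : ℕ → ℝ)
    (hl : ∀ p, l p = l (sh p) + c p.1) (i : ℕ) : Good (Dop b l) (V b i) := by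
  refine ⟨|c i| * ‖V b i‖, by positivity, fun x => ?_⟩
  obtain ⟨hm, heq⟩ := mem_Dop_of_eq b l (V b i x) (V b i (Dop b l x) + (c i : ℂ) • V b i x) (by
    intro p
    rw [map_add, map_smul]
    change b.repr (V b i (Dop b l x)) p + (c i : ℂ) * b.repr (V b i x) p = _
    rw [repr_V, repr_V, repr_Dop, hl p]
    by_cases hp : p.1 = i
    · rw [hp]
      push_cast
      ring
    · simp [hp])
  refine ⟨hm, ?_⟩
  rw [heq, add_sub_cancel_left, norm_smul, Complex.norm_real, Real.norm_eq_abs, mul_assoc]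
  exact mul_le_mul_of_nonneg_left ((V b i).le_opNorm _) (abs_nonneg _)

lemma good_V_star (b : HilbertBasis (ℕ × ℤ) ℂ H) (l : ℕ × ℤ → ℝ) (c : ℕ → ℝ)
    (hl : ∀ p, l p = l (sh p) + c p.1) (i : ℕ) : Good (Dop b l) (star (V b i)) := by
  refine ⟨|c i| * ‖star (V b i)‖, by positivity, fun x => ?_⟩
  obtain ⟨hm, heq⟩ := mem_Dop_of_eq b l (star (V b i) x)
    (star (V b i) (Dop b l x) - (c i : ℂ) • star (V b i) x) (by
    intro p
    rw [map_sub, map_smul]
    change b.repr (star (V b i) (Dop b l x)) p - (c i : ℂ) * b.repr (star (V b i) x) p = _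
    have h := hl (sh.symm p)
    rw [Equiv.apply_symm_apply, sh_symm_fst] at h
    rw [repr_V_star, repr_V_star, repr_Dop, h]
    by_cases hp : p.1 = i
    · rw [hp]
      push_cast
      ring
    · simp [hp])
  refine ⟨hm, ?_⟩
  rw [heq, sub_sub_cancel_left, norm_neg, norm_smul, Complex.norm_real, Real.norm_eq_abs,
    mul_assoc]
  exact mul_le_mul_of_nonneg_left ((star (V b i)).le_opNorm _) (abs_nonneg _)

lemma good_Alg (b : HilbertBasis (ℕ × ℤ) ℂ H) (l : ℕ × ℤ → ℝ) (c : ℕ → ℝ)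
    (hl : ∀ p, l p = l (sh p) + c p.1) : ∀ a ∈ Alg b, Good (Dop b l) a := by
  have key : ∀ a ∈ Alg b, Good (Dop b l) a ∧ Good (Dop b l) (star a) := by
    intro a ha
    induction ha using StarAlgebra.adjoin_induction with
    | mem x hx =>
      obtain ⟨i, rfl⟩ := hx
      exact ⟨good_V b l c hl i, good_V_star b l c hl i⟩
    | algebraMap r =>
      rw [← algebraMap_star_comm]
      exact ⟨good_algebraMap _ _, good_algebraMap _ _⟩
    | add x y hx hy h1 h2 =>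
      rw [star_add]
      exact ⟨h1.1.add h2.1, h1.2.add h2.2⟩
    | mul x y hx hy h1 h2 =>
      rw [star_mul]
      exact ⟨h1.1.mul h2.1, h2.2.mul h1.2⟩
    | star x hx h1 =>
      rw [star_star]
      exact ⟨h1.2, h1.1⟩
  exact fun a ha => (key a ha).1

/-- the projections onto the first `n` blocks -/
noncomputable def Sn (b : HilbertBasis (ℕ × ℤ) ℂ H) (n : ℕ) : H →L[ℂ] H :=
  ∑ i ∈ Finset.range n, dg b (chi i)

lemma Sn_mem (b : HilbertBasis (ℕ × ℤ) ℂ H) (n : ℕ) : Sn b n ∈ Alg b :=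
  sum_mem fun i _ => P_mem b i

lemma repr_Sn (b : HilbertBasis (ℕ × ℤ) ℂ H) (n : ℕ) (x : H) (p : ℕ × ℤ) :
    b.repr (Sn b n x) p = (if p.1 < n then 1 else 0) * b.repr x p := by
  unfold Sn
  rw [ContinuousLinearMap.sum_apply, map_sum, lp.coeFn_sum, Finset.sum_apply]
  have h1 : ∀ i ∈ Finset.range n, b.repr (dg b (chi i) x) p =
      if p.1 = i then b.repr x p else 0 := by
    intro i _
    rw [repr_dg, chi_apply]
    split_ifs <;> simp
  rw [Finset.sum_congr rfl h1, Finset.sum_ite_eq]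
  simp only [Finset.mem_range]
  split_ifs <;> simp

lemma chi_nonneg (b : HilbertBasis (ℕ × ℤ) ℂ H) (i : ℕ) : 0 ≤ dg b (chi i) := by
  unfold chi
  refine dg_nonneg b _ _ _ (fun p => ?_)
  split_ifs <;> norm_num

lemma Sn_nonneg (b : HilbertBasis (ℕ × ℤ) ℂ H) (n : ℕ) : 0 ≤ Sn b n :=
  Finset.sum_nonneg fun i _ => chi_nonneg b i

lemma Sn_mono (b : HilbertBasis (ℕ × ℤ) ℂ H) : Monotone (Sn b) := by
  intro m n hmn
  unfold Sn
  refine Finset.sum_le_sum_of_subset_of_nonneg ?_ fun i _ _ => chi_nonneg b i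
  intro k hk
  rw [Finset.mem_range] at hk ⊢
  omega

lemma Sn_tendsto (b : HilbertBasis (ℕ × ℤ) ℂ H) (x : H) :
    Tendsto (fun n => Sn b n x) atTop (𝓝 ((1 : H →L[ℂ] H) x)) := by
  rw [tendsto_iff_norm_sub_tendsto_zero]
  have h1 : ∀ n, ‖Sn b n x - (1 : H →L[ℂ] H) x‖ ^ 2 =
      ∑' p : ℕ × ℤ, (if p.1 < n then 0 else 1) * ‖b.repr x p‖ ^ 2 := by
    intro n
    rw [norm_sq_eq b]
    refine tsum_congr fun p => ?_
    rw [map_sub]
    change ‖b.repr (Sn b n x) p - b.repr x p‖ ^ 2 = _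
    rw [repr_Sn]
    split_ifs <;> simp
  have h2 : Tendsto (fun n : ℕ => ∑' p : ℕ × ℤ, (if p.1 < n then (0 : ℝ) else 1) *
      ‖b.repr x p‖ ^ 2) atTop (𝓝 (∑' p : ℕ × ℤ, 0)) := by
    refine tendsto_tsum_of_dominated_convergence (bound := fun p => ‖b.repr x p‖ ^ 2)
      (summable_repr b x) ?_ ?_
    · intro p
      refine tendsto_const_nhds.congr' ?_
      filter_upwards [eventually_gt_atTop p.1] with n hn
      rw [if_pos hn, zero_mul]
    · refine Eventually.of_forall fun n p => ?_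
      split_ifs
      · simp
      · simp
  rw [tsum_zero] at h2
  have h3 : Tendsto (fun n => Real.sqrt (‖Sn b n x - (1 : H →L[ℂ] H) x‖ ^ 2)) atTop
      (𝓝 (Real.sqrt 0)) := by
    refine (Real.continuous_sqrt.tendsto 0).comp ?_
    refine h2.congr fun n => (h1 n).symm
  rw [Real.sqrt_zero] at h3
  refine h3.congr fun n => ?_
  exact Real.sqrt_sq (norm_nonneg _)

end Pool.Agent.Helper28
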