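import Pool.Agent.Helper28.Numeric

set_option autoImplicit false

namespace Pool.Agent.Helper28

open Module Filter Topology NCG
open scoped ComplexOrder ENNReal

variable {H : Type*} [NormedAddCommGroup H] [InnerProductSpace ℂ H] [CompleteSpace H]

/-- restriction of a functional on sequences to the Banach space `ℓ^∞` -/
noncomputable def toL {ω : (ℕ → ℝ) → ℝ} (hω : IsDilationInvariantLimit ω) : Linf →ₗ[ℝ] ℝ where
  toFun x := ω (fun n => x n)
  map_add' x y := hω.map_add _ _ (Linf_bdd x) (Linf_bdd y)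
  map_smul' c x := hω.map_smul c _ (Linf_bdd x)

lemma toL_apply {ω : (ℕ → ℝ) → ℝ} (hω : IsDilationInvariantLimit ω) (x : Linf) :
    toL hω x = ω (fun n => x n) := rfl

lemma toL_spec {ω : (ℕ → ℝ) → ℝ} (hω : IsDilationInvariantLimit ω) : DILim (toL hω) where
  nonneg x hx := hω.nonneg _ (Linf_bdd x) hx
  lim x c hx := hω.lim _ c (Linf_bdd x) hx
  dilation k hk x y hxy := by
    rw [toL_apply, toL_apply, ← hω.dilation k hk (fun n => x n) (Linf_bdd x)]
    congr 1
    ext n
    exact hxy n

lemma toL_dix {ω : (ℕ → ℝ) → ℝ} (hω : IsDilationInvariantLimit ω) {τ : (H →L[ℂ] H) → ℂ}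
    (hτ : IsDixmierTrace ω τ) : DixTr (toL hω) τ where
  map_add := hτ.map_add
  map_smul := hτ.map_smul
  apply_nonneg T hT h0 x hx := by
    rw [hτ.apply_nonneg T hT h0, toL_apply]
    congr 2
    ext n
    exact (hx n).symm

lemma exists_dix {ω : (ℕ → ℝ) → ℝ} (hω : IsDilationInvariantLimit ω) :
    ∃ τ : (H →L[ℂ] H) → ℂ, IsDixmierTrace ω τ := by
  have h := dixTr_dix (H := H) (toL_spec hω)
  refine ⟨dix (toL hω), h.map_add, h.map_smul, fun T hT h0 => ?_⟩
  have hx : ∀ n : ℕ, dL T n =
      (∑ k ∈ Finset.range (n + 1), mu T k) / Real.log (1 + (n + 1)) := by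
    intro n
    rw [dL_apply hT, dseq]
    unfold S
    rw [Finset.sum_congr rfl (fun k _ => (mu_eq_gel T hT.1 k).symm)]
    push_cast
    rfl
  rw [h.apply_nonneg T hT h0 (dL T) hx, toL_apply]
  congr 2
  ext n
  exact hx n

open Classical in
/-- extension by zero of the functional `omega0` -/
noncomputable def omega1 (x : ℕ → ℝ) : ℝ :=
  if h : ∃ C : ℝ, ∀ n, |x n| ≤ C then omega0 (mkL x h.choose h.choose_spec) else 0

lemma omega1_eq (x : ℕ → ℝ) (y : Linf) (h : ∀ n, y n = x n) : omega1 x = omega0 y := by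
  have hb : ∃ C : ℝ, ∀ n, |x n| ≤ C := by
    obtain ⟨C, hC⟩ := Linf_bdd y
    exact ⟨C, fun n => by rw [← h]; exact hC n⟩
  unfold omega1
  rw [dif_pos hb]
  congr 1
  ext n
  rw [mkL_apply, h]

lemma omega1_spec : IsDilationInvariantLimit omega1 where
  map_add := by
    rintro x y ⟨C, hC⟩ ⟨C', hC'⟩
    rw [omega1_eq x (mkL x C hC) (fun _ => rfl), omega1_eq y (mkL y C' hC') (fun _ => rfl),
      ← map_add]
    exact omega1_eq _ _ (fun _ => rfl)
  map_smul := by
    rintro c x ⟨C, hC⟩
    rw [omega1_eq x (mkL x C hC) (fun _ => rfl), ← smul_eq_mul, ← map_smul]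
    exact omega1_eq _ _ (fun _ => rfl)
  nonneg := by
    rintro x ⟨C, hC⟩ h
    rw [omega1_eq x (mkL x C hC) (fun _ => rfl)]
    exact omega0_spec.nonneg _ h
  lim := by
    rintro x c ⟨C, hC⟩ h
    rw [omega1_eq x (mkL x C hC) (fun _ => rfl)]
    exact omega0_spec.lim _ _ h
  dilation := by
    rintro k hk x ⟨C, hC⟩
    rw [omega1_eq x (mkL x C hC) (fun _ => rfl),
      omega1_eq (fun n => x (n / k)) (mkL (fun n => x (n / k)) C (fun n => hC _)) (fun _ => rfl)]
    exact omega0_spec.dilation k hk _ _ (fun _ => rfl)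

/-- every infinite-dimensional separable Hilbert space has a Hilbert basis indexed by `ℕ × ℤ` -/
lemma exists_basis (H : Type*) [NormedAddCommGroup H] [InnerProductSpace ℂ H] [CompleteSpace H]
    [TopologicalSpace.SeparableSpace H] (hinf : ¬ FiniteDimensional ℂ H) :
    Nonempty (HilbertBasis (ℕ × ℤ) ℂ H) := by
  obtain ⟨w, b, hb⟩ := exists_hilbertBasis ℂ H
  have hcount : Countable w := by
    have hd : Pairwise (Function.onFun Disjoint fun i : w => Metric.ball (b i) (1 / 2 : ℝ)) := by
      intro i j hij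
      refine Metric.ball_disjoint_ball ?_
      have h1 : ‖b i - b j‖ ^ 2 = 2 := by
        rw [@norm_sub_sq ℂ, b.orthonormal.norm_eq_one, b.orthonormal.norm_eq_one,
          b.orthonormal.inner_eq_zero hij]
        norm_num
      rw [dist_eq_norm]
      nlinarith [norm_nonneg (b i - b j)]
    exact hd.countable_of_isOpen_disjoint (fun i => Metric.isOpen_ball)
      (fun i => ⟨b i, Metric.mem_ball_self (by norm_num)⟩)
  have hinfw : Infinite w := by
    by_contra hfin
    rw [not_infinite_iff_finite] at hfin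
    apply hinf
    have h1 : FiniteDimensional ℂ (Submodule.span ℂ (Set.range b)) :=
      FiniteDimensional.span_of_finite ℂ (Set.finite_range b)
    have h2 : Submodule.span ℂ (Set.range b) = ⊤ := by
      rw [← b.dense_span]
      exact (Submodule.closed_of_finiteDimensional _).submodule_topologicalClosure_eq.symm
    rw [h2] at h1
    exact Module.Finite.equiv (Submodule.topEquiv : (⊤ : Submodule ℂ H) ≃ₗ[ℂ] H)
  obtain ⟨e⟩ : Nonempty (ℕ × ℤ ≃ w) := nonempty_equiv_of_countable
  refine ⟨HilbertBasis.mk (v := fun p => b (e p)) (b.orthonormal.comp _ e.injective) ?_⟩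
  have h3 : Set.range (fun p => b (e p)) = Set.range b := e.surjective.range_comp b
  rw [h3, b.dense_span]

end Pool.Agent.Helper28
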