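import Pool.Agent.Helper28.Diag2

set_option autoImplicit false

namespace Pool.Agent.Helper28

open Module Filter Topology NCG
open scoped ComplexOrder ENNReal

variable {ι : Type}
variable {H : Type*} [NormedAddCommGroup H] [InnerProductSpace ℂ H] [CompleteSpace H]

/-- the unbounded diagonal operator -/
noncomputable def Dop (b : HilbertBasis ι ℂ H) (l : ι → ℝ) : H →ₗ.[ℂ] H where
  domain :=
    { carrier := {x | Memℓp (fun i => (l i : ℂ) * b.repr x i) 2}
      add_mem' := by
        intro x y hx hy
        have h := hx.add hy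
        have h2 : (fun i => (l i : ℂ) * b.repr x i) + (fun i => (l i : ℂ) * b.repr y i) =
            (fun i => (l i : ℂ) * b.repr (x + y) i) := by
          ext i
          rw [Pi.add_apply, map_add]
          change _ = (l i : ℂ) * (b.repr x i + b.repr y i)
          ring
        rw [h2] at h
        exact h
      zero_mem' := by
        have h2 : (fun i => (l i : ℂ) * b.repr 0 i) = (0 : ι → ℂ) := by
          ext i
          rw [map_zero]
          simp
        change Memℓp (fun i => (l i : ℂ) * b.repr 0 i) 2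
        rw [h2]
        exact zero_memℓp
      smul_mem' := by
        intro c x hx
        have h := hx.const_smul c
        have h2 : (c • fun i => (l i : ℂ) * b.repr x i) =
            (fun i => (l i : ℂ) * b.repr (c • x) i) := by
          ext i
          rw [Pi.smul_apply, map_smul]
          change c * ((l i : ℂ) * b.repr x i) = (l i : ℂ) * (c * b.repr x i)
          ring
        rw [h2] at h
        exact h }
  toFun :=
    { toFun := fun x => b.repr.symm ⟨fun i => (l i : ℂ) * b.repr (x : H) i, x.2⟩
      map_add' := by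
        intro x y
        rw [← map_add]
        congr 1
        ext i
        change (l i : ℂ) * b.repr ((x : H) + (y : H)) i =
          (l i : ℂ) * b.repr (x : H) i + (l i : ℂ) * b.repr (y : H) i
        rw [map_add]
        change (l i : ℂ) * (b.repr (x : H) i + b.repr (y : H) i) = _
        ring
      map_smul' := by
        intro c x
        rw [RingHom.id_apply, ← map_smul]
        congr 1
        ext i
        change (l i : ℂ) * b.repr (c • (x : H)) i = c * ((l i : ℂ) * b.repr (x : H) i)
        rw [map_smul]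
        change (l i : ℂ) * (c * b.repr (x : H) i) = _
        ring }

lemma mem_Dop (b : HilbertBasis ι ℂ H) (l : ι → ℝ) (x : H) :
    x ∈ (Dop b l).domain ↔ Memℓp (fun i => (l i : ℂ) * b.repr x i) 2 := Iff.rfl

lemma repr_Dop (b : HilbertBasis ι ℂ H) (l : ι → ℝ) (x : (Dop b l).domain) (i : ι) :
    b.repr (Dop b l x) i = (l i : ℂ) * b.repr (x : H) i := by
  change b.repr (b.repr.symm ⟨fun i => (l i : ℂ) * b.repr (x : H) i, x.2⟩) i = _
  rw [LinearIsometryEquiv.apply_symm_apply]

lemma mem_Dop_of_bdd (b : HilbertBasis ι ℂ H) (l : ι → ℝ) (x y : H) (m : ι → ℂ) (C : ℝ)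
    (hm : ∀ i, ‖m i‖ ≤ C) (h : ∀ i, (l i : ℂ) * b.repr y i = m i * b.repr x i) :
    y ∈ (Dop b l).domain := by
  rw [mem_Dop]
  have := mem_L2_mul hm (b.repr x)
  have h2 : (fun i => (l i : ℂ) * b.repr y i) = fun i => m i * b.repr x i := funext h
  rwa [h2]

lemma basis_mem_Dop (b : HilbertBasis ι ℂ H) (l : ι → ℝ) (i : ι) :
    b i ∈ (Dop b l).domain := by
  classical
  refine mem_Dop_of_bdd b l (b i) (b i) (fun j => if j = i then (l i : ℂ) else 0) (|l i|) ?_ ?_
  · intro j
    split_ifs
    · simp
    · simp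
  · intro j
    rw [repr_basis]
    by_cases h : j = i
    · subst h
      simp
    · simp [h]

lemma Dop_basis (b : HilbertBasis ι ℂ H) (l : ι → ℝ) (i : ι) :
    Dop b l ⟨b i, basis_mem_Dop b l i⟩ = (l i : ℂ) • b i := by
  classical
  refine repr_ext b fun j => ?_
  rw [repr_Dop, map_smul]
  change (l j : ℂ) * b.repr (b i) j = (l i : ℂ) * (b.repr (b i) j)
  rw [repr_basis]
  by_cases h : j = i
  · subst h
    simp
  · simp [h]

lemma Dop_dense (b : HilbertBasis ι ℂ H) (l : ι → ℝ) :
    Dense ((Dop b l).domain : Set H) := by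
  have h1 : Submodule.span ℂ (Set.range b) ≤ (Dop b l).domain := by
    rw [Submodule.span_le]
    rintro _ ⟨i, rfl⟩
    exact basis_mem_Dop b l i
  have h2 : Dense ((Submodule.span ℂ (Set.range b) : Submodule ℂ H) : Set H) :=
    Submodule.dense_iff_topologicalClosure_eq_top.mpr b.dense_span
  exact h2.mono h1

lemma Dop_symm (b : HilbertBasis ι ℂ H) (l : ι → ℝ) :
    (Dop b l).IsFormalAdjoint (Dop b l) := by
  intro x y
  rw [inner_eq b, inner_eq b]
  refine tsum_congr fun i => ?_
  rw [repr_Dop, repr_Dop, map_mul, Complex.conj_ofReal]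
  ring

open LinearPMap in
lemma Dop_selfAdjoint (b : HilbertBasis ι ℂ H) (l : ι → ℝ) : IsSelfAdjoint (Dop b l) := by
  rw [LinearPMap.isSelfAdjoint_def]
  have hd := Dop_dense b l
  have key : ∀ y : (Dop b l)†.domain, ∀ i,
      (l i : ℂ) * b.repr (y : H) i = b.repr ((Dop b l)† y) i := by
    intro y i
    have h1 := (LinearPMap.adjoint_isFormalAdjoint hd) y ⟨b i, basis_mem_Dop b l i⟩
    rw [Dop_basis] at h1
    rw [HilbertBasis.repr_apply_apply, HilbertBasis.repr_apply_apply, ← inner_conj_symm (b i),
      ← inner_conj_symm (b i)]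
    have h2 : inner ℂ ((Dop b l)† y) (b i) = (l i : ℂ) * inner ℂ (y : H) (b i) := by
      rw [← inner_smul_right]
      exact h1
    rw [h2, map_mul, Complex.conj_ofReal]
  have hle : (Dop b l)† ≤ Dop b l := by
    constructor
    · intro y hy
      rw [mem_Dop]
      have h1 : (fun i => (l i : ℂ) * b.repr y i) =
          fun i => b.repr ((Dop b l)† ⟨y, hy⟩) i := by
        ext i
        exact key ⟨y, hy⟩ i
      rw [h1]
      exact lp.memℓp _
    · intro x y hxy
      refine repr_ext b fun i => ?_
      rw [repr_Dop, ← key x i, hxy]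
  exact le_antisymm hle (LinearPMap.IsFormalAdjoint.le_adjoint hd (Dop_symm b l))

lemma Dop_resolvent (b : HilbertBasis ι ℂ H) (l : ι → ℝ) (r : ι → ℝ) (C : ℝ)
    (h : ∀ i, |r i| ≤ C) (hr : ∀ i, r i = 1 / (1 + l i ^ 2)) :
    IsInvOneAddSq (Dop b l) (dg b (mkLI r C h)) := by
  intro x
  have hpos : ∀ i, 0 < 1 + l i ^ 2 := fun i => by positivity
  have h1 : dg b (mkLI r C h) x ∈ (Dop b l).domain := by
    refine mem_Dop_of_bdd b l x _ (fun i => ((l i * r i : ℝ) : ℂ)) 1 ?_ ?_
    · intro i
      rw [Complex.norm_real, Real.norm_eq_abs, hr, abs_le]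
      have := hpos i
      constructor
      · rw [mul_one_div, le_div_iff₀ this]
        nlinarith [sq_nonneg (l i + 1)]
      · rw [mul_one_div, div_le_iff₀ this]
        nlinarith [sq_nonneg (l i - 1)]
    · intro i
      rw [repr_dg, mkLI_apply]
      push_cast
      ring
  have h2 : Dop b l ⟨dg b (mkLI r C h) x, h1⟩ ∈ (Dop b l).domain := by
    refine mem_Dop_of_bdd b l x _ (fun i => ((l i * (l i * r i) : ℝ) : ℂ)) 1 ?_ ?_
    · intro i
      rw [Complex.norm_real, Real.norm_eq_abs, hr, abs_le]
      have := hpos i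
      constructor
      · rw [mul_one_div, mul_div_assoc', le_div_iff₀ this]
        nlinarith [sq_nonneg (l i)]
      · rw [mul_one_div, mul_div_assoc', div_le_iff₀ this]
        nlinarith [sq_nonneg (l i)]
    · intro i
      rw [repr_Dop]
      change (l i : ℂ) * ((l i : ℂ) * b.repr (dg b (mkLI r C h) x) i) = _
      rw [repr_dg, mkLI_apply]
      push_cast
      ring
  refine ⟨h1, h2, ?_⟩
  refine repr_ext b fun i => ?_
  rw [map_add]
  change b.repr (dg b (mkLI r C h) x) i + b.repr (Dop b l ⟨_, h2⟩) i = _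
  rw [repr_Dop]
  change b.repr (dg b (mkLI r C h) x) i + (l i : ℂ) * (b.repr (Dop b l ⟨_, h1⟩) i) = _
  rw [repr_Dop]
  change b.repr (dg b (mkLI r C h) x) i +
    (l i : ℂ) * ((l i : ℂ) * b.repr (dg b (mkLI r C h) x) i) = _
  rw [repr_dg, mkLI_apply]
  have h3 : (r i : ℂ) + (l i : ℂ) * ((l i : ℂ) * (r i : ℂ)) = 1 := by
    have : r i + l i * (l i * r i) = 1 := by
      rw [hr]
      field_simp [(hpos i).ne']
    exact_mod_cast this
  linear_combination (b.repr x i) * h3

end Pool.Agent.Helper28
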