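import Pool.Agent.Helper28.Omega

set_option autoImplicit false

namespace Pool.Agent.Helper28

open Module Filter Topology NCG
open scoped ComplexOrder ENNReal

variable {ι : Type}

/-- square-summable sequences -/
noncomputable abbrev L2 (ι : Type) := lp (fun _ : ι => ℂ) 2

/-- bounded sequences -/
noncomputable abbrev LI (ι : Type) := lp (fun _ : ι => ℂ) ∞

lemma L2_summable (f : L2 ι) : Summable (fun i => ‖f i‖ ^ 2) := by
  have := (lp.memℓp f).summable (by norm_num)
  simpa using this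

lemma L2_norm_sq (f : L2 ι) : ‖f‖ ^ 2 = ∑' i, ‖f i‖ ^ 2 := by
  have := lp.norm_rpow_eq_tsum (p := 2) (by norm_num) f
  simpa using this

lemma mem_L2 {f : ι → ℂ} (h : Summable (fun i => ‖f i‖ ^ 2)) : Memℓp f 2 := by
  apply memℓp_gen
  simpa using h

lemma norm_le_of_pointwise {f g : L2 ι} {C : ℝ} (hC : 0 ≤ C) (h : ∀ i, ‖f i‖ ≤ C * ‖g i‖) :
    ‖f‖ ≤ C * ‖g‖ := by
  have h1 : ‖f‖ ^ 2 ≤ (C * ‖g‖) ^ 2 := by
    rw [mul_pow, L2_norm_sq, L2_norm_sq, ← tsum_mul_left]
    refine (L2_summable f).tsum_le_tsum (fun i => ?_) ((L2_summable g).mul_left _)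
    rw [← mul_pow]
    exact pow_le_pow_left₀ (norm_nonneg _) (h i) 2
  exact le_of_sq_le_sq h1 (by positivity)

lemma mem_L2_mul {d : ι → ℂ} {C : ℝ} (hd : ∀ i, ‖d i‖ ≤ C) (f : L2 ι) :
    Memℓp (fun i => d i * f i) 2 := by
  apply mem_L2
  refine Summable.of_nonneg_of_le (fun i => sq_nonneg _) (fun i => ?_)
    ((L2_summable f).mul_left (C ^ 2))
  rw [norm_mul, mul_pow]
  refine mul_le_mul_of_nonneg_right ?_ (sq_nonneg _)
  exact pow_le_pow_left₀ (norm_nonneg _) (hd i) 2

/-- diagonal operators -/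
noncomputable def diag (d : LI ι) : L2 ι →L[ℂ] L2 ι :=
  LinearMap.mkContinuous
    { toFun := fun f => ⟨fun i => d i * f i, mem_L2_mul (fun i => lp.norm_apply_le_norm
        (by simp) d i) f⟩
      map_add' := by
        intro f g
        ext i
        change d i * (f i + g i) = d i * f i + d i * g i
        ring
      map_smul' := by
        intro c f
        ext i
        change d i * (c * f i) = c * (d i * f i)
        ring } ‖d‖ (by
        intro f
        refine norm_le_of_pointwise (norm_nonneg d) (fun i => ?_)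
        change ‖d i * f i‖ ≤ _
        rw [norm_mul]
        exact mul_le_mul_of_nonneg_right (lp.norm_apply_le_norm (by simp) d i) (norm_nonneg _))

@[simp] lemma diag_apply (d : LI ι) (f : L2 ι) (i : ι) : diag d f i = d i * f i := rfl

lemma diag_norm_le (d : LI ι) : ‖diag d‖ ≤ ‖d‖ :=
  LinearMap.mkContinuous_norm_le _ (norm_nonneg _) _

variable {H : Type*} [NormedAddCommGroup H] [InnerProductSpace ℂ H] [CompleteSpace H]

/-- diagonal operator with respect to a Hilbert basis -/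
noncomputable def dg (b : HilbertBasis ι ℂ H) (d : LI ι) : H →L[ℂ] H :=
  (b.repr.symm.toContinuousLinearEquiv : L2 ι →L[ℂ] H) ∘L diag d ∘L
    (b.repr.toContinuousLinearEquiv : H →L[ℂ] L2 ι)

lemma repr_dg' (b : HilbertBasis ι ℂ H) (d : LI ι) (x : H) :
    b.repr (dg b d x) = diag d (b.repr x) := by
  change b.repr (b.repr.symm (diag d (b.repr x))) = _
  rw [LinearIsometryEquiv.apply_symm_apply]

lemma repr_dg (b : HilbertBasis ι ℂ H) (d : LI ι) (x : H) (i : ι) :
    b.repr (dg b d x) i = d i * b.repr x i := by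
  rw [repr_dg', diag_apply]

lemma repr_ext (b : HilbertBasis ι ℂ H) {x y : H} (h : ∀ i, b.repr x i = b.repr y i) : x = y := by
  apply b.repr.injective
  ext i
  exact h i

lemma inner_eq (b : HilbertBasis ι ℂ H) (x y : H) :
    inner ℂ x y = ∑' i, (starRingEnd ℂ) (b.repr x i) * b.repr y i := by
  rw [← b.repr.inner_map_map, lp.inner_eq_tsum]
  refine tsum_congr fun i => ?_
  rw [RCLike.inner_apply, mul_comm]

lemma norm_sq_eq (b : HilbertBasis ι ℂ H) (x : H) : ‖x‖ ^ 2 = ∑' i, ‖b.repr x i‖ ^ 2 := by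
  rw [← b.repr.norm_map, L2_norm_sq]

lemma summable_repr (b : HilbertBasis ι ℂ H) (x : H) : Summable fun i => ‖b.repr x i‖ ^ 2 :=
  L2_summable _

lemma norm_le_of_repr (b : HilbertBasis ι ℂ H) {x y : H} {C : ℝ} (hC : 0 ≤ C)
    (h : ∀ i, ‖b.repr x i‖ ≤ C * ‖b.repr y i‖) : ‖x‖ ≤ C * ‖y‖ := by
  rw [← b.repr.norm_map, ← b.repr.norm_map y]
  exact norm_le_of_pointwise hC h

lemma dg_star (b : HilbertBasis ι ℂ H) (d : LI ι) : dg b (star d) = star (dg b d) := by
  change _ = ContinuousLinearMap.adjoint (dg b d)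
  rw [ContinuousLinearMap.eq_adjoint_iff]
  intro x y
  rw [inner_eq b, inner_eq b]
  refine tsum_congr fun i => ?_
  rw [repr_dg, repr_dg, lp.star_apply]
  simp only [map_mul, RCLike.star_def, Complex.conj_conj]
  ring

lemma dg_norm_le (b : HilbertBasis ι ℂ H) (d : LI ι) : ‖dg b d‖ ≤ ‖d‖ := by
  refine ContinuousLinearMap.opNorm_le_bound _ (norm_nonneg _) (fun x => ?_)
  refine norm_le_of_repr b (norm_nonneg _) (fun i => ?_)
  rw [repr_dg, norm_mul]
  exact mul_le_mul_of_nonneg_right (lp.norm_apply_le_norm (by simp) d i) (norm_nonneg _)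

/-- `dg b` as a `*`-homomorphism. -/
noncomputable def dgHom (b : HilbertBasis ι ℂ H) : LI ι →⋆ₐ[ℂ] (H →L[ℂ] H) where
  toFun := dg b
  map_one' := by
    ext x
    refine repr_ext b fun i => ?_
    rw [repr_dg]
    simp
  map_mul' := by
    intro d e
    ext x
    refine repr_ext b fun i => ?_
    change b.repr (dg b (d * e) x) i = b.repr (dg b d (dg b e x)) i
    rw [repr_dg, repr_dg, repr_dg]
    change (d i * e i) * _ = _
    ring
  map_zero' := by
    ext x
    refine repr_ext b fun i => ?_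
    rw [repr_dg]
    simp
  map_add' := by
    intro d e
    ext x
    refine repr_ext b fun i => ?_
    change b.repr (dg b (d + e) x) i = b.repr (dg b d x + dg b e x) i
    rw [repr_dg, map_add]
    change (d i + e i) * _ = b.repr (dg b d x) i + b.repr (dg b e x) i
    rw [repr_dg, repr_dg]
    ring
  commutes' := by
    intro c
    ext x
    refine repr_ext b fun i => ?_
    rw [repr_dg]
    simp [Algebra.algebraMap_eq_smul_one]
  map_star' := dg_star b

/-- evaluation at a coordinate as a `*`-homomorphism. -/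
noncomputable def evHom (i : ι) : LI ι →⋆ₐ[ℂ] ℂ where
  toFun := fun d => d i
  map_one' := by simp
  map_mul' := by intro d e; rfl
  map_zero' := by rfl
  map_add' := by intro d e; rfl
  commutes' := by
    intro c
    simp [Algebra.algebraMap_eq_smul_one]
  map_star' := by intro d; rfl

lemma continuous_dgHom (b : HilbertBasis ι ℂ H) : Continuous (dgHom b) := by
  refine AddMonoidHomClass.continuous_of_bound (dgHom b) 1 (fun d => ?_)
  rw [one_mul]
  exact dg_norm_le b d

lemma continuous_evHom (i : ι) : Continuous (evHom i) := by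
  refine AddMonoidHomClass.continuous_of_bound (evHom i) 1 (fun d => ?_)
  rw [one_mul]
  exact lp.norm_apply_le_norm (by simp) d i

/-- bounded real sequences as elements of `LI`. -/
noncomputable def mkLI (d : ι → ℝ) (C : ℝ) (h : ∀ i, |d i| ≤ C) : LI ι :=
  ⟨fun i => (d i : ℂ), memℓp_infty ⟨C, by rintro _ ⟨n, rfl⟩; simpa using h n⟩⟩

@[simp] lemma mkLI_apply (d : ι → ℝ) (C : ℝ) (h : ∀ i, |d i| ≤ C) (i : ι) :
    (mkLI d C h : ι → ℂ) i = (d i : ℂ) := rfl

lemma mkLI_norm_le (d : ι → ℝ) (C : ℝ) (h : ∀ i, |d i| ≤ C) (hC : 0 ≤ C) :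
    ‖mkLI d C h‖ ≤ C :=
  lp.norm_le_of_forall_le hC (fun i => by simpa using h i)

lemma mkLI_selfAdjoint (d : ι → ℝ) (C : ℝ) (h : ∀ i, |d i| ≤ C) :
    IsSelfAdjoint (mkLI d C h) := by
  rw [IsSelfAdjoint]
  ext i
  rw [lp.star_apply]
  simp

lemma inner_dg (b : HilbertBasis ι ℂ H) (d : ι → ℝ) (C : ℝ) (h : ∀ i, |d i| ≤ C) (x : H) :
    inner ℂ x (dg b (mkLI d C h) x) = ((∑' i, d i * ‖b.repr x i‖ ^ 2 : ℝ) : ℂ) := by
  rw [inner_eq b, Complex.ofReal_tsum]
  refine tsum_congr fun i => ?_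
  rw [repr_dg, mkLI_apply]
  push_cast
  rw [mul_comm (d i : ℂ), ← mul_assoc, Complex.conj_mul']
  ring

lemma dg_isPositive (b : HilbertBasis ι ℂ H) (d : ι → ℝ) (C : ℝ) (h : ∀ i, |d i| ≤ C)
    (h0 : ∀ i, 0 ≤ d i) : (dg b (mkLI d C h)).IsPositive := by
  rw [ContinuousLinearMap.isPositive_def']
  constructor
  · rw [IsSelfAdjoint, ← dg_star, mkLI_selfAdjoint d C h]
  · intro x
    rw [ContinuousLinearMap.reApplyInnerSelf_apply, ← inner_conj_symm, inner_dg, Complex.conj_ofReal]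
    change 0 ≤ (((∑' i, d i * ‖b.repr x i‖ ^ 2 : ℝ) : ℂ)).re
    rw [Complex.ofReal_re]
    exact tsum_nonneg fun i => mul_nonneg (h0 i) (sq_nonneg _)

lemma dg_nonneg (b : HilbertBasis ι ℂ H) (d : ι → ℝ) (C : ℝ) (h : ∀ i, |d i| ≤ C)
    (h0 : ∀ i, 0 ≤ d i) : 0 ≤ dg b (mkLI d C h) :=
  (ContinuousLinearMap.nonneg_iff_isPositive _).mpr (dg_isPositive b d C h h0)

set_option backward.isDefEq.respectTransparency false in
/-- real powers of diagonal operators -/
lemma dg_rpow (b : HilbertBasis ι ℂ H) (d : ι → ℝ) (C : ℝ) (h : ∀ i, |d i| ≤ C)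
    (h0 : ∀ i, 0 ≤ d i) {y : ℝ}
    (hy : 0 < y) (C' : ℝ) (h' : ∀ i, |d i ^ y| ≤ C') :
    (dg b (mkLI d C h)) ^ y = dg b (mkLI (fun i => d i ^ y) C' h') := by
  have hcont : Continuous (fun x : ℝ => x ^ y) := Real.continuous_rpow_const hy.le
  rw [CFC.rpow_eq_cfc_real (dg_nonneg b d C h h0)]
  have hsa := mkLI_selfAdjoint d C h
  have h1 : dgHom b (cfc (fun x : ℝ => x ^ y) (mkLI d C h)) =
      cfc (fun x : ℝ => x ^ y) (dgHom b (mkLI d C h)) :=
    StarAlgHom.map_cfc (dgHom b) (fun x : ℝ => x ^ y) (mkLI d C h) hcont.continuousOn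
      (continuous_dgHom b) hsa (hsa.map (dgHom b))
  have h2 : cfc (fun x : ℝ => x ^ y) (mkLI d C h) = mkLI (fun i => d i ^ y) C' h' := by
    ext i
    have h3 : evHom i (cfc (fun x : ℝ => x ^ y) (mkLI d C h)) =
      cfc (fun x : ℝ => x ^ y) (evHom i (mkLI d C h)) :=
      StarAlgHom.map_cfc (evHom i) (fun x : ℝ => x ^ y) (mkLI d C h) hcont.continuousOn
        (continuous_evHom i) hsa (hsa.map (evHom i))
    have h4 : evHom i (mkLI d C h) = algebraMap ℝ ℂ (d i) := rfl
    rw [h4, cfc_algebraMap] at h3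
    exact h3
  have h5 : dgHom b (mkLI d C h) = dg b (mkLI d C h) := rfl
  rw [← h5, ← h1, h2]
  rfl

end Pool.Agent.Helper28
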