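import Pool.Agent.Helper28.Diag

set_option autoImplicit false

namespace Pool.Agent.Helper28

open Module Filter Topology NCG
open scoped ComplexOrder ENNReal

variable {ι : Type}
variable {H : Type*} [NormedAddCommGroup H] [InnerProductSpace ℂ H] [CompleteSpace H]

/-- rank one operator `x ↦ ⟨v, x⟩ v` -/
noncomputable def rk1 (v : H) : H →L[ℂ] H := (innerSL ℂ v).smulRight v

lemma rk1_apply (v x : H) : rk1 v x = (inner ℂ v x : ℂ) • v := rfl

lemma rk1_compact (v : H) : IsCompactOperator (rk1 v) := by
  have h1 : IsCompactOperator (ContinuousLinearMap.toSpanSingleton ℂ v : ℂ →L[ℂ] H) :=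
    isCompactOperator_of_locallyCompactSpace_rng _
  exact IsCompactOperator.comp_clm (f := (ContinuousLinearMap.toSpanSingleton ℂ v : ℂ → H)) h1
    (innerSL ℂ v)

lemma dg_sub (b : HilbertBasis ι ℂ H) (d e : LI ι) : dg b (d - e) = dg b d - dg b e :=
  map_sub (dgHom b) d e

lemma dg_add (b : HilbertBasis ι ℂ H) (d e : LI ι) : dg b (d + e) = dg b d + dg b e :=
  map_add (dgHom b) d e

lemma repr_basis [DecidableEq ι] (b : HilbertBasis ι ℂ H) (i j : ι) :
    b.repr (b i) j = if j = i then 1 else 0 := by
  rw [HilbertBasis.repr_self, lp.single_apply]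
  by_cases h : j = i
  · subst h
    simp
  · simp [h]

lemma dg_basis (b : HilbertBasis ι ℂ H) (d : LI ι) (i : ι) : dg b d (b i) = d i • b i := by
  classical
  refine repr_ext b fun j => ?_
  rw [repr_dg, repr_basis, map_smul]
  change _ = d i • (b.repr (b i) j)
  rw [repr_basis]
  by_cases h : j = i
  · subst h
    simp
  · simp [h]

/-- finitely supported diagonal operators are compact -/
lemma dg_compact_of_finite (b : HilbertBasis ι ℂ H) (d : LI ι) (s : Finset ι)
    (hs : ∀ i, i ∉ s → d i = 0) : IsCompactOperator (dg b d) := by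
  classical
  have h1 : dg b d = ∑ i ∈ s, (d i) • rk1 (b i) := by
    ext x
    refine repr_ext b fun j => ?_
    rw [repr_dg, ContinuousLinearMap.sum_apply, map_sum, lp.coeFn_sum, Finset.sum_apply]
    have h2 : ∀ i ∈ s, (b.repr ((d i • rk1 (b i)) x)) j =
        if j = i then d i * b.repr x i else 0 := by
      intro i _
      rw [ContinuousLinearMap.smul_apply, rk1_apply, map_smul, map_smul]
      change d i • ((inner ℂ (b i) x : ℂ) • (b.repr (b i) j)) = _
      rw [repr_basis, ← HilbertBasis.repr_apply_apply]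
      by_cases h : j = i
      · simp [h]
      · simp [h]
    rw [Finset.sum_congr rfl h2, Finset.sum_ite_eq]
    by_cases h : j ∈ s
    · rw [if_pos h]
    · rw [if_neg h, hs j h, zero_mul]
  rw [h1]
  have h3 : ∀ t : Finset ι, IsCompactOperator (∑ i ∈ t, (d i) • rk1 (b i) : H →L[ℂ] H) := by
    intro t
    induction t using Finset.induction_on with
    | empty =>
      rw [Finset.sum_empty]
      exact isCompactOperator_zero
    | insert a t ha ih =>
      rw [Finset.sum_insert ha]
      exact IsCompactOperator.add (IsCompactOperator.smul (f := (rk1 (b a) : H → H))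
        (rk1_compact (b a)) (d a)) ih
  exact h3 s

/-- diagonal operators with entries tending to zero are compact -/
lemma dg_compact (b : HilbertBasis ι ℂ H) (d : LI ι)
    (hd : Tendsto (fun i => ‖d i‖) cofinite (𝓝 0)) : IsCompactOperator (dg b d) := by
  classical
  -- truncations
  have hex : ∀ n : ℕ, ∃ e : LI ι, IsCompactOperator (dg b e) ∧
      ‖dg b e - dg b d‖ ≤ 1 / ((n : ℝ) + 1) := by
    intro n
    have hfin : {i | ¬ ‖d i‖ < 1 / ((n : ℝ) + 1)}.Finite := by
      have := (hd.eventually (gt_mem_nhds (show (0 : ℝ) < 1 / ((n : ℝ) + 1) by positivity)))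
      exact this
    refine ⟨⟨fun i => if i ∈ hfin.toFinset then d i else 0, ?_⟩, ?_, ?_⟩
    · refine memℓp_infty ⟨‖d‖, ?_⟩
      rintro _ ⟨i, rfl⟩
      dsimp only
      split_ifs
      · exact lp.norm_apply_le_norm (by simp) d i
      · rw [norm_zero]
        exact norm_nonneg _
    · refine dg_compact_of_finite b _ hfin.toFinset (fun i hi => ?_)
      change (if i ∈ hfin.toFinset then d i else 0) = 0
      rw [if_neg hi]
    · rw [← dg_sub]
      refine (dg_norm_le b _).trans ?_
      refine lp.norm_le_of_forall_le (by positivity) (fun i => ?_)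
      rw [lp.coeFn_sub, Pi.sub_apply]
      change ‖(if i ∈ hfin.toFinset then d i else 0) - d i‖ ≤ _
      by_cases h : i ∈ hfin.toFinset
      · rw [if_pos h, sub_self, norm_zero]
        positivity
      · rw [if_neg h, zero_sub, norm_neg]
        rw [Set.Finite.mem_toFinset] at h
        simp only [Set.mem_ofPred_eq, not_not] at h
        exact h.le
  choose e he1 he2 using hex
  refine isCompactOperator_of_tendsto (l := atTop) (F := fun n => dg b (e n)) ?_
    (Eventually.of_forall he1)
  rw [tendsto_iff_norm_sub_tendsto_zero]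
  refine squeeze_zero (fun _ => norm_nonneg _) he2 ?_
  exact tendsto_one_div_add_atTop_nhds_zero_nat

/-- upper bound for Gelfand numbers of diagonal operators -/
lemma gel_dg_le (b : HilbertBasis ι ℂ H) (d : LI ι) (s : Finset ι) (k : ℕ) (hk : s.card ≤ k)
    {r : ℝ} (hr : 0 ≤ r) (h : ∀ i, i ∉ s → ‖d i‖ ≤ r) : gel (dg b d) k ≤ r := by
  classical
  refine gel_le _ _ ⟨hr, Submodule.span ℂ (b '' s), ?_, ?_, ?_⟩
  · exact FiniteDimensional.span_of_finite ℂ (s.finite_toSet.image _)
  · have h1 : (b '' (s : Set ι)) = ((s.image b : Finset H) : Set H) := by simp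
    rw [h1]
    exact (finrank_span_finset_le_card _).trans (Finset.card_image_le.trans hk)
  · intro x hx
    refine norm_le_of_repr b hr (fun i => ?_)
    rw [repr_dg, norm_mul]
    by_cases hi : i ∈ s
    · have h2 : b.repr x i = 0 := by
        rw [HilbertBasis.repr_apply_apply]
        exact (Submodule.mem_orthogonal _ _).mp hx _ (Submodule.subset_span ⟨i, hi, rfl⟩)
      rw [h2]
      simp
    · exact mul_le_mul_of_nonneg_right (h i hi) (norm_nonneg _)

/-- upper bound of the sums of singular values by the sum of the entries -/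
lemma S_dg_le (b : HilbertBasis ι ℂ H) (d : ι → ℝ) (C : ℝ) (h : ∀ i, |d i| ≤ C)
    (h0 : ∀ i, 0 ≤ d i) (hs : Summable d) (N : ℕ) :
    S (dg b (mkLI d C h)) N ≤ ∑' i, d i := by
  have hc : IsCompactOperator (dg b (mkLI d C h)) := by
    refine dg_compact b _ ?_
    have := hs.tendsto_cofinite_zero
    have h2 := this.norm
    simpa using h2
  obtain ⟨m, e, hm, he, -, hsum⟩ := exists_orthonormal_sum (dg b (mkLI d C h)) hc
    (dg_isPositive b d C h h0) N
  unfold S
  rw [hsum]
  have h1 : ∀ j : Fin m, (inner ℂ (e j) (dg b (mkLI d C h) (e j))).re =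
      ∑' i, d i * ‖b.repr (e j) i‖ ^ 2 := by
    intro j
    rw [inner_dg, Complex.ofReal_re]
  have h3 : ∀ j : Fin m, Summable (fun i => d i * ‖b.repr (e j) i‖ ^ 2) := by
    intro j
    refine Summable.of_nonneg_of_le (fun i => mul_nonneg (h0 i) (sq_nonneg _)) (fun i => ?_)
      ((summable_repr b (e j)).mul_left C)
    exact mul_le_mul_of_nonneg_right ((le_abs_self _).trans (h i)) (sq_nonneg _)
  rw [Finset.sum_congr rfl (fun j _ => h1 j), ← Summable.tsum_finsetSum (fun j _ => h3 j)]
  refine Summable.tsum_le_tsum (fun i => ?_) (summable_sum fun j _ => h3 j) hs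
  rw [← Finset.mul_sum]
  have h4 : ∑ j : Fin m, ‖b.repr (e j) i‖ ^ 2 ≤ 1 := by
    have h5 := he.sum_inner_products_le (b i) (s := Finset.univ)
    rw [b.orthonormal.norm_eq_one i, one_pow] at h5
    refine le_trans (le_of_eq ?_) h5
    refine Finset.sum_congr rfl fun j _ => ?_
    rw [HilbertBasis.repr_apply_apply, norm_inner_symm]
  calc d i * ∑ j : Fin m, ‖b.repr (e j) i‖ ^ 2 ≤ d i * 1 :=
        mul_le_mul_of_nonneg_left h4 (h0 i)
    _ = d i := mul_one _

/-- lower bound of the sums of singular values by sums of entries -/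
lemma le_S_dg (b : HilbertBasis ι ℂ H) (d : ι → ℝ) (C : ℝ) (h : ∀ i, |d i| ≤ C)
    (h0 : ∀ i, 0 ≤ d i) (f : ℕ → ι) (hf : Function.Injective f) (N : ℕ) :
    ∑ k ∈ Finset.range N, d (f k) ≤ S (dg b (mkLI d C h)) N := by
  have h1 := sum_inner_le_sum_gel (dg b (mkLI d C h)) (dg_isPositive b d C h h0)
    (fun j : Fin N => b (f j)) (b.orthonormal.comp _ (hf.comp Fin.val_injective)) N le_rfl
  refine le_trans (le_of_eq ?_) h1
  rw [Finset.sum_range]
  refine Finset.sum_congr rfl fun j _ => ?_
  rw [dg_basis, inner_smul_right, inner_self_eq_norm_sq_to_K, b.orthonormal.norm_eq_one]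
  simp

lemma dg_traceClass (b : HilbertBasis ι ℂ H) (d : ι → ℝ) (C : ℝ) (h : ∀ i, |d i| ≤ C)
    (h0 : ∀ i, 0 ≤ d i) (hs : Summable d) : IsTraceClass (dg b (mkLI d C h)) := by
  have hc : IsCompactOperator (dg b (mkLI d C h)) := by
    refine dg_compact b _ ?_
    have := hs.tendsto_cofinite_zero
    have h2 := this.norm
    simpa using h2
  refine ⟨hc, ?_⟩
  have h1 : mu (dg b (mkLI d C h)) = gel (dg b (mkLI d C h)) := by
    ext k
    exact mu_eq_gel _ hc k
  rw [h1]
  exact summable_of_sum_range_le (fun k => gel_nonneg _ k) (fun N => S_dg_le b d C h h0 hs N)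

end Pool.Agent.Helper28
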