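import Pool.Agent.Helper28.Ideal

set_option autoImplicit false

namespace Pool.Agent.Helper28

open Module Filter Topology NCG
open scoped ComplexOrder

variable {H : Type*} [NormedAddCommGroup H] [InnerProductSpace ℂ H] [CompleteSpace H]

/-- bounded real sequences -/
abbrev Linf := lp (fun _ : ℕ => ℝ) ⊤

/-- dilation-invariant generalised limits, as linear functionals on the Banach space `ℓ^∞` -/
structure DILim (ω : Linf →ₗ[ℝ] ℝ) : Prop where
  nonneg : ∀ x : Linf, (∀ n, 0 ≤ x n) → 0 ≤ ω x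
  lim : ∀ (x : Linf) (c : ℝ), Tendsto (fun n => x n) atTop (𝓝 c) → ω x = c
  dilation : ∀ k : ℕ, 1 ≤ k → ∀ x y : Linf, (∀ n, y n = x (n / k)) → ω y = ω x

/-- Dixmier traces with respect to functionals on the Banach space `ℓ^∞` -/
structure DixTr (ω : Linf →ₗ[ℝ] ℝ) (τ : (H →L[ℂ] H) → ℂ) : Prop where
  map_add : ∀ S ∈ MOneInf H, ∀ T ∈ MOneInf H, τ (S + T) = τ S + τ T
  map_smul : ∀ (c : ℂ), ∀ T ∈ MOneInf H, τ (c • T) = c * τ T
  apply_nonneg : ∀ T ∈ MOneInf H, 0 ≤ T → ∀ x : Linf,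
    (∀ n : ℕ, x n = (∑ k ∈ Finset.range (n + 1), mu T k) / Real.log (1 + (n + 1))) →
    τ T = (ω x : ℝ)

/-- make an element of `ℓ^∞` from a bounded sequence -/
noncomputable def mkL (x : ℕ → ℝ) (C : ℝ) (h : ∀ n, |x n| ≤ C) : Linf :=
  ⟨x, memℓp_infty ⟨C, by rintro _ ⟨n, rfl⟩; exact h n⟩⟩

@[simp] lemma mkL_apply (x : ℕ → ℝ) (C : ℝ) (h : ∀ n, |x n| ≤ C) (n : ℕ) :
    (mkL x C h : ∀ _ : ℕ, ℝ) n = x n := rfl

lemma Linf_bdd (x : Linf) : ∃ C, ∀ n, |x n| ≤ C := by
  obtain ⟨C, hC⟩ := (lp.memℓp x).bddAbove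
  exact ⟨C, fun n => hC ⟨n, rfl⟩⟩

section Omega

variable {ω : Linf →ₗ[ℝ] ℝ} (hω : DILim ω)

include hω

lemma omega_mono {x y : Linf} (h : ∀ n, x n ≤ y n) : ω x ≤ ω y := by
  have := hω.nonneg (y - x) (fun n => by
    rw [lp.coeFn_sub]
    exact sub_nonneg.mpr (h n))
  rw [map_sub] at this
  linarith

lemma omega_congr {x y : Linf} (h : Tendsto (fun n => x n - y n) atTop (𝓝 0)) : ω x = ω y := by
  have := hω.lim (x - y) 0 (by
    simpa [lp.coeFn_sub] using h)
  rw [map_sub] at this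
  linarith

end Omega

/-- the sequence attached to `T ∈ M_{1,oo}` -/
noncomputable def dseq (T : H →L[ℂ] H) (n : ℕ) : ℝ := S T (n + 1) / Real.log (1 + (n + 1 : ℕ))

lemma logpos (n : ℕ) : 0 < Real.log (1 + (n + 1 : ℕ)) := log_pos' (n + 1) (by omega)

lemma dseq_nonneg (T : H →L[ℂ] H) (n : ℕ) : 0 ≤ dseq T n :=
  div_nonneg (S_nonneg _ _) (logpos n).le

lemma dseq_bdd {T : H →L[ℂ] H} (hT : T ∈ MOneInf H) :
    ∃ C, 0 ≤ C ∧ (∀ n, |dseq T n| ≤ C) ∧ ∀ N : ℕ, 1 ≤ N → S T N ≤ C * Real.log (1 + N) := by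
  rw [mem_M_iff] at hT
  obtain ⟨-, C, hC0, hC⟩ := hT
  refine ⟨C, hC0, fun n => ?_, hC⟩
  rw [abs_of_nonneg (dseq_nonneg T n), dseq, div_le_iff₀ (logpos n)]
  exact hC (n + 1) (by omega)

open Classical in
/-- the element of `ℓ^∞` attached to `T` -/
noncomputable def dL (T : H →L[ℂ] H) : Linf :=
  if h : ∃ C, ∀ n, |dseq T n| ≤ C then mkL (dseq T) h.choose h.choose_spec else 0

lemma dL_apply {T : H →L[ℂ] H} (hT : T ∈ MOneInf H) (n : ℕ) : dL T n = dseq T n := by
  have h : ∃ C, ∀ n, |dseq T n| ≤ C := by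
    obtain ⟨C, -, hC, -⟩ := dseq_bdd hT
    exact ⟨C, hC⟩
  rw [dL, dif_pos h]
  rfl

/-- log quotient estimate -/
lemma tendsto_log_quot (a b : ℕ → ℝ) (ha : Tendsto a atTop atTop)
    (hab : ∀ᶠ n in atTop, a n ≤ b n ∧ b n ≤ 2 * a n) :
    Tendsto (fun n => Real.log (b n) / Real.log (a n)) atTop (𝓝 1) := by
  have hlog : Tendsto (fun n => Real.log (a n)) atTop atTop := Real.tendsto_log_atTop.comp ha
  have hup : Tendsto (fun n => 1 + Real.log 2 / Real.log (a n)) atTop (𝓝 1) := by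
    have : Tendsto (fun n => Real.log 2 / Real.log (a n)) atTop (𝓝 0) :=
      hlog.const_div_atTop (Real.log 2)
    simpa using this.const_add 1
  have hlo : Tendsto (fun _ : ℕ => (1 : ℝ)) atTop (𝓝 1) := tendsto_const_nhds
  refine tendsto_of_tendsto_of_tendsto_of_le_of_le' hlo hup ?_ ?_
  · filter_upwards [hab, ha.eventually_gt_atTop 1] with n hn hn1
    have h1 : 0 < Real.log (a n) := Real.log_pos hn1
    rw [le_div_iff₀ h1, one_mul]
    exact Real.log_le_log (by linarith) hn.1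
  · filter_upwards [hab, ha.eventually_gt_atTop 1] with n hn hn1
    have h1 : 0 < Real.log (a n) := Real.log_pos hn1
    rw [div_le_iff₀ h1, add_mul, one_mul, div_mul_cancel₀ _ h1.ne']
    have h2 : Real.log (b n) ≤ Real.log (2 * a n) := Real.log_le_log (by linarith) hn.2
    rw [Real.log_mul (by norm_num) (by linarith)] at h2
    linarith

lemma tendsto_natCast_add (c : ℕ) : Tendsto (fun n : ℕ => (1 : ℝ) + (n + c : ℕ)) atTop atTop := by
  refine tendsto_atTop_add_const_left _ _ ?_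
  exact tendsto_natCast_atTop_atTop.comp (tendsto_add_atTop_nat c)

/-- doubled sequence has the same `ω`. -/
lemma omega_double {ω : Linf →ₗ[ℝ] ℝ} (hω : DILim ω)
    {T : H →L[ℂ] H} (hT : T ∈ MOneInf H) (z : Linf)
    (hz : ∀ n, z n = S T (2 * (n + 1)) / Real.log (1 + (n + 1 : ℕ))) : ω z = ω (dL T) := by
  obtain ⟨C, hC0, hCb, hC⟩ := dseq_bdd hT
  -- `z' n = dseq (2 n + 1)`
  let z' : Linf := mkL (fun n => dseq T (2 * n + 1)) C (fun n => hCb _)
  let w : Linf := mkL (fun n => dseq T (2 * (n / 2) + 1)) C (fun n => hCb _)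
  have h1 : ω z = ω z' := by
    refine omega_congr hω ?_
    have hq : Tendsto (fun n : ℕ => Real.log (1 + (2 * n + 2 : ℕ)) / Real.log (1 + (n + 1 : ℕ)))
        atTop (𝓝 1) := by
      refine tendsto_log_quot _ _ (tendsto_natCast_add 1) ?_
      filter_upwards with n
      push_cast
      constructor <;> nlinarith [(Nat.cast_nonneg n : (0 : ℝ) ≤ n)]
    have hq2 : Tendsto (fun n : ℕ => C * (Real.log (1 + (2 * n + 2 : ℕ)) /
        Real.log (1 + (n + 1 : ℕ)) - 1)) atTop (𝓝 0) := by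
      have := (hq.sub_const 1).const_mul C
      simpa using this
    refine squeeze_zero_norm (fun n => ?_) hq2
    rw [hz n]
    change ‖S T (2 * (n + 1)) / Real.log (1 + (n + 1 : ℕ)) - dseq T (2 * n + 1)‖ ≤ _
    rw [dseq, show 2 * n + 1 + 1 = 2 * (n + 1) by ring]
    have hL1 : 0 < Real.log (1 + (n + 1 : ℕ)) := logpos n
    have hL2 : 0 < Real.log (1 + (2 * (n + 1) : ℕ)) := log_pos' _ (by omega)
    have hLL : Real.log (1 + (n + 1 : ℕ)) ≤ Real.log (1 + (2 * (n + 1) : ℕ)) := by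
      refine Real.log_le_log (by positivity) ?_
      push_cast
      nlinarith [(Nat.cast_nonneg n : (0 : ℝ) ≤ n)]
    have hS := hC (2 * (n + 1)) (by omega)
    have hS0 := S_nonneg T (2 * (n + 1))
    have hdiff : S T (2 * (n + 1)) / Real.log (1 + (n + 1 : ℕ)) -
        S T (2 * (n + 1)) / Real.log (1 + (2 * (n + 1) : ℕ)) =
        S T (2 * (n + 1)) / Real.log (1 + (2 * (n + 1) : ℕ)) *
          (Real.log (1 + (2 * (n + 1) : ℕ)) / Real.log (1 + (n + 1 : ℕ)) - 1) := by
      field_simp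
    rw [hdiff, Real.norm_eq_abs, abs_of_nonneg]
    · refine mul_le_mul_of_nonneg_right ?_ ?_
      · rw [div_le_iff₀ hL2]; exact hS
      · rw [sub_nonneg, le_div_iff₀ hL1, one_mul]; exact hLL
    · refine mul_nonneg (div_nonneg hS0 hL2.le) ?_
      rw [sub_nonneg, le_div_iff₀ hL1, one_mul]; exact hLL
  have h2 : ω w = ω z' := by
    refine hω.dilation 2 (by norm_num) z' w (fun n => ?_)
    rfl
  have h3 : ω w = ω (dL T) := by
    refine omega_congr hω ?_
    -- the difference is nonzero only for even `n`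
    have hq : Tendsto (fun n : ℕ => Real.log (1 + (n + 2 : ℕ)) / Real.log (1 + (n + 1 : ℕ)))
        atTop (𝓝 1) := by
      refine tendsto_log_quot _ _ (tendsto_natCast_add 1) ?_
      filter_upwards with n
      push_cast
      constructor <;> nlinarith [(Nat.cast_nonneg n : (0 : ℝ) ≤ n)]
    have hb : Tendsto (fun n : ℕ => ‖T‖ / Real.log (1 + (n + 1 : ℕ)) +
        C * (Real.log (1 + (n + 2 : ℕ)) / Real.log (1 + (n + 1 : ℕ)) - 1)) atTop (𝓝 0) := by
      have ha : Tendsto (fun n : ℕ => ‖T‖ / Real.log (1 + (n + 1 : ℕ))) atTop (𝓝 0) :=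
        (Real.tendsto_log_atTop.comp (tendsto_natCast_add 1)).const_div_atTop _
      have hc := (hq.sub_const 1).const_mul C
      simpa using ha.add hc
    refine squeeze_zero_norm (fun n => ?_) hb
    rw [dL_apply hT]
    change ‖dseq T (2 * (n / 2) + 1) - dseq T n‖ ≤ _
    have hL1 : 0 < Real.log (1 + (n + 1 : ℕ)) := logpos n
    have hL2 : 0 < Real.log (1 + (n + 2 : ℕ)) := log_pos' _ (by omega)
    have hLL : Real.log (1 + (n + 1 : ℕ)) ≤ Real.log (1 + (n + 2 : ℕ)) := by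
      refine Real.log_le_log (by positivity) ?_
      push_cast
      linarith
    have hfac : 0 ≤ Real.log (1 + (n + 2 : ℕ)) / Real.log (1 + (n + 1 : ℕ)) - 1 := by
      rw [sub_nonneg, le_div_iff₀ hL1, one_mul]; exact hLL
    have hnn : 0 ≤ ‖T‖ / Real.log (1 + (n + 1 : ℕ)) +
        C * (Real.log (1 + (n + 2 : ℕ)) / Real.log (1 + (n + 1 : ℕ)) - 1) :=
      add_nonneg (div_nonneg (norm_nonneg _) hL1.le) (mul_nonneg hC0 hfac)
    rcases Nat.even_or_odd' n with ⟨m, hm | hm⟩
    · -- n = 2 m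
      have e1 : 2 * (n / 2) + 1 = n + 1 := by omega
      rw [e1, dseq, dseq, S_succ T (n + 1)]
      rw [show n + 1 + 1 = n + 2 by ring]
      have hS := hC (n + 1) (by omega)
      have hS0 := S_nonneg T (n + 1)
      have hg := gel_le_norm T (n + 1)
      have hg0 := gel_nonneg T (n + 1)
      rw [Real.norm_eq_abs, abs_le]
      constructor
      · -- lower bound
        have : S T (n + 1) / Real.log (1 + (n + 1 : ℕ)) -
            (S T (n + 1) + gel T (n + 1)) / Real.log (1 + (n + 2 : ℕ)) ≤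
            C * (Real.log (1 + (n + 2 : ℕ)) / Real.log (1 + (n + 1 : ℕ)) - 1) := by
          have e2 : S T (n + 1) / Real.log (1 + (n + 1 : ℕ)) -
            (S T (n + 1) + gel T (n + 1)) / Real.log (1 + (n + 2 : ℕ)) ≤
            S T (n + 1) / Real.log (1 + (n + 1 : ℕ)) -
            S T (n + 1) / Real.log (1 + (n + 2 : ℕ)) := by
            have : S T (n + 1) / Real.log (1 + (n + 2 : ℕ)) ≤
              (S T (n + 1) + gel T (n + 1)) / Real.log (1 + (n + 2 : ℕ)) :=
              div_le_div_of_nonneg_right (by linarith) hL2.le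
            linarith
          refine e2.trans ?_
          have e3 : S T (n + 1) / Real.log (1 + (n + 1 : ℕ)) -
            S T (n + 1) / Real.log (1 + (n + 2 : ℕ)) =
            S T (n + 1) / Real.log (1 + (n + 2 : ℕ)) *
            (Real.log (1 + (n + 2 : ℕ)) / Real.log (1 + (n + 1 : ℕ)) - 1) := by
            field_simp
          rw [e3]
          refine mul_le_mul_of_nonneg_right ?_ hfac
          rw [div_le_iff₀ hL2]
          exact hS.trans (mul_le_mul_of_nonneg_left hLL hC0)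
        have hT0 : 0 ≤ ‖T‖ / Real.log (1 + (n + 1 : ℕ)) := div_nonneg (norm_nonneg _) hL1.le
        linarith
      · -- upper bound
        have e4 : (S T (n + 1) + gel T (n + 1)) / Real.log (1 + (n + 2 : ℕ)) ≤
            S T (n + 1) / Real.log (1 + (n + 1 : ℕ)) + ‖T‖ / Real.log (1 + (n + 1 : ℕ)) := by
          rw [← add_div]
          exact div_le_div₀ (by positivity) (by linarith) hL1 hLL
        have hT1 : 0 ≤ C * (Real.log (1 + (n + 2 : ℕ)) / Real.log (1 + (n + 1 : ℕ)) - 1) :=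
          mul_nonneg hC0 hfac
        linarith
    · have e1 : 2 * (n / 2) + 1 = n := by omega
      rw [e1, sub_self, norm_zero]
      exact hnn
  rw [h1, ← h2, h3]

/-- Additivity of the Dixmier functional on the positive cone. -/
lemma omega_add {ω : Linf →ₗ[ℝ] ℝ} (hω : DILim ω)
    {T U : H →L[ℂ] H} (hT : T ∈ MOneInf H) (hU : U ∈ MOneInf H) (hTp : 0 ≤ T) (hUp : 0 ≤ U) :
    ω (dL (T + U)) = ω (dL T) + ω (dL U) := by
  have hTU := M_add hT hU
  have hTp' := (ContinuousLinearMap.nonneg_iff_isPositive _).mp hTp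
  have hUp' := (ContinuousLinearMap.nonneg_iff_isPositive _).mp hUp
  rw [← map_add]
  refine le_antisymm ?_ ?_
  · refine omega_mono hω (fun n => ?_)
    rw [dL_apply hTU, lp.coeFn_add]
    change _ ≤ dL T n + dL U n
    rw [dL_apply hT, dL_apply hU, dseq, dseq, dseq, ← add_div]
    refine div_le_div_of_nonneg_right ?_ (logpos n).le
    exact sum_gel_add_le T U hT.1 hU.1 hTp' hUp' (n + 1)
  · obtain ⟨C, hC0, -, hC⟩ := dseq_bdd hTU
    -- boundedness of the doubled sequence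
    have hbd : ∀ n : ℕ, |S (T + U) (2 * (n + 1)) / Real.log (1 + (n + 1 : ℕ))| ≤ 2 * C := by
      intro n
      have hL1 := logpos n
      rw [abs_of_nonneg (div_nonneg (S_nonneg _ _) hL1.le), div_le_iff₀ hL1]
      refine (hC (2 * (n + 1)) (by omega)).trans ?_
      have h2 : Real.log (1 + (2 * (n + 1) : ℕ)) ≤ 2 * Real.log (1 + (n + 1 : ℕ)) := by
        rw [← Real.log_rpow (by positivity)]
        refine Real.log_le_log (by positivity) ?_
        push_cast
        rw [Real.rpow_two]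
        nlinarith [(Nat.cast_nonneg n : (0 : ℝ) ≤ n)]
      nlinarith
    let z : Linf := mkL _ _ hbd
    have hz : ω z = ω (dL (T + U)) := omega_double hω hTU z (fun n => rfl)
    rw [← hz]
    refine omega_mono hω (fun n => ?_)
    rw [lp.coeFn_add]
    change dL T n + dL U n ≤ S (T + U) (2 * (n + 1)) / Real.log (1 + (n + 1 : ℕ))
    rw [dL_apply hT, dL_apply hU, dseq, dseq, ← add_div]
    refine div_le_div_of_nonneg_right ?_ (logpos n).le
    exact sum_gel_add_ge T U hT.1 hU.1 hTp' hUp' (n + 1)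

lemma gel_zero_op (k : ℕ) : gel (0 : H →L[ℂ] H) k = 0 := by
  refine le_antisymm ?_ (gel_nonneg _ k)
  refine (gel_le_norm _ k).trans ?_
  rw [norm_zero]

lemma gel_real_smul {c : ℝ} (hc : 0 ≤ c) (T : H →L[ℂ] H) (k : ℕ) :
    gel (c • T) k = c * gel T k := by
  have hcast : ∀ (c : ℝ) (T : H →L[ℂ] H), c • T = (c : ℂ) • T := by
    intro c T
    ext x
    simp
  rcases hc.eq_or_lt with h | h
  · rw [← h, zero_smul, zero_mul, gel_zero_op]
  · refine le_antisymm ?_ ?_
    · rw [hcast]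
      have := gel_smul (c : ℂ) T k
      rwa [Complex.norm_real, Real.norm_eq_abs, abs_of_pos h] at this
    · have h1 : T = (c⁻¹ : ℝ) • (c • T) := by
        rw [smul_smul, inv_mul_cancel₀ h.ne', one_smul]
      have h2 : gel T k ≤ c⁻¹ * gel (c • T) k := by
        conv_lhs => rw [h1, hcast c⁻¹]
        have := gel_smul ((c⁻¹ : ℝ) : ℂ) (c • T) k
        rwa [Complex.norm_real, Real.norm_eq_abs, abs_of_pos (inv_pos.mpr h)] at this
      rw [← div_le_iff₀' (by positivity)] at h2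
      rwa [div_inv_eq_mul, mul_comm] at h2

lemma M_zero : (0 : H →L[ℂ] H) ∈ MOneInf H := by
  rw [mem_M_iff]
  refine ⟨isCompactOperator_zero, 0, le_rfl, fun N _ => ?_⟩
  unfold S
  simp [gel_zero_op]

section Phi

variable {ω : Linf →ₗ[ℝ] ℝ}

lemma omega_real_smul (hω : DILim ω) {T : H →L[ℂ] H} (hT : T ∈ MOneInf H)
    {c : ℝ} (hc : 0 ≤ c) : ω (dL (c • T)) = c * ω (dL T) := by
  have hcT := M_real_smul c hT
  rw [← smul_eq_mul, ← map_smul]
  congr 1
  ext n
  rw [dL_apply hcT]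
  change _ = c • (dL T n)
  rw [dL_apply hT, dseq, dseq]
  have : S (c • T) (n + 1) = c * S T (n + 1) := by
    unfold S
    rw [Finset.mul_sum]
    exact Finset.sum_congr rfl fun k _ => gel_real_smul hc T k
  rw [this, smul_eq_mul, mul_div_assoc]

/-- Real-linear extension to self-adjoint operators. -/
noncomputable def psi (ω : Linf →ₗ[ℝ] ℝ) (T : H →L[ℂ] H) : ℝ := ω (dL T⁺) - ω (dL T⁻)

lemma psi_eq (hω : DILim ω) {T P Q : H →L[ℂ] H} (hT : T ∈ MOneInf H)
    (hsa : IsSelfAdjoint T) (hP : P ∈ MOneInf H) (hQ : Q ∈ MOneInf H) (hP0 : 0 ≤ P)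
    (hQ0 : 0 ≤ Q) (h : T = P - Q) : psi ω T = ω (dL P) - ω (dL Q) := by
  have h1 : T⁺ - T⁻ = T := CFC.posPart_sub_negPart T hsa
  have h2 : T⁺ + Q = P + T⁻ := by
    rw [h] at h1
    rw [← sub_eq_sub_iff_add_eq_add, ← h]
    rw [h]
    exact h1
  have h3 := omega_add hω (M_posPart hT hsa) hQ (CFC.posPart_nonneg T) hQ0
  have h4 := omega_add hω hP (M_negPart hT hsa) hP0 (CFC.negPart_nonneg T)
  rw [h2] at h3
  unfold psi
  linarith

lemma psi_add (hω : DILim ω) {T U : H →L[ℂ] H} (hT : T ∈ MOneInf H)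
    (hTs : IsSelfAdjoint T) (hU : U ∈ MOneInf H) (hUs : IsSelfAdjoint U) :
    psi ω (T + U) = psi ω T + psi ω U := by
  have h1 : T + U = (T⁺ + U⁺) - (T⁻ + U⁻) := by
    conv_lhs => rw [← CFC.posPart_sub_negPart T hTs, ← CFC.posPart_sub_negPart U hUs]
    abel
  rw [psi_eq hω (M_add hT hU) (hTs.add hUs) (M_add (M_posPart hT hTs) (M_posPart hU hUs))
    (M_add (M_negPart hT hTs) (M_negPart hU hUs))
    (add_nonneg (CFC.posPart_nonneg T) (CFC.posPart_nonneg U))
    (add_nonneg (CFC.negPart_nonneg T) (CFC.negPart_nonneg U)) h1]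
  rw [omega_add hω (M_posPart hT hTs) (M_posPart hU hUs) (CFC.posPart_nonneg T)
    (CFC.posPart_nonneg U), omega_add hω (M_negPart hT hTs) (M_negPart hU hUs)
    (CFC.negPart_nonneg T) (CFC.negPart_nonneg U)]
  unfold psi
  ring

lemma psi_neg (T : H →L[ℂ] H) : psi ω (-T) = - psi ω T := by
  unfold psi
  rw [CFC.posPart_neg, CFC.negPart_neg]
  ring

lemma psi_smul (hω : DILim ω) {T : H →L[ℂ] H} (hT : T ∈ MOneInf H)
    (hTs : IsSelfAdjoint T) (c : ℝ) : psi ω (c • T) = c * psi ω T := by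
  have key : ∀ c : ℝ, 0 ≤ c → psi ω (c • T) = c * psi ω T := by
    intro c hc
    unfold psi
    rw [CFC.posPart_smul_of_nonneg hc, CFC.negPart_smul_of_nonneg hc,
      omega_real_smul hω (M_posPart hT hTs) hc, omega_real_smul hω (M_negPart hT hTs) hc]
    ring
  rcases le_total 0 c with hc | hc
  · exact key c hc
  · have h1 : c • T = -((-c) • T) := by rw [neg_smul, neg_neg]
    rw [h1, psi_neg, key (-c) (by linarith)]
    ring

lemma psi_of_nonneg (hω : DILim ω) {T : H →L[ℂ] H} (hT : T ∈ MOneInf H)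
    (h0 : 0 ≤ T) : psi ω T = ω (dL T) := by
  have h1 : dL (0 : H →L[ℂ] H) = 0 := by
    ext n
    rw [dL_apply M_zero, dseq]
    have : S (0 : H →L[ℂ] H) (n + 1) = 0 := by
      unfold S
      simp [gel_zero_op]
    rw [this, zero_div]
    rfl
  rw [psi_eq hω hT h0.isSelfAdjoint hT M_zero h0 le_rfl (by simp), h1, map_zero, sub_zero]

end Phi

lemma M_realPart {T : H →L[ℂ] H} (hT : T ∈ MOneInf H) :
    ((realPart T : selfAdjoint (H →L[ℂ] H)) : H →L[ℂ] H) ∈ MOneInf H := by
  rw [realPart_apply_coe]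
  exact M_real_smul _ (M_add hT (M_star hT))

lemma M_imaginaryPart {T : H →L[ℂ] H} (hT : T ∈ MOneInf H) :
    ((imaginaryPart T : selfAdjoint (H →L[ℂ] H)) : H →L[ℂ] H) ∈ MOneInf H := by
  rw [imaginaryPart_apply_coe]
  exact M_smul _ (M_real_smul _ (M_sub hT (M_star hT)))

/-- The Dixmier trace as a linear functional. -/
noncomputable def dix (ω : Linf →ₗ[ℝ] ℝ) (T : H →L[ℂ] H) : ℂ :=
  (psi ω ((realPart T : selfAdjoint (H →L[ℂ] H)) : H →L[ℂ] H) : ℂ) +
    Complex.I * (psi ω ((imaginaryPart T : selfAdjoint (H →L[ℂ] H)) : H →L[ℂ] H) : ℂ)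

lemma dixTr_dix {ω : Linf →ₗ[ℝ] ℝ} (hω : DILim ω) :
    DixTr (H := H) ω (dix ω) where
  map_add := by
    intro T hT U hU
    unfold dix
    rw [map_add, map_add, AddSubgroup.coe_add, AddSubgroup.coe_add,
      psi_add hω (M_realPart hT) (realPart T).2 (M_realPart hU) (realPart U).2,
      psi_add hω (M_imaginaryPart hT) (imaginaryPart T).2 (M_imaginaryPart hU)
        (imaginaryPart U).2]
    push_cast
    ring
  map_smul := by
    intro c T hT
    unfold dix
    have hr : ((realPart (c • T) : selfAdjoint (H →L[ℂ] H)) : H →L[ℂ] H) =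
        c.re • ((realPart T : selfAdjoint (H →L[ℂ] H)) : H →L[ℂ] H) +
        (-c.im) • ((imaginaryPart T : selfAdjoint (H →L[ℂ] H)) : H →L[ℂ] H) := by
      rw [realPart_smul, neg_smul, ← sub_eq_add_neg]
      rfl
    have hi : ((imaginaryPart (c • T) : selfAdjoint (H →L[ℂ] H)) : H →L[ℂ] H) =
        c.re • ((imaginaryPart T : selfAdjoint (H →L[ℂ] H)) : H →L[ℂ] H) +
        c.im • ((realPart T : selfAdjoint (H →L[ℂ] H)) : H →L[ℂ] H) := by
      rw [imaginaryPart_smul]
      rfl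
    have hRs : IsSelfAdjoint ((realPart T : selfAdjoint (H →L[ℂ] H)) : H →L[ℂ] H) :=
      (realPart T).2
    have hIs : IsSelfAdjoint ((imaginaryPart T : selfAdjoint (H →L[ℂ] H)) : H →L[ℂ] H) :=
      (imaginaryPart T).2
    have hsm : ∀ (r : ℝ) {A : H →L[ℂ] H}, IsSelfAdjoint A → IsSelfAdjoint (r • A) :=
      fun r A hA => (IsSelfAdjoint.all r).smul hA
    rw [hr, hi, psi_add hω (M_real_smul _ (M_realPart hT)) (hsm _ hRs)
        (M_real_smul _ (M_imaginaryPart hT)) (hsm _ hIs),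
      psi_add hω (M_real_smul _ (M_imaginaryPart hT)) (hsm _ hIs)
        (M_real_smul _ (M_realPart hT)) (hsm _ hRs),
      psi_smul hω (M_realPart hT) hRs, psi_smul hω (M_imaginaryPart hT) hIs,
      psi_smul hω (M_imaginaryPart hT) hIs, psi_smul hω (M_realPart hT) hRs]
    apply Complex.ext <;> simp <;> ring
  apply_nonneg := by
    intro T hT h0 x hx
    have hTs : IsSelfAdjoint T := h0.isSelfAdjoint
    have hr : ((realPart T : selfAdjoint (H →L[ℂ] H)) : H →L[ℂ] H) = T := hTs.coe_realPart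
    have hi : ((imaginaryPart T : selfAdjoint (H →L[ℂ] H)) : H →L[ℂ] H) = 0 := by
      rw [hTs.imaginaryPart]
      rfl
    unfold dix
    rw [hr, hi, psi_of_nonneg hω hT h0, psi_of_nonneg hω M_zero le_rfl]
    have h1 : dL (0 : H →L[ℂ] H) = 0 := by
      ext n
      rw [dL_apply M_zero, dseq]
      have : S (0 : H →L[ℂ] H) (n + 1) = 0 := by
        unfold S
        simp [gel_zero_op]
      rw [this, zero_div]
      rfl
    rw [h1, map_zero]
    have h2 : dL T = x := by
      ext n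
      rw [dL_apply hT, hx n, dseq]
      congr 1
      · unfold S
        exact Finset.sum_congr rfl fun k _ => (mu_eq_gel T hT.1 k).symm
      · push_cast
        rfl
    rw [h2]
    simp

end Pool.Agent.Helper28
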