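import Mathlib

set_option autoImplicit false

namespace Pool.Agent.Helper28

open Module

variable {H : Type*} [NormedAddCommGroup H] [InnerProductSpace ℂ H]

/-- The admissible bounds for the `k`-th Gelfand number. -/
def gelSet (T : H →L[ℂ] H) (k : ℕ) : Set ℝ :=
  {r : ℝ | 0 ≤ r ∧ ∃ E : Submodule ℂ H, FiniteDimensional ℂ E ∧ finrank ℂ E ≤ k ∧
    ∀ x ∈ Eᗮ, ‖T x‖ ≤ r * ‖x‖}

/-- The `k`-th Gelfand number of `T`. -/
noncomputable def gel (T : H →L[ℂ] H) (k : ℕ) : ℝ := sInf (gelSet T k)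

lemma gelSet_bddBelow (T : H →L[ℂ] H) (k : ℕ) : BddBelow (gelSet T k) :=
  ⟨0, fun _ hr => hr.1⟩

lemma norm_mem_gelSet (T : H →L[ℂ] H) (k : ℕ) : ‖T‖ ∈ gelSet T k := by
  refine ⟨norm_nonneg _, ⊥, inferInstance, by simp, ?_⟩
  intro x _
  exact T.le_opNorm x

lemma gelSet_nonempty (T : H →L[ℂ] H) (k : ℕ) : (gelSet T k).Nonempty :=
  ⟨_, norm_mem_gelSet T k⟩

lemma gel_nonneg (T : H →L[ℂ] H) (k : ℕ) : 0 ≤ gel T k :=
  le_csInf (gelSet_nonempty T k) fun _ hr => hr.1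

lemma gel_le (T : H →L[ℂ] H) (k : ℕ) {r : ℝ} (hr : r ∈ gelSet T k) : gel T k ≤ r :=
  csInf_le (gelSet_bddBelow T k) hr

lemma gel_le_norm (T : H →L[ℂ] H) (k : ℕ) : gel T k ≤ ‖T‖ :=
  gel_le T k (norm_mem_gelSet T k)

lemma gel_antitone (T : H →L[ℂ] H) : Antitone (gel T) := by
  intro j k hjk
  refine le_csInf (gelSet_nonempty T j) ?_
  rintro r ⟨hr, E, hE, hEk, h⟩
  exact gel_le T k ⟨hr, E, hE, hEk.trans hjk, h⟩

lemma exists_gel_lt (T : H →L[ℂ] H) (k : ℕ) {r : ℝ} (hr : gel T k < r) :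
    ∃ s ∈ gelSet T k, s < r :=
  exists_lt_of_csInf_lt (gelSet_nonempty T k) hr

lemma gel_add (S T : H →L[ℂ] H) (j k : ℕ) : gel (S + T) (j + k) ≤ gel S j + gel T k := by
  refine le_of_forall_pos_le_add ?_
  intro ε hε
  obtain ⟨s, ⟨hs0, E, hE, hEj, hS⟩, hs⟩ := exists_gel_lt S j (r := gel S j + ε / 2) (by linarith)
  obtain ⟨t, ⟨ht0, F, hF, hFk, hT⟩, ht⟩ := exists_gel_lt T k (r := gel T k + ε / 2) (by linarith)
  have hmem : s + t ∈ gelSet (S + T) (j + k) := by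
    refine ⟨by positivity, E ⊔ F, inferInstance, ?_, ?_⟩
    · have := Submodule.finrank_add_le_finrank_add_finrank E F
      omega
    · intro x hx
      have hxE : x ∈ Eᗮ := Submodule.orthogonal_le le_sup_left hx
      have hxF : x ∈ Fᗮ := Submodule.orthogonal_le le_sup_right hx
      calc ‖(S + T) x‖ ≤ ‖S x‖ + ‖T x‖ := norm_add_le _ _
        _ ≤ s * ‖x‖ + t * ‖x‖ := add_le_add (hS x hxE) (hT x hxF)
        _ = (s + t) * ‖x‖ := by ring
  have := gel_le _ _ hmem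
  linarith

lemma gel_congr_norm {S T : H →L[ℂ] H} (h : ∀ x, ‖S x‖ = ‖T x‖) (k : ℕ) : gel S k = gel T k := by
  have : gelSet S k = gelSet T k := by
    ext r
    simp only [gelSet, h]
  simp only [gel, this]

lemma gel_mono_norm {S T : H →L[ℂ] H} (h : ∀ x, ‖S x‖ ≤ ‖T x‖) (k : ℕ) : gel S k ≤ gel T k := by
  refine le_csInf (gelSet_nonempty T k) ?_
  rintro r ⟨hr, E, hE, hEk, hT⟩
  exact gel_le S k ⟨hr, E, hE, hEk, fun x hx => (h x).trans (hT x hx)⟩

lemma gel_smul (c : ℂ) (T : H →L[ℂ] H) (k : ℕ) : gel (c • T) k ≤ ‖c‖ * gel T k := by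
  rcases eq_or_ne c 0 with rfl | hc
  · simp only [zero_smul, norm_zero, zero_mul]
    refine gel_le _ _ ⟨le_rfl, ⊥, inferInstance, by simp, ?_⟩
    simp
  · have hc' : 0 < ‖c‖ := norm_pos_iff.mpr hc
    rw [← div_le_iff₀' hc']
    refine le_csInf (gelSet_nonempty T k) ?_
    rintro r ⟨hr, E, hE, hEk, hT⟩
    rw [div_le_iff₀' hc']
    refine gel_le _ _ ⟨by positivity, E, hE, hEk, fun x hx => ?_⟩
    have := hT x hx
    simp only [ContinuousLinearMap.smul_apply, norm_smul]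
    nlinarith

lemma gel_mul_left (S T : H →L[ℂ] H) (k : ℕ) : gel (S * T) k ≤ ‖S‖ * gel T k := by
  rcases (norm_nonneg S).eq_or_lt with h0 | h0
  · have hS : S = 0 := norm_eq_zero.mp h0.symm
    subst hS
    simp only [zero_mul, norm_zero]
    refine gel_le _ _ ⟨le_rfl, ⊥, inferInstance, by simp, ?_⟩
    simp
  · rw [← div_le_iff₀' h0]
    refine le_csInf (gelSet_nonempty T k) ?_
    rintro r ⟨hr, E, hE, hEk, hT⟩
    rw [div_le_iff₀' h0]
    refine gel_le _ _ ⟨by positivity, E, hE, hEk, fun x hx => ?_⟩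
    calc ‖(S * T) x‖ = ‖S (T x)‖ := rfl
      _ ≤ ‖S‖ * ‖T x‖ := S.le_opNorm _
      _ ≤ ‖S‖ * (r * ‖x‖) := by gcongr; exact hT x hx
      _ = ‖S‖ * r * ‖x‖ := by ring

section Complete

variable [CompleteSpace H]

lemma gel_mul_right (S T : H →L[ℂ] H) (k : ℕ) : gel (T * S) k ≤ ‖S‖ * gel T k := by
  rcases (norm_nonneg S).eq_or_lt with h0 | h0
  · have hS : S = 0 := norm_eq_zero.mp h0.symm
    subst hS
    simp only [mul_zero, norm_zero, zero_mul]
    refine gel_le _ _ ⟨le_rfl, ⊥, inferInstance, by simp, ?_⟩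
    simp
  · rw [← div_le_iff₀' h0]
    refine le_csInf (gelSet_nonempty T k) ?_
    rintro r ⟨hr, E, hE, hEk, hT⟩
    rw [div_le_iff₀' h0]
    refine gel_le _ _ ⟨by positivity, E.map (star S : H →L[ℂ] H).toLinearMap, inferInstance, ?_, ?_⟩
    · exact (Submodule.finrank_map_le _ _).trans hEk
    · intro x hx
      have hSx : S x ∈ Eᗮ := by
        rw [Submodule.mem_orthogonal] at hx ⊢
        intro u hu
        have := hx ((star S : H →L[ℂ] H) u) (Submodule.mem_map_of_mem hu)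
        rw [← ContinuousLinearMap.adjoint_inner_left]
        exact this
      calc ‖(T * S) x‖ = ‖T (S x)‖ := rfl
        _ ≤ r * ‖S x‖ := hT _ hSx
        _ ≤ r * (‖S‖ * ‖x‖) := by gcongr; exact S.le_opNorm _
        _ = ‖S‖ * r * ‖x‖ := by ring

end Complete

/-- A dimension count: a subspace of dimension `> k` meets the orthogonal complement of a
subspace of dimension `≤ k`. -/
lemma exists_mem_orthogonal (F E : Submodule ℂ H) [FiniteDimensional ℂ F]
    [FiniteDimensional ℂ E] (h : finrank ℂ E < finrank ℂ F) :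
    ∃ x ∈ F, x ∈ Eᗮ ∧ x ≠ 0 := by
  -- the orthogonal projection onto `E` restricted to `F` has a kernel
  let f : F →ₗ[ℂ] E := (E.orthogonalProjectionOnto : H →L[ℂ] E).toLinearMap ∘ₗ F.subtype
  have hker : LinearMap.ker f ≠ ⊥ := LinearMap.ker_ne_bot_of_finrank_lt h
  obtain ⟨x, hx, hx0⟩ := Submodule.exists_mem_ne_zero_of_ne_bot hker
  refine ⟨x, x.2, ?_, ?_⟩
  · have : E.orthogonalProjectionOnto (x : H) = 0 := hx
    exact Submodule.orthogonalProjectionOnto_eq_zero_iff.mp this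
  · simpa using hx0

lemma le_gel_of_subspace (T : H →L[ℂ] H) (k : ℕ) (F : Submodule ℂ H) [FiniteDimensional ℂ F]
    (hF : k < finrank ℂ F) {r : ℝ} (h : ∀ x ∈ F, r * ‖x‖ ≤ ‖T x‖) : r ≤ gel T k := by
  refine le_csInf (gelSet_nonempty T k) ?_
  rintro s ⟨hs, E, hE, hEk, hT⟩
  obtain ⟨x, hxF, hxE, hx0⟩ := exists_mem_orthogonal F E (by omega)
  have hx : 0 < ‖x‖ := norm_pos_iff.mpr hx0
  have h1 := h x hxF
  have h2 := hT x hxE
  exact le_of_mul_le_mul_right (h1.trans h2) hx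

end Pool.Agent.Helper28
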