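import Pool.Agent.Helper28.Sing

set_option autoImplicit false

namespace Pool.Agent.Helper28

open Module Filter Topology NCG
open scoped ComplexOrder

variable {H : Type*} [NormedAddCommGroup H] [InnerProductSpace ℂ H] [CompleteSpace H]

/-- partial sums of Gelfand numbers -/
noncomputable def S (T : H →L[ℂ] H) (N : ℕ) : ℝ := ∑ k ∈ Finset.range N, gel T k

lemma S_nonneg (T : H →L[ℂ] H) (N : ℕ) : 0 ≤ S T N := Finset.sum_nonneg fun k _ => gel_nonneg T k

lemma S_mono (T : H →L[ℂ] H) : Monotone (S T) := by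
  intro M N h
  unfold S
  refine Finset.sum_le_sum_of_subset_of_nonneg ?_ fun k _ _ => gel_nonneg T k
  intro k hk
  rw [Finset.mem_range] at hk ⊢
  omega

lemma S_succ (T : H →L[ℂ] H) (N : ℕ) : S T (N + 1) = S T N + gel T N := by
  unfold S
  rw [Finset.sum_range_succ]

lemma log_pos' (N : ℕ) (hN : 1 ≤ N) : 0 < Real.log (1 + N) := by
  apply Real.log_pos
  have : (1 : ℝ) ≤ N := by exact_mod_cast hN
  linarith

/-- membership in `M_{1,oo}` in terms of Gelfand numbers, with a nonnegative constant -/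
lemma mem_M_iff (T : H →L[ℂ] H) : T ∈ MOneInf H ↔
    IsCompactOperator T ∧ ∃ C : ℝ, 0 ≤ C ∧ ∀ N : ℕ, 1 ≤ N → S T N ≤ C * Real.log (1 + N) := by
  constructor
  · rintro ⟨hT, C, hC⟩
    refine ⟨hT, max C 0, le_max_right _ _, fun N hN => ?_⟩
    have h1 := hC N hN
    have h2 : ∑ k ∈ Finset.range N, mu T k = S T N := by
      unfold S
      exact Finset.sum_congr rfl fun k _ => mu_eq_gel T hT k
    rw [h2, div_le_iff₀ (log_pos' N hN)] at h1
    exact h1.trans (mul_le_mul_of_nonneg_right (le_max_left _ _) (log_pos' N hN).le)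
  · rintro ⟨hT, C, -, hC⟩
    refine ⟨hT, C, fun N hN => ?_⟩
    have h2 : ∑ k ∈ Finset.range N, mu T k = S T N := by
      unfold S
      exact Finset.sum_congr rfl fun k _ => mu_eq_gel T hT k
    rw [h2, div_le_iff₀ (log_pos' N hN)]
    exact hC N hN

lemma S_of_gel_le {T U : H →L[ℂ] H} {c : ℝ} (h : ∀ k, gel T k ≤ c * gel U k) (N : ℕ) :
    S T N ≤ c * S U N := by
  unfold S
  rw [Finset.mul_sum]
  exact Finset.sum_le_sum fun k _ => h k

lemma M_of_gel_le {T U : H →L[ℂ] H} (hT : IsCompactOperator T) (hU : U ∈ MOneInf H) {c : ℝ}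
    (hc : 0 ≤ c) (h : ∀ k, gel T k ≤ c * gel U k) : T ∈ MOneInf H := by
  rw [mem_M_iff] at hU ⊢
  obtain ⟨-, C, hC0, hC⟩ := hU
  refine ⟨hT, c * C, by positivity, fun N hN => ?_⟩
  calc S T N ≤ c * S U N := S_of_gel_le h N
    _ ≤ c * (C * Real.log (1 + N)) := mul_le_mul_of_nonneg_left (hC N hN) hc
    _ = c * C * Real.log (1 + N) := by ring

lemma M_smul (c : ℂ) {T : H →L[ℂ] H} (hT : T ∈ MOneInf H) : c • T ∈ MOneInf H :=
  M_of_gel_le (IsCompactOperator.smul (f := (T : H → H)) hT.1 c) hT (norm_nonneg c) (gel_smul c T)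

lemma M_star {T : H →L[ℂ] H} (hT : T ∈ MOneInf H) : star T ∈ MOneInf H :=
  M_of_gel_le (compact_star T hT.1) hT zero_le_one (fun k => by rw [gel_star, one_mul])

lemma M_abs {T : H →L[ℂ] H} (hT : T ∈ MOneInf H) : (CFC.abs T : H →L[ℂ] H) ∈ MOneInf H :=
  M_of_gel_le (compact_abs T hT.1) hT zero_le_one (fun k => by rw [gel_abs, one_mul])

lemma M_mul_left (U : H →L[ℂ] H) {T : H →L[ℂ] H} (hT : T ∈ MOneInf H) : U * T ∈ MOneInf H :=
  M_of_gel_le (IsCompactOperator.clm_comp (f := (T : H → H)) hT.1 U) hT (norm_nonneg U)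
    (gel_mul_left U T)

lemma M_mul_right (U : H →L[ℂ] H) {T : H →L[ℂ] H} (hT : T ∈ MOneInf H) : T * U ∈ MOneInf H :=
  M_of_gel_le (IsCompactOperator.comp_clm (f := (T : H → H)) hT.1 U) hT (norm_nonneg U)
    (gel_mul_right U T)

lemma S_add_le (T U : H →L[ℂ] H) (N : ℕ) : S (T + U) N ≤ 2 * (S T N + S U N) := by
  unfold S
  have h1 : ∀ k, gel (T + U) k ≤ gel T (k / 2) + gel U (k / 2) := by
    intro k
    refine (gel_antitone (T + U) (show k / 2 + k / 2 ≤ k by omega)).trans ?_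
    exact gel_add T U _ _
  have h2 : ∀ (f : ℕ → ℝ), (∀ k, 0 ≤ f k) → ∀ N,
      ∑ k ∈ Finset.range N, f (k / 2) ≤ 2 * ∑ k ∈ Finset.range N, f k := by
    intro f hf N
    have h3 : ∀ M, ∑ k ∈ Finset.range (2 * M), f (k / 2) = 2 * ∑ k ∈ Finset.range M, f k := by
      intro M
      induction M with
      | zero => simp
      | succ M ih =>
        rw [show 2 * (M + 1) = 2 * M + 1 + 1 by ring, Finset.sum_range_succ,
          Finset.sum_range_succ, ih, Finset.sum_range_succ,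
          show (2 * M + 1) / 2 = M by omega, show (2 * M) / 2 = M by omega]
        ring
    rw [← h3 N]
    refine Finset.sum_le_sum_of_subset_of_nonneg ?_ fun k _ _ => hf _
    intro k hk
    rw [Finset.mem_range] at hk ⊢
    omega
  calc ∑ k ∈ Finset.range N, gel (T + U) k
      ≤ ∑ k ∈ Finset.range N, (gel T (k / 2) + gel U (k / 2)) :=
        Finset.sum_le_sum fun k _ => h1 k
    _ = ∑ k ∈ Finset.range N, gel T (k / 2) + ∑ k ∈ Finset.range N, gel U (k / 2) :=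
        Finset.sum_add_distrib
    _ ≤ 2 * ∑ k ∈ Finset.range N, gel T k + 2 * ∑ k ∈ Finset.range N, gel U k :=
        add_le_add (h2 _ (gel_nonneg T) N) (h2 _ (gel_nonneg U) N)
    _ = 2 * (∑ k ∈ Finset.range N, gel T k + ∑ k ∈ Finset.range N, gel U k) := by ring

lemma M_add {T U : H →L[ℂ] H} (hT : T ∈ MOneInf H) (hU : U ∈ MOneInf H) :
    T + U ∈ MOneInf H := by
  rw [mem_M_iff] at hT hU ⊢
  obtain ⟨hTc, C, hC0, hC⟩ := hT
  obtain ⟨hUc, C', hC0', hC'⟩ := hU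
  refine ⟨hTc.add hUc, 2 * (C + C'), by positivity, fun N hN => ?_⟩
  have h1 := S_add_le T U N
  have h2 := hC N hN
  have h3 := hC' N hN
  nlinarith

lemma M_neg {T : H →L[ℂ] H} (hT : T ∈ MOneInf H) : -T ∈ MOneInf H := by
  have := M_smul (-1) hT
  simpa using this

lemma M_sub {T U : H →L[ℂ] H} (hT : T ∈ MOneInf H) (hU : U ∈ MOneInf H) :
    T - U ∈ MOneInf H := by
  rw [sub_eq_add_neg]
  exact M_add hT (M_neg hU)

lemma M_real_smul (c : ℝ) {T : H →L[ℂ] H} (hT : T ∈ MOneInf H) : c • T ∈ MOneInf H := by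
  have := M_smul (c : ℂ) hT
  have h2 : (c : ℂ) • T = c • T := by
    ext x
    simp
  rwa [h2] at this

lemma M_posPart {T : H →L[ℂ] H} (hT : T ∈ MOneInf H) (hsa : IsSelfAdjoint T) :
    T⁺ ∈ MOneInf H := by
  have h1 : (CFC.abs T : H →L[ℂ] H) + T = 2 • T⁺ := CFC.abs_add_self T hsa
  have h2 : T⁺ = (1 / 2 : ℝ) • ((CFC.abs T : H →L[ℂ] H) + T) := by
    rw [h1, ← Nat.cast_smul_eq_nsmul ℝ, smul_smul]
    norm_num
  rw [h2]
  exact M_real_smul _ (M_add (M_abs hT) hT)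

lemma M_negPart {T : H →L[ℂ] H} (hT : T ∈ MOneInf H) (hsa : IsSelfAdjoint T) :
    T⁻ ∈ MOneInf H := by
  have h1 : (CFC.abs T : H →L[ℂ] H) - T = 2 • T⁻ := CFC.abs_sub_self T hsa
  have h2 : T⁻ = (1 / 2 : ℝ) • ((CFC.abs T : H →L[ℂ] H) - T) := by
    rw [h1, ← Nat.cast_smul_eq_nsmul ℝ, smul_smul]
    norm_num
  rw [h2]
  exact M_real_smul _ (M_sub (M_abs hT) hT)

end Pool.Agent.Helper28
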