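import Pool.Agent.Helper28.Gel

set_option autoImplicit false

namespace Pool.Agent.Helper28

open Module
open scoped ComplexOrder

variable {H : Type*} [NormedAddCommGroup H] [InnerProductSpace ℂ H] [CompleteSpace H]

lemma gel_star_le (T : H →L[ℂ] H) (k : ℕ) : gel (star T) k ≤ gel T k := by
  refine le_csInf (gelSet_nonempty T k) ?_
  rintro r ⟨hr, E, hE, hEk, hT⟩
  refine gel_le _ _ ⟨hr, E.map T.toLinearMap, inferInstance,
    (Submodule.finrank_map_le _ _).trans hEk, ?_⟩
  intro y hy
  set z := (star T : H →L[ℂ] H) y with hz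
  have hzE : z ∈ Eᗮ := by
    rw [Submodule.mem_orthogonal] at hy ⊢
    intro u hu
    have h1 := hy (T u) (Submodule.mem_map_of_mem hu)
    rw [hz]
    change inner ℂ u (ContinuousLinearMap.adjoint T y) = 0
    rw [ContinuousLinearMap.adjoint_inner_right]
    exact h1
  have h2 : (‖z‖ : ℝ) ^ 2 ≤ ‖y‖ * (r * ‖z‖) := by
    have h3 : inner ℂ z z = inner ℂ y (T z) := by
      conv_lhs => rw [hz]
      change inner ℂ (ContinuousLinearMap.adjoint T y) _ = _
      rw [ContinuousLinearMap.adjoint_inner_left]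
    have h4 : (‖z‖ : ℝ) ^ 2 = ‖inner ℂ z z‖ := by
      rw [inner_self_eq_norm_sq_to_K]
      simp
    rw [h4, h3]
    calc ‖inner ℂ y (T z)‖ ≤ ‖y‖ * ‖T z‖ := norm_inner_le_norm _ _
      _ ≤ ‖y‖ * (r * ‖z‖) := by gcongr; exact hT z hzE
  rcases (norm_nonneg z).eq_or_lt with h0 | h0
  · rw [← h0]; positivity
  · have : ‖z‖ * ‖z‖ ≤ (r * ‖y‖) * ‖z‖ := by nlinarith
    exact le_of_mul_le_mul_right this h0

lemma gel_star (T : H →L[ℂ] H) (k : ℕ) : gel (star T) k = gel T k := by
  refine le_antisymm (gel_star_le T k) ?_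
  have := gel_star_le (star T) k
  rwa [star_star] at this

/-- A nonzero positive compact operator has its norm as an eigenvalue. -/
lemma top_eigenvector (S : H →L[ℂ] H) (hc : IsCompactOperator S) (hS : S.IsPositive)
    (h0 : S ≠ 0) : ∃ v : H, ‖v‖ = 1 ∧ S v = (‖S‖ : ℂ) • v := by
  have hnt : Nontrivial H := by
    by_contra hn
    rw [not_nontrivial_iff_subsingleton] at hn
    exact h0 (by ext x; exact Subsingleton.elim _ _)
  have hpos : 0 < ‖S‖ := norm_pos_iff.mpr h0
  obtain ⟨k, hk, hkr⟩ := spectrum.exists_nnnorm_eq_spectralRadius S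
  rw [S.spectralRadius_eq_nnnorm hS.isSelfAdjoint] at hkr
  have hkn : ‖k‖ = ‖S‖ := by
    have : (‖k‖₊ : ENNReal) = ‖S‖₊ := hkr
    have h' : ‖k‖₊ = ‖S‖₊ := by exact_mod_cast this
    exact congrArg NNReal.toReal h'
  have hk0 : k ≠ 0 := by
    intro h
    rw [h, norm_zero] at hkn
    linarith
  have hev := (hc.hasEigenvalue_iff_mem_spectrum hk0).mpr hk
  obtain ⟨v, hv⟩ := hev.exists_hasEigenvector
  have hv1 : S v = k • v := hv.apply_eq_smul
  have hv0 : v ≠ 0 := hv.2
  have hvn : 0 < ‖v‖ := norm_pos_iff.mpr hv0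
  -- `k` is real and nonnegative
  have hinner : inner ℂ v (S v) = k * (‖v‖ : ℂ) ^ 2 := by
    rw [hv1, inner_smul_right, inner_self_eq_norm_sq_to_K]
    simp
  have hnn : 0 ≤ inner ℂ v (S v) := hS.inner_nonneg_right v
  rw [hinner] at hnn
  have hsq : (0 : ℝ) < ‖v‖ ^ 2 := by positivity
  have hk1 : 0 ≤ k := by
    rw [show (‖v‖ : ℂ) ^ 2 = ((‖v‖ ^ 2 : ℝ) : ℂ) by push_cast; rfl, Complex.le_def] at hnn
    rw [Complex.le_def]
    simp only [Complex.zero_re, Complex.zero_im, Complex.re_mul_ofReal,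
      Complex.im_mul_ofReal] at hnn ⊢
    refine ⟨nonneg_of_mul_nonneg_left hnn.1 hsq, ?_⟩
    rcases mul_eq_zero.mp hnn.2.symm with h | h
    · exact h.symm
    · exact absurd h hsq.ne'
  have hk2 : k = (‖S‖ : ℂ) := by
    rw [← hkn]
    have := Complex.eq_coe_norm_of_nonneg hk1
    exact this
  refine ⟨(‖v‖⁻¹ : ℂ) • v, ?_, ?_⟩
  · rw [norm_smul]
    simp [hvn.ne']
  · rw [map_smul, hv1, hk2, smul_comm]

/-- Top eigenvector on the orthogonal complement of an invariant subspace. -/
lemma exists_top (S : H →L[ℂ] H) (hc : IsCompactOperator S) (hS : S.IsPositive)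
    (E : Submodule ℂ H) [FiniteDimensional ℂ E] (hE : ∀ x ∈ E, S x ∈ E) :
    ∃ r : ℝ, 0 ≤ r ∧ (∀ x ∈ Eᗮ, ‖S x‖ ≤ r * ‖x‖) ∧
      (r = 0 ∨ ∃ v ∈ Eᗮ, ‖v‖ = 1 ∧ S v = (r : ℂ) • v) := by
  have hinv : ∀ x ∈ Eᗮ, S x ∈ Eᗮ := by
    intro x hx
    rw [Submodule.mem_orthogonal] at hx ⊢
    intro u hu
    have h1 := hx (S u) (hE u hu)
    rw [← hS.inner_left_eq_inner_right]
    exact h1
  let S' : Eᗮ →L[ℂ] Eᗮ := S.restrict hinv
  have hc' : IsCompactOperator S' := IsCompactOperator.restrict' (f := S.toLinearMap) hc hinv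
  have hS' : S'.IsPositive := by
    rw [ContinuousLinearMap.isPositive_def]
    refine ⟨fun x y => hS.isSymmetric x y, fun x => ?_⟩
    have := hS.re_inner_nonneg_left (x : H)
    exact this
  refine ⟨‖S'‖, S'.opNorm_nonneg, ?_, ?_⟩
  · intro x hx
    have := S'.le_opNorm ⟨x, hx⟩
    exact this
  · by_cases h0 : S' = 0
    · left; rw [h0]; exact ContinuousLinearMap.opNorm_zero
    · right
      obtain ⟨v, hv1, hv2⟩ := top_eigenvector S' hc' hS' h0
      refine ⟨v, v.2, hv1, ?_⟩
      have := congrArg (Subtype.val) hv2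
      exact this

lemma span_eigen_invariant (S : H →L[ℂ] H) {ι : Type*} {e : ι → H} {l : ι → ℝ}
    (h : ∀ i, S (e i) = (l i : ℂ) • e i) :
    ∀ x ∈ Submodule.span ℂ (Set.range e), S x ∈ Submodule.span ℂ (Set.range e) := by
  intro x hx
  induction hx using Submodule.span_induction with
  | mem x hx =>
    obtain ⟨i, rfl⟩ := hx
    rw [h i]
    exact Submodule.smul_mem _ _ (Submodule.subset_span ⟨i, rfl⟩)
  | zero => simp
  | add x y _ _ hx hy => rw [map_add]; exact Submodule.add_mem _ hx hy
  | smul c x _ hx => rw [map_smul]; exact Submodule.smul_mem _ _ hx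

lemma norm_le_of_eigen (S : H →L[ℂ] H) {n : ℕ} {e : Fin n → H} {l : Fin n → ℝ}
    (he : Orthonormal ℂ e) (h : ∀ i, S (e i) = (l i : ℂ) • e i) {r : ℝ} (hr : 0 ≤ r)
    (hl : ∀ i, r ≤ l i) : ∀ x ∈ Submodule.span ℂ (Set.range e), r * ‖x‖ ≤ ‖S x‖ := by
  intro x hx
  rw [Submodule.mem_span_range_iff_exists_fun] at hx
  obtain ⟨c, rfl⟩ := hx
  have h1 : S (∑ i, c i • e i) = ∑ i, (c i * (l i : ℂ)) • e i := by
    rw [map_sum]
    refine Finset.sum_congr rfl fun i _ => ?_
    rw [map_smul, h i, smul_smul]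
  have h2 : ∀ d : Fin n → ℂ, ‖∑ i, d i • e i‖ ^ 2 = ∑ i, ‖d i‖ ^ 2 := by
    intro d
    have := he.inner_sum (fun i => d i) (fun i => d i) Finset.univ
    rw [inner_self_eq_norm_sq_to_K] at this
    have h3 : ((‖∑ i, d i • e i‖ ^ 2 : ℝ) : ℂ) = ((∑ i, ‖d i‖ ^ 2 : ℝ) : ℂ) := by
      push_cast
      rw [show ((‖∑ i, d i • e i‖ : ℝ) : ℂ) ^ 2 = _ from this]
      refine Finset.sum_congr rfl fun i _ => ?_
      rw [← Complex.conj_mul']
    exact_mod_cast h3
  rw [h1]
  have h4 : (r * ‖∑ i, c i • e i‖) ^ 2 ≤ ‖∑ i, (c i * (l i : ℂ)) • e i‖ ^ 2 := by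
    rw [mul_pow, h2, h2, Finset.mul_sum]
    refine Finset.sum_le_sum fun i _ => ?_
    rw [norm_mul, mul_pow, mul_comm]
    have h5 : r ^ 2 ≤ ‖(l i : ℂ)‖ ^ 2 := by
      rw [Complex.norm_real, Real.norm_eq_abs, sq_abs]
      have := hl i
      nlinarith
    nlinarith [sq_nonneg ‖c i‖]
  exact le_of_sq_le_sq h4 (norm_nonneg _)

lemma le_gel_of_eigen (S : H →L[ℂ] H) {n : ℕ} {e : Fin n → H} {l : Fin n → ℝ}
    (he : Orthonormal ℂ e) (h : ∀ i, S (e i) = (l i : ℂ) • e i) {r : ℝ} (hr : 0 ≤ r)
    (hl : ∀ i, r ≤ l i) (k : ℕ) (hk : k < n) : r ≤ gel S k := by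
  have : FiniteDimensional ℂ (Submodule.span ℂ (Set.range e)) :=
    FiniteDimensional.span_of_finite ℂ (Set.finite_range e)
  refine le_gel_of_subspace S k (Submodule.span ℂ (Set.range e)) ?_
    (norm_le_of_eigen S he h hr hl)
  rw [finrank_span_eq_card he.linearIndependent, Fintype.card_fin]
  exact hk

/-- The eigenvalue sequence of a positive compact operator. -/
lemma eigen_seq (S : H →L[ℂ] H) (hc : IsCompactOperator S) (hS : S.IsPositive) (N : ℕ) :
    ∃ (m : ℕ) (e : Fin m → H) (r : ℝ), m ≤ N ∧ Orthonormal ℂ e ∧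
      (∀ i, S (e i) = (gel S i : ℂ) • e i) ∧ 0 ≤ r ∧
      (∀ x ∈ (Submodule.span ℂ (Set.range e))ᗮ, ‖S x‖ ≤ r * ‖x‖) ∧
      (r = 0 ∨ ∃ v ∈ (Submodule.span ℂ (Set.range e))ᗮ, ‖v‖ = 1 ∧ S v = (r : ℂ) • v) ∧
      (∀ i : Fin m, r ≤ gel S i) ∧ (m < N → r = 0) := by
  induction N with
  | zero =>
    have hspan : Submodule.span ℂ (Set.range (Fin.elim0 : Fin 0 → H)) = ⊥ := by
      rw [Submodule.span_eq_bot]
      rintro x ⟨i, _⟩
      exact i.elim0
    obtain ⟨r, hr, h1, h2⟩ := exists_top S hc hS ⊥ (by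
      intro x hx
      rw [Submodule.mem_bot] at hx
      rw [hx, map_zero]
      exact Submodule.zero_mem _)
    refine ⟨0, Fin.elim0, r, le_rfl, ?_, fun i => i.elim0, hr, ?_, ?_, fun i => i.elim0, ?_⟩
    · rw [orthonormal_iff_ite]
      exact fun i => i.elim0
    · rw [hspan]; exact h1
    · rw [hspan]; exact h2
    · intro h; omega
  | succ N ih =>
    obtain ⟨m, e, r, hmN, he, hSe, hr, h1, h2, h3, h4⟩ := ih
    by_cases hcase : r = 0
    · exact ⟨m, e, r, by omega, he, hSe, hr, h1, h2, h3, fun _ => hcase⟩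
    · have hm : m = N := by
        by_contra hne
        exact hcase (h4 (by omega))
      subst hm
      obtain ⟨v, hvE, hv1, hSv⟩ := h2.resolve_left hcase
      have hvorth : ∀ i, inner ℂ (e i) v = 0 := by
        intro i
        rw [Submodule.mem_orthogonal] at hvE
        exact hvE _ (Submodule.subset_span ⟨i, rfl⟩)
      let e' : Fin (m + 1) → H := Fin.snoc e v
      have : FiniteDimensional ℂ (Submodule.span ℂ (Set.range e)) :=
        FiniteDimensional.span_of_finite ℂ (Set.finite_range e)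
      have : FiniteDimensional ℂ (Submodule.span ℂ (Set.range e')) :=
        FiniteDimensional.span_of_finite ℂ (Set.finite_range e')
      have he'1 : ∀ i : Fin m, e' i.castSucc = e i := fun i => by simp [e']
      have he'2 : e' (Fin.last m) = v := by simp [e']
      have he' : Orthonormal ℂ e' := by
        rw [orthonormal_iff_ite] at he ⊢
        intro i j
        induction i using Fin.lastCases with
        | last =>
          induction j using Fin.lastCases with
          | last =>
            rw [he'2, inner_self_eq_norm_sq_to_K, hv1]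
            simp
          | cast j =>
            rw [he'2, he'1, ← inner_conj_symm, hvorth j, if_neg (Fin.castSucc_lt_last j).ne']
            simp
        | cast i =>
          induction j using Fin.lastCases with
          | last =>
            rw [he'2, he'1, hvorth i, if_neg (Fin.castSucc_lt_last i).ne]
          | cast j =>
            rw [he'1, he'1, he i j]
            simp
      have hgm : gel S m = r := by
        refine le_antisymm ?_ ?_
        · refine gel_le S m ⟨hr, Submodule.span ℂ (Set.range e), inferInstance, ?_, h1⟩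
          rw [finrank_span_eq_card he.linearIndependent, Fintype.card_fin]
        · refine le_gel_of_eigen S he' (l := fun i => Fin.lastCases r (fun i => gel S i) i)
            ?_ hr ?_ m (by omega)
          · intro i
            induction i using Fin.lastCases with
            | last => simp only [he'2, Fin.lastCases_last]; exact hSv
            | cast i => simp only [he'1, Fin.lastCases_castSucc]; exact hSe i
          · intro i
            induction i using Fin.lastCases with
            | last => simp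
            | cast i => simp only [Fin.lastCases_castSucc]; exact h3 i
      have hSe' : ∀ i : Fin (m + 1), S (e' i) = (gel S i : ℂ) • e' i := by
        intro i
        induction i using Fin.lastCases with
        | last => rw [he'2, Fin.val_last, hgm]; exact hSv
        | cast i => rw [he'1, Fin.val_castSucc]; exact hSe i
      obtain ⟨r', hr', h1', h2'⟩ := exists_top S hc hS (Submodule.span ℂ (Set.range e'))
        (span_eigen_invariant S (l := fun i => gel S i) hSe')
      have hle : Submodule.span ℂ (Set.range e) ≤ Submodule.span ℂ (Set.range e') := by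
        refine Submodule.span_mono ?_
        rintro x ⟨i, rfl⟩
        exact ⟨i.castSucc, he'1 i⟩
      have hr'r : r' ≤ r := by
        rcases h2' with h | ⟨w, hw, hw1, hSw⟩
        · rw [h]; exact hr
        · have := h1 w (Submodule.orthogonal_le hle hw)
          rw [hSw, norm_smul, hw1, Complex.norm_real, Real.norm_eq_abs, abs_of_nonneg hr'] at this
          linarith
      refine ⟨m + 1, e', r', le_rfl, he', hSe', hr', h1', h2', ?_, fun h => by omega⟩
      intro i
      induction i using Fin.lastCases with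
      | last => rw [Fin.val_last, hgm]; exact hr'r
      | cast i => rw [Fin.val_castSucc]; exact hr'r.trans (h3 i)

end Pool.Agent.Helper28
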