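import Pool.Agent.Helper28.KyFan

set_option autoImplicit false

namespace Pool.Agent.Helper28

open Module
open scoped ComplexOrder

variable {H : Type*} [NormedAddCommGroup H] [InnerProductSpace ℂ H] [CompleteSpace H]

/-- For a positive compact operator the Ky Fan sums are attained by orthonormal families. -/
lemma exists_orthonormal_sum (S : H →L[ℂ] H) (hc : IsCompactOperator S) (hS : S.IsPositive)
    (N : ℕ) : ∃ (m : ℕ) (e : Fin m → H), m ≤ N ∧ Orthonormal ℂ e ∧
      (∀ i, S (e i) = (gel S i : ℂ) • e i) ∧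
      ∑ k ∈ Finset.range N, gel S k = ∑ i, (inner ℂ (e i) (S (e i))).re := by
  obtain ⟨m, e, r, hmN, he, hSe, hr, h1, -, h3, h4⟩ := eigen_seq S hc hS N
  refine ⟨m, e, hmN, he, hSe, ?_⟩
  have hfd : FiniteDimensional ℂ (Submodule.span ℂ (Set.range e)) :=
    FiniteDimensional.span_of_finite ℂ (Set.finite_range e)
  have hz : ∀ k, m ≤ k → k < N → gel S k = 0 := by
    intro k hmk hkN
    have hr0 : r = 0 := h4 (by omega)
    refine le_antisymm ?_ (gel_nonneg S k)
    refine (gel_antitone S hmk).trans ?_
    refine gel_le S m ⟨le_rfl, Submodule.span ℂ (Set.range e), hfd, ?_, ?_⟩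
    · rw [finrank_span_eq_card he.linearIndependent, Fintype.card_fin]
    · rw [← hr0]; exact h1
  have h5 : ∀ i, (inner ℂ (e i) (S (e i))).re = gel S i := by
    intro i
    rw [hSe i, inner_smul_right, inner_self_eq_norm_sq_to_K, he.1 i]
    simp
  simp_rw [h5]
  rw [Fin.sum_univ_eq_sum_range (fun i => gel S i) m]
  symm
  refine Finset.sum_subset ?_ ?_
  · intro k hk
    rw [Finset.mem_range] at hk ⊢
    omega
  · intro k hk hk'
    rw [Finset.mem_range] at hk hk'
    exact hz k (by omega) hk

lemma le_gel_of_form (S : H →L[ℂ] H) (k : ℕ) (F : Submodule ℂ H) [FiniteDimensional ℂ F]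
    (hF : k < finrank ℂ F) {r : ℝ} (h : ∀ x ∈ F, r * ‖x‖ ^ 2 ≤ (inner ℂ x (S x)).re) :
    r ≤ gel S k := by
  refine le_gel_of_subspace S k F hF ?_
  intro x hx
  have h1 := h x hx
  have h2 : (inner ℂ x (S x)).re ≤ ‖x‖ * ‖S x‖ :=
    (Complex.re_le_norm _).trans (norm_inner_le_norm _ _)
  rcases (norm_nonneg x).eq_or_lt with h0 | h0
  · rw [← h0, mul_zero]; exact norm_nonneg _
  · have h3 : (r * ‖x‖) * ‖x‖ ≤ ‖S x‖ * ‖x‖ := by nlinarith
    exact le_of_mul_le_mul_right h3 h0

/-- The compression of `S` to a finite-dimensional subspace. -/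
noncomputable def compr (W : Submodule ℂ H) [FiniteDimensional ℂ W] (S : H →L[ℂ] H) :
    W →ₗ[ℂ] W :=
  ((W.orthogonalProjectionOnto : H →L[ℂ] W) ∘L S ∘L W.subtypeL : W →L[ℂ] W).toLinearMap

lemma inner_compr (W : Submodule ℂ H) [FiniteDimensional ℂ W] (S : H →L[ℂ] H) (x y : W) :
    inner ℂ x (compr W S y) = inner ℂ (x : H) (S y) := by
  simp only [compr]
  change inner ℂ x (W.orthogonalProjectionOnto (S y)) = _
  rw [Submodule.inner_orthogonalProjectionOnto_eq_of_mem_left]

lemma compr_symm (W : Submodule ℂ H) [FiniteDimensional ℂ W] (S : H →L[ℂ] H)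
    (hS : S.IsPositive) : (compr W S).IsSymmetric := by
  intro x y
  rw [inner_compr, ← inner_conj_symm, inner_compr, inner_conj_symm]
  exact hS.isSymmetric x y

lemma compr_add (W : Submodule ℂ H) [FiniteDimensional ℂ W] (S T : H →L[ℂ] H) :
    compr W (S + T) = compr W S + compr W T := by
  ext x
  simp [compr]

/-- trace of compression computed in an orthonormal family spanning. -/
lemma trace_compr_eq (W : Submodule ℂ H) [FiniteDimensional ℂ W] (S : H →L[ℂ] H)
    {ι : Type*} [Fintype ι] (b : OrthonormalBasis ι ℂ W) :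
    (compr W S).trace ℂ W = ∑ i, inner ℂ (b i : H) (S (b i)) := by
  rw [LinearMap.trace_eq_sum_inner _ b]
  refine Finset.sum_congr rfl fun i _ => ?_
  rw [inner_compr]

lemma sum_inner_le_trace (W : Submodule ℂ H) [FiniteDimensional ℂ W] (S : H →L[ℂ] H)
    (hS : S.IsPositive) {m : ℕ} (e : Fin m → H) (he : Orthonormal ℂ e) (heW : ∀ i, e i ∈ W) :
    ∑ i, (inner ℂ (e i) (S (e i))).re ≤ ((compr W S).trace ℂ W).re := by
  let e' : Fin m → W := fun i => ⟨e i, heW i⟩
  have he' : Orthonormal ℂ e' := by
    rw [orthonormal_iff_ite] at he ⊢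
    intro i j
    exact he i j
  have hs := compr_symm W S hS
  let b := hs.eigenvectorBasis rfl
  let α := hs.eigenvalues rfl
  have hα : ∀ j, 0 ≤ α j := by
    intro j
    have h1 : inner ℂ (b j) (compr W S (b j)) = (α j : ℂ) := by
      rw [hs.apply_eigenvectorBasis, inner_smul_right, inner_self_eq_norm_sq_to_K,
        b.orthonormal.1 j]
      simp [α]
    rw [inner_compr] at h1
    have h2 := hS.inner_nonneg_right (b j : H)
    rw [h1] at h2
    exact_mod_cast h2
  have hexp : ∀ x : W, (inner ℂ (x : H) (S x)).re = ∑ j, α j * ‖inner ℂ (b j) x‖ ^ 2 := by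
    intro x
    rw [← inner_compr]
    have h1 : compr W S x = ∑ j, (inner ℂ (b j) x * (α j : ℂ)) • b j := by
      conv_lhs => rw [← b.sum_repr' x]
      rw [map_sum]
      refine Finset.sum_congr rfl fun j _ => ?_
      rw [map_smul, hs.apply_eigenvectorBasis, smul_smul]
      rfl
    rw [h1, inner_sum, Complex.re_sum]
    refine Finset.sum_congr rfl fun j _ => ?_
    rw [inner_smul_right, ← inner_conj_symm x (b j)]
    rw [mul_assoc, mul_comm (α j : ℂ), ← mul_assoc, Complex.mul_conj, ← Complex.ofReal_mul,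
      Complex.ofReal_re, Complex.normSq_eq_norm_sq]
    ring
  have htr : ((compr W S).trace ℂ W).re = ∑ j, α j :=
    hs.re_trace_eq_sum_eigenvalues rfl
  rw [htr]
  calc ∑ i, (inner ℂ (e i) (S (e i))).re
      = ∑ i, ∑ j, α j * ‖inner ℂ (b j) (e' i)‖ ^ 2 :=
        Finset.sum_congr rfl fun i _ => hexp (e' i)
    _ = ∑ j, α j * ∑ i, ‖inner ℂ (b j) (e' i)‖ ^ 2 := by
        rw [Finset.sum_comm]
        exact Finset.sum_congr rfl fun j _ => (Finset.mul_sum _ _ _).symm
    _ ≤ ∑ j, α j * 1 := by
        refine Finset.sum_le_sum fun j _ => mul_le_mul_of_nonneg_left ?_ (hα j)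
        have h3 := he'.sum_inner_products_le (b j) (s := Finset.univ)
        rw [b.orthonormal.1 j] at h3
        simpa [norm_inner_symm] using h3
    _ = ∑ j, α j := by simp

/-- Ky Fan, upper bound: any orthonormal family of size at most `N`. -/
lemma trace_compr_le_sum_gel (W : Submodule ℂ H) [FiniteDimensional ℂ W] (S : H →L[ℂ] H)
    (hS : S.IsPositive) (N : ℕ) (hN : finrank ℂ W ≤ N) :
    ((compr W S).trace ℂ W).re ≤ ∑ k ∈ Finset.range N, gel S k := by
  have hs := compr_symm W S hS
  let b := hs.eigenvectorBasis rfl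
  let α := hs.eigenvalues rfl
  have htr : ((compr W S).trace ℂ W).re = ∑ j, α j :=
    hs.re_trace_eq_sum_eigenvalues rfl
  have hanti : Antitone α := hs.eigenvalues_antitone rfl
  rw [htr]
  have key : ∀ j : Fin (finrank ℂ W), α j ≤ gel S j := by
    intro j
    let f : Fin (j + 1) → H := fun i => (b (Fin.castLE (by omega) i) : H)
    have hf : Orthonormal ℂ f := by
      have hb := b.orthonormal
      rw [orthonormal_iff_ite] at hb ⊢
      intro i i'
      have := hb (Fin.castLE (by omega) i) (Fin.castLE (by omega) i')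
      simp only [Submodule.coe_inner] at this
      simp only [f]
      rw [this]
      simp
    have hfd : FiniteDimensional ℂ (Submodule.span ℂ (Set.range f)) :=
      FiniteDimensional.span_of_finite ℂ (Set.finite_range f)
    refine le_gel_of_form S j (Submodule.span ℂ (Set.range f)) ?_ ?_
    · rw [finrank_span_eq_card hf.linearIndependent, Fintype.card_fin]
      omega
    · intro x hx
      rw [Submodule.mem_span_range_iff_exists_fun] at hx
      obtain ⟨c, rfl⟩ := hx
      let y : W := ∑ i, c i • b (Fin.castLE (by omega) i)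
      have hy : (y : H) = ∑ i, c i • f i := by simp [y, f]
      rw [← hy, ← inner_compr]
      have h1 : compr W S y = ∑ i, (c i * (α (Fin.castLE (by omega) i) : ℂ)) •
          b (Fin.castLE (by omega) i) := by
        simp only [y]
        rw [map_sum]
        refine Finset.sum_congr rfl fun i _ => ?_
        rw [map_smul, hs.apply_eigenvectorBasis, smul_smul]
        rfl
      have hfW : Orthonormal ℂ (fun i : Fin (j + 1) => b (Fin.castLE (by omega) i)) := by
        have hb := b.orthonormal
        rw [orthonormal_iff_ite] at hb ⊢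
        intro i i'
        rw [hb]
        simp
      have h2 : inner ℂ y (compr W S y) =
          ∑ i, (starRingEnd ℂ) (c i) * (c i * (α (Fin.castLE (by omega) i) : ℂ)) := by
        rw [h1]
        exact hfW.inner_sum (fun i => c i) (fun i => c i * (α (Fin.castLE (by omega) i) : ℂ))
          Finset.univ
      have h3 : ‖(y : H)‖ ^ 2 = ∑ i, ‖c i‖ ^ 2 := by
        have := hfW.inner_sum (fun i => c i) (fun i => c i) Finset.univ
        rw [inner_self_eq_norm_sq_to_K] at this
        have h4 : ((‖y‖ ^ 2 : ℝ) : ℂ) = ((∑ i, ‖c i‖ ^ 2 : ℝ) : ℂ) := by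
          push_cast
          rw [show ((‖y‖ : ℝ) : ℂ) ^ 2 = _ from this]
          refine Finset.sum_congr rfl fun i _ => ?_
          rw [← Complex.conj_mul']
        exact_mod_cast h4
      rw [h2, h3, Complex.re_sum, Finset.mul_sum]
      refine Finset.sum_le_sum fun i _ => ?_
      have h5 : (starRingEnd ℂ) (c i) * (c i * (α (Fin.castLE (by omega) i) : ℂ)) =
          ((‖c i‖ ^ 2 * α (Fin.castLE (by omega) i) : ℝ) : ℂ) := by
        rw [← mul_assoc, Complex.conj_mul']
        push_cast
        rfl
      rw [h5, Complex.ofReal_re, mul_comm]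
      refine mul_le_mul_of_nonneg_left ?_ (sq_nonneg _)
      refine hanti ?_
      rw [Fin.le_def]
      simp only [Fin.val_castLE]
      omega
  calc ∑ j, α j ≤ ∑ j : Fin (finrank ℂ W), gel S j := Finset.sum_le_sum fun j _ => key j
    _ = ∑ k ∈ Finset.range (finrank ℂ W), gel S k :=
        Fin.sum_univ_eq_sum_range (fun i => gel S i) _
    _ ≤ ∑ k ∈ Finset.range N, gel S k := by
        refine Finset.sum_le_sum_of_subset_of_nonneg ?_ fun k _ _ => gel_nonneg S k
        intro k hk
        rw [Finset.mem_range] at hk ⊢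
        omega

lemma sum_inner_le_sum_gel (S : H →L[ℂ] H) (hS : S.IsPositive) {m : ℕ} (e : Fin m → H)
    (he : Orthonormal ℂ e) (N : ℕ) (hN : m ≤ N) :
    ∑ i, (inner ℂ (e i) (S (e i))).re ≤ ∑ k ∈ Finset.range N, gel S k := by
  have hfd : FiniteDimensional ℂ (Submodule.span ℂ (Set.range e)) :=
    FiniteDimensional.span_of_finite ℂ (Set.finite_range e)
  refine (sum_inner_le_trace (Submodule.span ℂ (Set.range e)) S hS e he
    (fun i => Submodule.subset_span ⟨i, rfl⟩)).trans ?_
  refine trace_compr_le_sum_gel _ S hS N ?_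
  rw [finrank_span_eq_card he.linearIndependent, Fintype.card_fin]
  exact hN

/-- Ky Fan subadditivity. -/
lemma sum_gel_add_le (S T : H →L[ℂ] H) (hSc : IsCompactOperator S) (hTc : IsCompactOperator T)
    (hS : S.IsPositive) (hT : T.IsPositive) (N : ℕ) :
    ∑ k ∈ Finset.range N, gel (S + T) k ≤
      ∑ k ∈ Finset.range N, gel S k + ∑ k ∈ Finset.range N, gel T k := by
  obtain ⟨m, e, hm, he, -, hsum⟩ := exists_orthonormal_sum (S + T) (hSc.add hTc) (hS.add hT) N
  rw [hsum]
  have : ∀ i, (inner ℂ (e i) ((S + T) (e i))).re =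
      (inner ℂ (e i) (S (e i))).re + (inner ℂ (e i) (T (e i))).re := by
    intro i
    rw [ContinuousLinearMap.add_apply, inner_add_right, Complex.add_re]
  simp_rw [this]
  rw [Finset.sum_add_distrib]
  exact add_le_add (sum_inner_le_sum_gel S hS e he N hm) (sum_inner_le_sum_gel T hT e he N hm)

/-- Ky Fan superadditivity with doubling. -/
lemma sum_gel_add_ge (S T : H →L[ℂ] H) (hSc : IsCompactOperator S) (hTc : IsCompactOperator T)
    (hS : S.IsPositive) (hT : T.IsPositive) (N : ℕ) :
    ∑ k ∈ Finset.range N, gel S k + ∑ k ∈ Finset.range N, gel T k ≤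
      ∑ k ∈ Finset.range (2 * N), gel (S + T) k := by
  obtain ⟨m, e, hm, he, -, hsum⟩ := exists_orthonormal_sum S hSc hS N
  obtain ⟨m', f, hm', hf, -, hsum'⟩ := exists_orthonormal_sum T hTc hT N
  have hfdE : FiniteDimensional ℂ (Submodule.span ℂ (Set.range e)) :=
    FiniteDimensional.span_of_finite ℂ (Set.finite_range e)
  have hfdF : FiniteDimensional ℂ (Submodule.span ℂ (Set.range f)) :=
    FiniteDimensional.span_of_finite ℂ (Set.finite_range f)
  let W : Submodule ℂ H := Submodule.span ℂ (Set.range e) ⊔ Submodule.span ℂ (Set.range f)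
  have hW : finrank ℂ W ≤ 2 * N := by
    have h1 := Submodule.finrank_add_le_finrank_add_finrank (Submodule.span ℂ (Set.range e))
      (Submodule.span ℂ (Set.range f))
    rw [finrank_span_eq_card he.linearIndependent, finrank_span_eq_card hf.linearIndependent,
      Fintype.card_fin, Fintype.card_fin] at h1
    simp only [W]
    omega
  have h1 := sum_inner_le_trace W S hS e he
    (fun i => (le_sup_left : _ ≤ W) (Submodule.subset_span ⟨i, rfl⟩))
  have h2 := sum_inner_le_trace W T hT f hf
    (fun i => (le_sup_right : _ ≤ W) (Submodule.subset_span ⟨i, rfl⟩))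
  have h3 := trace_compr_le_sum_gel W (S + T) (hS.add hT) (2 * N) hW
  rw [compr_add, map_add, Complex.add_re] at h3
  rw [hsum, hsum']
  linarith

end Pool.Agent.Helper28
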