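import Pool.Agent.Helper28.Perm

set_option autoImplicit false

namespace Pool.Agent.Helper28

open Module Filter Topology NCG
open scoped ComplexOrder ENNReal

variable {H : Type*} [NormedAddCommGroup H] [InnerProductSpace ℂ H] [CompleteSpace H]

/-- the shift of each column -/
def sh : ℕ × ℤ ≃ ℕ × ℤ where
  toFun p := (p.1, p.2 - 1)
  invFun p := (p.1, p.2 + 1)
  left_inv p := by simp
  right_inv p := by simp

@[simp] lemma sh_fst (p : ℕ × ℤ) : (sh p).1 = p.1 := rfl
@[simp] lemma sh_snd (p : ℕ × ℤ) : (sh p).2 = p.2 - 1 := rfl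
@[simp] lemma sh_symm_fst (p : ℕ × ℤ) : (sh.symm p).1 = p.1 := rfl
@[simp] lemma sh_symm_snd (p : ℕ × ℤ) : (sh.symm p).2 = p.2 + 1 := rfl

/-- indicator of the block `i` -/
noncomputable def chi (i : ℕ) : LI (ℕ × ℤ) :=
  mkLI (fun p => if p.1 = i then 1 else 0) 1 (by
    intro p
    split_ifs <;> simp)

lemma chi_apply (i : ℕ) (p : ℕ × ℤ) : chi i p = if p.1 = i then 1 else 0 := by
  unfold chi
  rw [mkLI_apply]
  split_ifs <;> simp

/-- block shift operators -/
noncomputable def V (b : HilbertBasis (ℕ × ℤ) ℂ H) (i : ℕ) : H →L[ℂ] H := dg b (chi i) * pm b sh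

lemma repr_V (b : HilbertBasis (ℕ × ℤ) ℂ H) (i : ℕ) (x : H) (p : ℕ × ℤ) :
    b.repr (V b i x) p = (if p.1 = i then 1 else 0) * b.repr x (sh p) := by
  change b.repr (dg b (chi i) (pm b sh x)) p = _
  rw [repr_dg, repr_pm, chi_apply]

lemma chi_star (i : ℕ) : star (chi i) = chi i := mkLI_selfAdjoint _ _ _

lemma V_star (b : HilbertBasis (ℕ × ℤ) ℂ H) (i : ℕ) :
    star (V b i) = pm b sh.symm * dg b (chi i) := by
  unfold V
  rw [star_mul, pm_star, ← dg_star, chi_star]

lemma repr_V_star (b : HilbertBasis (ℕ × ℤ) ℂ H) (i : ℕ) (x : H) (p : ℕ × ℤ) :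
    b.repr ((star (V b i)) x) p = (if p.1 = i then 1 else 0) * b.repr x (sh.symm p) := by
  rw [V_star]
  change b.repr (pm b sh.symm (dg b (chi i) x)) p = _
  rw [repr_pm, repr_dg, chi_apply, sh_symm_fst]

/-- the `*`-algebra generated by the block shifts -/
noncomputable def Alg (b : HilbertBasis (ℕ × ℤ) ℂ H) : StarSubalgebra ℂ (H →L[ℂ] H) :=
  StarAlgebra.adjoin ℂ (Set.range (V b))

lemma V_mem (b : HilbertBasis (ℕ × ℤ) ℂ H) (i : ℕ) : V b i ∈ Alg b :=
  StarAlgebra.subset_adjoin ℂ _ ⟨i, rfl⟩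

lemma P_eq (b : HilbertBasis (ℕ × ℤ) ℂ H) (i : ℕ) : dg b (chi i) = star (V b i) * V b i := by
  ext x
  refine repr_ext b fun p => ?_
  change _ = b.repr ((star (V b i)) (V b i x)) p
  rw [repr_V_star, repr_V, repr_dg, chi_apply, Equiv.apply_symm_apply, sh_symm_fst]
  split_ifs <;> simp

lemma P_mem (b : HilbertBasis (ℕ × ℤ) ℂ H) (i : ℕ) : dg b (chi i) ∈ Alg b := by
  rw [P_eq]
  exact mul_mem (star_mem (V_mem b i)) (V_mem b i)

lemma V_comm (b : HilbertBasis (ℕ × ℤ) ℂ H) (i j : ℕ) : V b i * V b j = V b j * V b i := by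
  ext x
  refine repr_ext b fun p => ?_
  change b.repr (V b i (V b j x)) p = b.repr (V b j (V b i x)) p
  rw [repr_V, repr_V, repr_V, repr_V, sh_fst]
  ring

lemma V_comm_star (b : HilbertBasis (ℕ × ℤ) ℂ H) (i j : ℕ) :
    V b i * star (V b j) = star (V b j) * V b i := by
  ext x
  refine repr_ext b fun p => ?_
  change b.repr (V b i ((star (V b j)) x)) p = b.repr ((star (V b j)) (V b i x)) p
  rw [repr_V, repr_V_star, repr_V_star, repr_V, sh_fst, sh_symm_fst, Equiv.symm_apply_apply,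
    Equiv.apply_symm_apply]
  ring

lemma Alg_comm (b : HilbertBasis (ℕ × ℤ) ℂ H) :
    ∀ S ∈ Alg b, ∀ T ∈ Alg b, S * T = T * S := by
  have h : IsMulCommutative (Alg b) := StarAlgebra.isMulCommutative_adjoin ℂ (s := Set.range (V b))
    (by
      rintro _ ⟨i, rfl⟩ _ ⟨j, rfl⟩
      exact V_comm b i j)
    (by
      rintro _ ⟨i, rfl⟩ _ ⟨j, rfl⟩
      exact V_comm_star b i j)
  intro S hS T hT
  exact setLike_mul_comm (s := Alg b) hS hT

lemma V_comm_U (b : HilbertBasis (ℕ × ℤ) ℂ H) (i : ℕ) : V b i * pm b sh = pm b sh * V b i := by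
  ext x
  refine repr_ext b fun p => ?_
  change b.repr (V b i (pm b sh x)) p = b.repr (pm b sh (V b i x)) p
  rw [repr_V, repr_pm, repr_pm, repr_V, sh_fst]

lemma V_star_comm_U (b : HilbertBasis (ℕ × ℤ) ℂ H) (i : ℕ) :
    star (V b i) * pm b sh = pm b sh * star (V b i) := by
  ext x
  refine repr_ext b fun p => ?_
  change b.repr ((star (V b i)) (pm b sh x)) p = b.repr (pm b sh ((star (V b i)) x)) p
  rw [repr_V_star, repr_pm, repr_pm, repr_V_star, sh_fst, Equiv.symm_apply_apply,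
    Equiv.apply_symm_apply]

lemma U_mem_commutant (b : HilbertBasis (ℕ × ℤ) ℂ H) :
    pm b sh ∈ Set.centralizer (Alg b : Set (H →L[ℂ] H)) := by
  rw [Set.mem_centralizer_iff]
  intro a ha
  have key : ∀ a ∈ Alg b, a * pm b sh = pm b sh * a ∧ star a * pm b sh = pm b sh * star a := by
    intro a ha
    induction ha using StarAlgebra.adjoin_induction with
    | mem x hx =>
      obtain ⟨i, rfl⟩ := hx
      exact ⟨V_comm_U b i, V_star_comm_U b i⟩
    | algebraMap r =>
      rw [← algebraMap_star_comm]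
      exact ⟨Algebra.commutes _ _, Algebra.commutes _ _⟩
    | add x y hx hy h1 h2 =>
      rw [star_add, add_mul, mul_add, add_mul, mul_add, h1.1, h1.2, h2.1, h2.2]
      exact ⟨rfl, rfl⟩
    | mul x y hx hy h1 h2 =>
      constructor
      · rw [mul_assoc, h2.1, ← mul_assoc, h1.1, mul_assoc]
      · rw [star_mul, mul_assoc, h1.2, ← mul_assoc, h2.2, mul_assoc]
    | star x hx h1 =>
      rw [star_star]
      exact ⟨h1.2, h1.1⟩
  exact (key a ha).1

lemma bicomm_comm_U (b : HilbertBasis (ℕ × ℤ) ℂ H) {T : H →L[ℂ] H}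
    (hT : T ∈ bicommutant (Alg b)) : pm b sh * T = T * pm b sh :=
  (Set.mem_centralizer_iff.mp hT) _ (U_mem_commutant b)

/-- the shift has no eigenvectors -/
lemma U_no_eigen (b : HilbertBasis (ℕ × ℤ) ℂ H) (x : H) (c : ℂ) (h : pm b sh x = c • x) :
    x = 0 := by
  have h1 : ∀ p, b.repr x (sh p) = c * b.repr x p := by
    intro p
    rw [← repr_pm, h, map_smul]
    rfl
  have hnorm : ‖pm b sh x‖ = ‖x‖ := by
    have h2 : ‖pm b sh x‖ ^ 2 = ‖x‖ ^ 2 := by
      rw [norm_sq_eq b, norm_sq_eq b]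
      simp only [repr_pm]
      exact Equiv.tsum_eq sh (fun i => ‖b.repr x i‖ ^ 2)
    exact (pow_left_inj₀ (norm_nonneg _) (norm_nonneg _) two_ne_zero).mp h2
  by_contra hx
  have hx' : ‖x‖ ≠ 0 := norm_ne_zero_iff.mpr hx
  have hc : ‖c‖ = 1 := by
    rw [h, norm_smul] at hnorm
    exact (mul_eq_right₀ hx').mp hnorm
  have h2 : ∀ i : ℕ, ∀ k : ℤ, ‖b.repr x (i, k)‖ = ‖b.repr x (i, 0)‖ := by
    intro i k
    have h3 : ∀ k : ℤ, ‖b.repr x (i, k - 1)‖ = ‖b.repr x (i, k)‖ := by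
      intro k
      have h4 := h1 (i, k)
      have h5 : sh (i, k) = (i, k - 1) := rfl
      rw [h5] at h4
      rw [h4, norm_mul, hc, one_mul]
    induction k using Int.induction_on with
    | zero => rfl
    | succ n ih =>
      rw [← h3]
      simpa using ih
    | pred n ih =>
      rw [h3]
      exact ih
  apply hx
  refine repr_ext b fun p => ?_
  have h6 : Summable (fun k : ℤ => ‖b.repr x (p.1, k)‖ ^ 2) :=
    (summable_repr b x).comp_injective (Prod.mk_right_injective p.1)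
  have h7 := h6.tendsto_cofinite_zero
  have h8 : (fun k : ℤ => ‖b.repr x (p.1, k)‖ ^ 2) = fun _ => ‖b.repr x (p.1, 0)‖ ^ 2 := by
    ext k
    rw [h2]
  rw [h8] at h7
  have h9 := tendsto_nhds_unique h7 tendsto_const_nhds
  have h10 : ‖b.repr x p‖ = 0 := by
    rw [show p = (p.1, p.2) from rfl, h2]
    have : ‖b.repr x (p.1, 0)‖ ^ 2 = 0 := h9.symm
    exact pow_eq_zero_iff two_ne_zero |>.mp this
  rw [norm_eq_zero.mp h10, map_zero]
  rfl

/-- no finite rank operators in the bicommutant -/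
lemma no_finite_rank (b : HilbertBasis (ℕ × ℤ) ℂ H) (T : H →L[ℂ] H)
    (hT : T ∈ bicommutant (Alg b))
    (hfr : FiniteDimensional ℂ (LinearMap.range (T : H →ₗ[ℂ] H))) : T = 0 := by
  by_contra hne
  have hcomm := bicomm_comm_U b hT
  set W : Submodule ℂ H := LinearMap.range (T : H →ₗ[ℂ] H) with hW
  have hinv : ∀ x ∈ W, (pm b sh : H →ₗ[ℂ] H) x ∈ W := by
    rintro _ ⟨y, rfl⟩
    refine ⟨pm b sh y, ?_⟩
    change (T * pm b sh) y = (pm b sh * T) y
    rw [hcomm]
  have hnt : Nontrivial W := by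
    rw [Submodule.nontrivial_iff_ne_bot]
    intro hbot
    apply hne
    ext x
    have : T x ∈ W := ⟨x, rfl⟩
    rw [hbot, Submodule.mem_bot] at this
    exact this
  obtain ⟨c, hc⟩ := Module.End.exists_eigenvalue ((pm b sh : H →ₗ[ℂ] H).restrict hinv)
  obtain ⟨v, hv⟩ := hc.exists_hasEigenvector
  have h1 := hv.apply_eq_smul
  have h2 : pm b sh (v : H) = c • (v : H) := by
    have := congrArg Subtype.val h1
    exact this
  have h3 := U_no_eigen b (v : H) c h2
  apply hv.2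
  exact Subtype.ext h3

end Pool.Agent.Helper28
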