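import Mathlib

set_option autoImplicit false

/-!
Definitions for the normality question for Dixmier-trace functionals of spectral triples:
singular values, the ideal `M_{1,oo}`, Dixmier traces, spectral triples, bicommutants,
normal functionals.
-/

namespace Pool.Agent.Helper28.NCG

open Filter Topology

variable {H : Type*} [NormedAddCommGroup H] [InnerProductSpace ℂ H] [CompleteSpace H]

/-- The span of all eigenvectors of `|T| = (T* T)^{1/2}` whose eigenvalue is `> s`. -/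
noncomputable def eigAbove (T : H →L[ℂ] H) (s : ℝ) : Submodule ℂ H :=
  ⨆ l : ℝ, ⨆ _ : s < l, Module.End.eigenspace (CFC.abs T).toLinearMap (l : ℂ)

/-- The singular values of `T`: for compact `T`, `mu T 0 ≥ mu T 1 ≥ ...` are the eigenvalues
of `|T| = (T* T)^{1/2}` in decreasing order, counted with multiplicity (padded by `0` if `T` has
finite rank).  Formally `mu T k` is the least `s ≥ 0` such that at most `k` eigenvalues of `|T|`
(counted with multiplicity) are `> s`. -/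
noncomputable def mu (T : H →L[ℂ] H) (k : ℕ) : ℝ :=
  sInf {s : ℝ | 0 ≤ s ∧ Module.rank ℂ (eigAbove T s) ≤ k}

/-- The ideal `M_{1,oo}`: compact operators `T` with
`sup_{N ≥ 1} (1/log(1+N)) * ∑_{k=1}^{N} mu_k(T) < oo`. -/
def MOneInf (H : Type*) [NormedAddCommGroup H] [InnerProductSpace ℂ H] [CompleteSpace H] :
    Set (H →L[ℂ] H) :=
  {T | IsCompactOperator T ∧ ∃ C : ℝ, ∀ N : ℕ, 1 ≤ N →
    (∑ k ∈ Finset.range N, mu T k) / Real.log (1 + N) ≤ C}

/-- Trace class operators: compact with summable singular values. -/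
def IsTraceClass (T : H →L[ℂ] H) : Prop := IsCompactOperator T ∧ Summable (mu T)

/-- bounded real sequences: `ℓ^∞`. -/
def BddSeq (x : ℕ → ℝ) : Prop := ∃ C : ℝ, ∀ n, |x n| ≤ C

/-- `ω` is a dilation-invariant generalised limit on `ℓ^∞` (the bounded real sequences): a positive
linear functional which extends the limit and satisfies
`ω (x_1,..,x_1,x_2,..,x_2,..) = ω (x_1,x_2,..)` (each entry repeated `k` times) for all `k ≥ 1`.
Sequences are indexed by `n = 0,1,2,...`, which stands for `N = n + 1`.  The values of `ω` outside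
`ℓ^∞` are irrelevant. -/
structure IsDilationInvariantLimit (ω : (ℕ → ℝ) → ℝ) : Prop where
  map_add : ∀ x y : ℕ → ℝ, BddSeq x → BddSeq y → ω (fun n => x n + y n) = ω x + ω y
  map_smul : ∀ (c : ℝ) (x : ℕ → ℝ), BddSeq x → ω (fun n => c * x n) = c * ω x
  nonneg : ∀ x : ℕ → ℝ, BddSeq x → (∀ n, 0 ≤ x n) → 0 ≤ ω x
  lim : ∀ (x : ℕ → ℝ) (c : ℝ), BddSeq x → Tendsto x atTop (𝓝 c) → ω x = c
  dilation : ∀ k : ℕ, 1 ≤ k → ∀ x : ℕ → ℝ, BddSeq x → ω (fun n => x (n / k)) = ω x

/-- `τ` is the Dixmier trace `Tr_ω` on `M_{1,oo}`: it is linear on `M_{1,oo}` and for positive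
`T` it is `ω` of the sequence `N ↦ (1/log(1+N)) ∑_{k=1}^{N} mu_k(T)`, `N = n + 1 ≥ 1`.
(The values of `τ` outside `M_{1,oo}` are irrelevant.) -/
structure IsDixmierTrace (ω : (ℕ → ℝ) → ℝ) (τ : (H →L[ℂ] H) → ℂ) : Prop where
  map_add : ∀ S ∈ MOneInf H, ∀ T ∈ MOneInf H, τ (S + T) = τ S + τ T
  map_smul : ∀ (c : ℂ), ∀ T ∈ MOneInf H, τ (c • T) = c * τ T
  apply_nonneg : ∀ T ∈ MOneInf H, 0 ≤ T →
    τ T = ω (fun n => (∑ k ∈ Finset.range (n + 1), mu T k) / Real.log (1 + (n + 1)))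

/-- `R = (1 + D²)⁻¹` for an unbounded operator `D`. -/
def IsInvOneAddSq (D : H →ₗ.[ℂ] H) (R : H →L[ℂ] H) : Prop :=
  ∀ x : H, ∃ (h : R x ∈ D.domain) (h' : D ⟨R x, h⟩ ∈ D.domain),
    R x + D ⟨D ⟨R x, h⟩, h'⟩ = x

/-- `⟨D⟩^{-p} = (1 + D²)^{-p/2} = R^{p/2}` with `R = (1 + D²)⁻¹` (real power of the positive
operator `R`, by the continuous functional calculus). -/
noncomputable def japPow (R : H →L[ℂ] H) (p : ℝ) : H →L[ℂ] H := R ^ (p / 2)

/-- `(A, H, D)` is a spectral triple; `R` is the operator `(1 + D²)⁻¹`.  Here `A` is a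
unital *-subalgebra of the bounded operators (it contains the identity operator, so it is
non-degenerate). -/
structure IsSpectralTriple (A : StarSubalgebra ℂ (H →L[ℂ] H)) (D : H →ₗ.[ℂ] H)
    (R : H →L[ℂ] H) : Prop where
  countably_generated : ∃ s : Set (H →L[ℂ] H), s.Countable ∧ StarAlgebra.adjoin ℂ s = A
  dense_domain : Dense (D.domain : Set H)
  selfAdjoint : IsSelfAdjoint D
  commutator_bounded : ∀ a ∈ A, ∃ C : ℝ, ∀ x : D.domain, ∃ h : a x ∈ D.domain,
    ‖D ⟨a x, h⟩ - a (D x)‖ ≤ C * ‖(x : H)‖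
  resolvent : IsInvOneAddSq D R
  compact : IsCompactOperator (japPow R 1)

/-- `n` is the smallest value such that `⟨D⟩^{-p}` is trace class for all `p > n`. -/
def IsSummabilityDimension (R : H →L[ℂ] H) (n : ℝ) : Prop :=
  IsLeast {q : ℝ | 0 ≤ q ∧ ∀ p : ℝ, q < p → IsTraceClass (japPow R p)} n

/-- The bicommutant `A''`. -/
def bicommutant (A : StarSubalgebra ℂ (H →L[ℂ] H)) : Set (H →L[ℂ] H) :=
  Set.centralizer (Set.centralizer (A : Set (H →L[ℂ] H)))

/-- The positive functional `ρ` is normal on `N`: `ρ(T) = sup ρ(S_i)` for every increasing net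
of positive `S_i ∈ N` converging strongly to `T ∈ N`. -/
def IsNormalOn (N : Set (H →L[ℂ] H)) (ρ : (H →L[ℂ] H) → ℂ) : Prop :=
  ∀ (ι : Type) [Preorder ι] [Nonempty ι] [IsDirected ι (· ≤ ·)] (S : ι → H →L[ℂ] H)
    (T : H →L[ℂ] H), (∀ i, S i ∈ N) → T ∈ N → (∀ i, 0 ≤ S i) → Monotone S →
    (∀ x, Tendsto (fun i => S i x) atTop (𝓝 (T x))) →
    IsLUB (Set.range fun i => (ρ (S i)).re) (ρ T).re

end Pool.Agent.Helper28.NCG
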