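import Pool.Agent.Helper28.Comm

set_option autoImplicit false

namespace Pool.Agent.Helper28

open Module Filter Topology NCG
open scoped ComplexOrder ENNReal

variable {H : Type*} [NormedAddCommGroup H] [InnerProductSpace ℂ H] [CompleteSpace H]

/-- eigenvalues of `D` -/
noncomputable def lam (p : ℕ × ℤ) : ℝ := Real.sqrt p.1 + 2 * ((p.1 : ℝ) + 1) * p.2

/-- eigenvalues of `(1 + D^2)⁻¹` -/
noncomputable def rho (p : ℕ × ℤ) : ℝ := 1 / (1 + lam p ^ 2)

lemma lam_sh (p : ℕ × ℤ) : lam p = lam (sh p) + (fun i : ℕ => 2 * ((i : ℝ) + 1)) p.1 := by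
  unfold lam
  simp only [sh_fst, sh_snd]
  push_cast
  ring

lemma rho_pos (p : ℕ × ℤ) : 0 < rho p := by
  unfold rho
  positivity

lemma rho_le_one (p : ℕ × ℤ) : rho p ≤ 1 := by
  unfold rho
  rw [div_le_one (by positivity)]
  nlinarith [sq_nonneg (lam p)]

lemma rho_abs (p : ℕ × ℤ) : |rho p| ≤ 1 := by
  rw [abs_of_pos (rho_pos p)]
  exact rho_le_one p

lemma rho_zero (i : ℕ) : rho (i, 0) = 1 / ((i : ℝ) + 1) := by
  unfold rho lam
  simp only [Int.cast_zero, mul_zero, add_zero]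
  rw [Real.sq_sqrt (by positivity), add_comm]

lemma lam_abs (i : ℕ) (k : ℤ) (hk : k ≠ 0) : ((i : ℝ) + 1) * |(k : ℝ)| ≤ |lam (i, k)| := by
  unfold lam
  have h1 : Real.sqrt (i : ℝ) ≤ (i : ℝ) + 1 := by
    rw [Real.sqrt_le_left (by positivity)]
    nlinarith [show (0 : ℝ) ≤ i by positivity]
  have h2 : (1 : ℝ) ≤ |(k : ℝ)| := by
    have := Int.one_le_abs hk
    exact_mod_cast this
  have h3 : |2 * ((i : ℝ) + 1) * k| = 2 * ((i : ℝ) + 1) * |(k : ℝ)| := by
    rw [abs_mul, abs_of_nonneg (by positivity)]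
  have h4 : |2 * ((i : ℝ) + 1) * k| - |Real.sqrt (i : ℝ)| ≤ |Real.sqrt (i : ℝ) + 2 * ((i : ℝ) + 1) * k| := by
    have := abs_sub_abs_le_abs_sub (2 * ((i : ℝ) + 1) * (k : ℝ)) (-Real.sqrt (i : ℝ))
    rw [abs_neg, sub_neg_eq_add, add_comm (2 * ((i : ℝ) + 1) * (k : ℝ))] at this
    exact this
  rw [h3, abs_of_nonneg (Real.sqrt_nonneg _)] at h4
  refine le_trans ?_ h4
  nlinarith [show (0 : ℝ) ≤ i by positivity]

lemma rho_le (i : ℕ) (k : ℤ) (hk : k ≠ 0) : rho (i, k) ≤ (((i : ℝ) + 1) * |(k : ℝ)|) ^ (-2 : ℝ) := by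
  have h2 : (1 : ℝ) ≤ |(k : ℝ)| := by
    have := Int.one_le_abs hk
    exact_mod_cast this
  have h3 : 0 < ((i : ℝ) + 1) * |(k : ℝ)| := by positivity
  rw [Real.rpow_neg h3.le, Real.rpow_two, rho, one_div]
  refine inv_anti₀ (by positivity) ?_
  have := lam_abs i k hk
  have h5 : (((i : ℝ) + 1) * |(k : ℝ)|) ^ 2 ≤ |lam (i, k)| ^ 2 := pow_le_pow_left₀ h3.le this 2
  rw [sq_abs] at h5
  linarith

/-- off-diagonal part -/
noncomputable def rho1 (p : ℕ × ℤ) : ℝ := if p.2 = 0 then 0 else rho p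

/-- diagonal part -/
noncomputable def rho0 (p : ℕ × ℤ) : ℝ := if p.2 = 0 then rho p else 0

lemma rho_split (p : ℕ × ℤ) : rho p = rho0 p + rho1 p := by
  unfold rho0 rho1
  split_ifs <;> simp

lemma rho0_nonneg (p : ℕ × ℤ) : 0 ≤ rho0 p := by
  unfold rho0
  split_ifs
  · exact (rho_pos p).le
  · exact le_rfl

lemma rho1_nonneg (p : ℕ × ℤ) : 0 ≤ rho1 p := by
  unfold rho1
  split_ifs
  · exact le_rfl
  · exact (rho_pos p).le

lemma rho0_abs (p : ℕ × ℤ) : |rho0 p| ≤ 1 := by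
  rw [abs_of_nonneg (rho0_nonneg p)]
  unfold rho0
  split_ifs
  · exact rho_le_one p
  · norm_num

lemma rho1_abs (p : ℕ × ℤ) : |rho1 p| ≤ 1 := by
  rw [abs_of_nonneg (rho1_nonneg p)]
  unfold rho1
  split_ifs
  · norm_num
  · exact rho_le_one p

lemma summable_nat (s : ℝ) (hs : 1 < s) : Summable (fun i : ℕ => ((i : ℝ) + 1) ^ (-s)) := by
  have h1 : Summable (fun i : ℕ => (i : ℝ) ^ (-s)) := Real.summable_nat_rpow.mpr (by linarith)
  have h2 := (summable_nat_add_iff 1).mpr h1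
  refine h2.congr fun i => ?_
  push_cast
  rfl

lemma rho1_summable : Summable rho1 := by
  have h1 := summable_nat 2 (by norm_num)
  have h2 := Real.summable_abs_int_rpow (b := 2) (by norm_num)
  have h3 := Summable.mul_of_nonneg h1 h2 (fun i => by positivity) (fun i => by positivity)
  refine Summable.of_nonneg_of_le rho1_nonneg (fun p => ?_) h3
  unfold rho1
  split_ifs with h
  · positivity
  · refine (rho_le p.1 p.2 h).trans ?_
    rw [Real.mul_rpow (by positivity) (by positivity)]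

lemma rho_rpow_summable (s : ℝ) (hs : 1 < s) : Summable (fun p => rho p ^ s) := by
  have h1 := summable_nat s hs
  have h2 := Real.summable_abs_int_rpow (b := 2 * s) (by linarith)
  have h3 : Summable (fun k : ℤ => |(k : ℝ)| ^ (-(2 * s)) + if k = 0 then (1 : ℝ) else 0) := by
    refine h2.add ?_
    refine summable_of_ne_finset_zero (s := {0}) fun k hk => ?_
    rw [Finset.mem_singleton] at hk
    rw [if_neg hk]
  have h4 := Summable.mul_of_nonneg h1 h3 (fun i => by positivity) (fun k => by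
    split_ifs <;> positivity)
  refine Summable.of_nonneg_of_le (fun p => Real.rpow_nonneg (rho_pos p).le s) (fun p => ?_) h4
  obtain ⟨i, k⟩ := p
  dsimp only
  by_cases hk : k = 0
  · subst hk
    rw [if_pos rfl, rho_zero, one_div, Int.cast_zero, abs_zero, Real.zero_rpow (by linarith),
      zero_add, mul_one, Real.inv_rpow (by positivity), Real.rpow_neg (by positivity)]
  · rw [if_neg hk, add_zero]
    have hk1 : (1 : ℝ) ≤ |(k : ℝ)| := by
      have := Int.one_le_abs hk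
      exact_mod_cast this
    calc rho (i, k) ^ s ≤ ((((i : ℝ) + 1) * |(k : ℝ)|) ^ (-2 : ℝ)) ^ s :=
          Real.rpow_le_rpow (rho_pos _).le (rho_le i k hk) (by linarith)
      _ = ((i : ℝ) + 1) ^ (-(2 * s)) * |(k : ℝ)| ^ (-(2 * s)) := by
          rw [← Real.rpow_mul (by positivity), Real.mul_rpow (by positivity) (by positivity)]
          ring_nf
      _ ≤ ((i : ℝ) + 1) ^ (-s) * |(k : ℝ)| ^ (-(2 * s)) := by
          refine mul_le_mul_of_nonneg_right ?_ (by positivity)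
          refine Real.rpow_le_rpow_of_exponent_le ?_ (by linarith)
          linarith [show (0 : ℝ) ≤ i by positivity]

lemma rho_tendsto : Tendsto rho cofinite (𝓝 0) := by
  have h1 := (rho_rpow_summable 2 (by norm_num)).tendsto_cofinite_zero
  have h2 := h1.rpow_const (p := 1 / 2) (Or.inr (by norm_num))
  rw [Real.zero_rpow (by norm_num)] at h2
  refine h2.congr fun p => ?_
  rw [← Real.rpow_mul (rho_pos p).le]
  norm_num

/-- the operator `(1+D^2)⁻¹` -/
noncomputable def Rop (b : HilbertBasis (ℕ × ℤ) ℂ H) : H →L[ℂ] H := dg b (mkLI rho 1 rho_abs)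

lemma rho_rpow_abs (s : ℝ) (hs : 0 ≤ s) (p : ℕ × ℤ) : |rho p ^ s| ≤ 1 := by
  rw [abs_of_nonneg (Real.rpow_nonneg (rho_pos p).le s)]
  exact Real.rpow_le_one (rho_pos p).le (rho_le_one p) hs

lemma japPow_Rop (b : HilbertBasis (ℕ × ℤ) ℂ H) (p : ℝ) (hp : 0 < p) :
    japPow (Rop b) p = dg b (mkLI (fun q => rho q ^ (p / 2)) 1 (rho_rpow_abs _ (by positivity))) :=
  dg_rpow b rho 1 rho_abs (fun q => (rho_pos q).le) (by positivity) 1 _

lemma Rop_nonneg (b : HilbertBasis (ℕ × ℤ) ℂ H) : 0 ≤ Rop b :=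
  dg_nonneg b _ _ _ fun q => (rho_pos q).le

lemma japPow_two (b : HilbertBasis (ℕ × ℤ) ℂ H) : japPow (Rop b) 2 = Rop b := by
  unfold japPow
  rw [show (2 : ℝ) / 2 = 1 by norm_num]
  exact CFC.rpow_one _ (Rop_nonneg b)

lemma harm_eq (N : ℕ) : ∑ k ∈ Finset.range N, 1 / ((k : ℝ) + 1) = (harmonic N : ℝ) := by
  unfold harmonic
  push_cast
  refine Finset.sum_congr rfl fun k _ => ?_
  rw [one_div]

lemma S_Rop_ge (b : HilbertBasis (ℕ × ℤ) ℂ H) (N : ℕ) :
    Real.log (1 + N) ≤ S (Rop b) N := by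
  have h1 := le_S_dg b rho 1 rho_abs (fun q => (rho_pos q).le) (fun k : ℕ => (k, (0 : ℤ)))
    (fun a c h => (Prod.mk.inj h).1) N
  simp only [rho_zero] at h1
  rw [harm_eq] at h1
  refine le_trans ?_ h1
  have := log_add_one_le_harmonic N
  rw [add_comm]
  exact_mod_cast this

lemma gel_rho0 (b : HilbertBasis (ℕ × ℤ) ℂ H) (k : ℕ) :
    gel (dg b (mkLI rho0 1 rho0_abs)) k ≤ 1 / ((k : ℝ) + 1) := by
  refine gel_dg_le b _ ((Finset.range k).image fun i => (i, (0 : ℤ))) k ?_ (by positivity) ?_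
  · exact Finset.card_image_le.trans (by rw [Finset.card_range])
  · rintro ⟨i, m⟩ hi
    rw [mkLI_apply, Complex.norm_real, Real.norm_eq_abs, abs_of_nonneg (rho0_nonneg _)]
    unfold rho0
    dsimp only
    split_ifs with h
    · subst h
      rw [rho_zero]
      have hik : k ≤ i := by
        by_contra hlt
        apply hi
        rw [Finset.mem_image]
        exact ⟨i, Finset.mem_range.mpr (by omega), rfl⟩
      refine one_div_le_one_div_of_le (by positivity) ?_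
      have : (k : ℝ) ≤ i := by exact_mod_cast hik
      linarith
    · positivity

lemma rho1_tendsto : Tendsto rho1 cofinite (𝓝 0) := rho1_summable.tendsto_cofinite_zero

lemma rho0_tendsto : Tendsto rho0 cofinite (𝓝 0) := by
  refine squeeze_zero rho0_nonneg (fun p => ?_) rho_tendsto
  rw [rho_split p]
  linarith [rho1_nonneg p]

lemma dg_real_compact {ι : Type} (b : HilbertBasis ι ℂ H) (d : ι → ℝ) (C : ℝ)
    (h : ∀ i, |d i| ≤ C) (hd : Tendsto d cofinite (𝓝 0)) :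
    IsCompactOperator (dg b (mkLI d C h)) := by
  refine dg_compact b _ ?_
  have h2 := hd.norm
  simpa using h2

lemma Rop_compact (b : HilbertBasis (ℕ × ℤ) ℂ H) : IsCompactOperator (Rop b) :=
  dg_real_compact b rho 1 rho_abs rho_tendsto

lemma S_Rop_le (b : HilbertBasis (ℕ × ℤ) ℂ H) (N : ℕ) :
    S (Rop b) N ≤ 1 + Real.log N + ∑' p, rho1 p := by
  have h1 : Rop b = dg b (mkLI rho0 1 rho0_abs) + dg b (mkLI rho1 1 rho1_abs) := by
    unfold Rop
    rw [← dg_add]
    congr 1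
    ext p
    change ((rho p : ℝ) : ℂ) = (rho0 p : ℂ) + (rho1 p : ℂ)
    rw [rho_split]
    push_cast
    rfl
  have h2 := sum_gel_add_le _ _ (dg_real_compact b rho0 1 rho0_abs rho0_tendsto)
    (dg_real_compact b rho1 1 rho1_abs rho1_tendsto)
    (dg_isPositive b _ _ rho0_abs rho0_nonneg) (dg_isPositive b _ _ rho1_abs rho1_nonneg) N
  rw [← h1] at h2
  have h3 : S (dg b (mkLI rho0 1 rho0_abs)) N ≤ 1 + Real.log N := by
    have h4 : S (dg b (mkLI rho0 1 rho0_abs)) N ≤ (harmonic N : ℝ) := by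
      rw [← harm_eq]
      exact Finset.sum_le_sum fun k _ => gel_rho0 b k
    refine h4.trans ?_
    exact_mod_cast harmonic_le_one_add_log N
  have h5 := S_dg_le b rho1 1 rho1_abs rho1_nonneg rho1_summable N
  exact h2.trans (add_le_add h3 h5)

lemma Rop_M (b : HilbertBasis (ℕ × ℤ) ℂ H) : Rop b ∈ MOneInf H := by
  rw [mem_M_iff]
  have hK : 0 ≤ ∑' p, rho1 p := tsum_nonneg rho1_nonneg
  have hlog2 : 0 < Real.log 2 := Real.log_pos (by norm_num)
  refine ⟨Rop_compact b, 1 + (1 + ∑' p, rho1 p) / Real.log 2, by positivity, fun N hN => ?_⟩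
  refine (S_Rop_le b N).trans ?_
  have hN' : (1 : ℝ) ≤ N := by exact_mod_cast hN
  have h1 : Real.log N ≤ Real.log (1 + N) := Real.log_le_log (by linarith) (by linarith)
  have h2 : Real.log 2 ≤ Real.log (1 + N) := Real.log_le_log (by norm_num) (by linarith)
  have h3 : 1 + ∑' p, rho1 p ≤ (1 + ∑' p, rho1 p) / Real.log 2 * Real.log (1 + N) := by
    rw [div_mul_eq_mul_div, le_div_iff₀ hlog2]
    exact mul_le_mul_of_nonneg_left h2 (by positivity)
  nlinarith

/-- the sequence of `S_n R` is summable, so it is trace class and has zero Dixmier trace -/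
noncomputable def rhoN (n : ℕ) (p : ℕ × ℤ) : ℝ := if p.1 < n then rho p else 0

lemma rhoN_nonneg (n : ℕ) (p : ℕ × ℤ) : 0 ≤ rhoN n p := by
  unfold rhoN
  split_ifs
  · exact (rho_pos p).le
  · exact le_rfl

lemma rhoN_abs (n : ℕ) (p : ℕ × ℤ) : |rhoN n p| ≤ 1 := by
  rw [abs_of_nonneg (rhoN_nonneg n p)]
  unfold rhoN
  split_ifs
  · exact rho_le_one p
  · norm_num

lemma rhoN_summable (n : ℕ) : Summable (rhoN n) := by
  have h1 : Summable (fun p : ℕ × ℤ => if p.1 < n ∧ p.2 = 0 then (1 : ℝ) else 0) := by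
    refine summable_of_ne_finset_zero (s := (Finset.range n).image fun i => (i, (0 : ℤ)))
      fun p hp => ?_
    rw [if_neg]
    rintro ⟨h1, h2⟩
    apply hp
    rw [Finset.mem_image]
    exact ⟨p.1, Finset.mem_range.mpr h1, by rw [← h2]⟩
  refine Summable.of_nonneg_of_le (rhoN_nonneg n) (fun p => ?_) (h1.add rho1_summable)
  unfold rhoN rho1
  by_cases h2 : p.1 < n
  · by_cases h3 : p.2 = 0
    · rw [if_pos h2, if_pos ⟨h2, h3⟩, if_pos h3, add_zero]
      exact rho_le_one p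
    · rw [if_pos h2, if_neg (by tauto), if_neg h3, zero_add]
  · rw [if_neg h2]
    have := (rho_pos p).le
    split_ifs <;> simp_all

lemma Sn_mul_Rop (b : HilbertBasis (ℕ × ℤ) ℂ H) (n : ℕ) :
    Sn b n * Rop b = dg b (mkLI (rhoN n) 1 (rhoN_abs n)) := by
  ext x
  refine repr_ext b fun p => ?_
  change b.repr (Sn b n (Rop b x)) p = _
  rw [repr_Sn, repr_dg, Rop, repr_dg, mkLI_apply, mkLI_apply]
  unfold rhoN
  split_ifs <;> simp

lemma S_le_M {T : H →L[ℂ] H} (hc : IsCompactOperator T) (C : ℝ) (hC : ∀ N, S T N ≤ C) :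
    T ∈ MOneInf H := by
  have hC0 : 0 ≤ C := (S_nonneg T 0).trans (hC 0)
  have hlog2 : 0 < Real.log 2 := Real.log_pos (by norm_num)
  rw [mem_M_iff]
  refine ⟨hc, C / Real.log 2, by positivity, fun N hN => ?_⟩
  refine (hC N).trans ?_
  have hN' : (1 : ℝ) ≤ N := by exact_mod_cast hN
  have h2 : Real.log 2 ≤ Real.log (1 + N) := Real.log_le_log (by norm_num) (by linarith)
  rw [div_mul_eq_mul_div, le_div_iff₀ hlog2]
  exact mul_le_mul_of_nonneg_left h2 hC0

/-- value of a Dixmier trace on positive elements -/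
lemma tau_nonneg {ω : Linf →ₗ[ℝ] ℝ} {τ : (H →L[ℂ] H) → ℂ} (hτ : DixTr ω τ)
    {T : H →L[ℂ] H} (hT : T ∈ MOneInf H) (h0 : 0 ≤ T) : τ T = (ω (dL T) : ℝ) := by
  refine hτ.apply_nonneg T hT h0 (dL T) (fun n => ?_)
  rw [dL_apply hT, dseq]
  unfold S
  rw [Finset.sum_congr rfl (fun k _ => (mu_eq_gel T hT.1 k).symm)]
  push_cast
  rfl

lemma tau_zero {ω : Linf →ₗ[ℝ] ℝ} (hω : DILim ω) {τ : (H →L[ℂ] H) → ℂ}
    (hτ : DixTr ω τ) {T : H →L[ℂ] H} (hc : IsCompactOperator T) (h0 : 0 ≤ T) (C : ℝ)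
    (hC : ∀ N, S T N ≤ C) : τ T = 0 := by
  have hT := S_le_M hc C hC
  rw [tau_nonneg hτ hT h0, hω.lim (dL T) 0]
  · simp
  · have h1 : ∀ n, dL T n = dseq T n := dL_apply hT
    have h2 : Tendsto (fun n : ℕ => C / Real.log (1 + (n + 1 : ℕ))) atTop (𝓝 0) := by
      refine Tendsto.const_div_atTop ?_ C
      exact Real.tendsto_log_atTop.comp (tendsto_natCast_add 1)
    refine squeeze_zero (fun n => ?_) (fun n => ?_) h2
    · rw [h1]
      exact dseq_nonneg T n
    · rw [h1, dseq]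
      exact div_le_div_of_nonneg_right (hC _) (logpos n).le

lemma tau_Sn {ω : Linf →ₗ[ℝ] ℝ} (hω : DILim ω) {τ : (H →L[ℂ] H) → ℂ}
    (hτ : DixTr ω τ) (b : HilbertBasis (ℕ × ℤ) ℂ H) (n : ℕ) :
    τ (Sn b n * Rop b) = 0 := by
  rw [Sn_mul_Rop]
  exact tau_zero hω hτ (dg_traceClass b _ _ (rhoN_abs n) (rhoN_nonneg n) (rhoN_summable n)).1
    (dg_nonneg b _ _ _ (rhoN_nonneg n)) (∑' p, rhoN n p)
    (S_dg_le b _ _ (rhoN_abs n) (rhoN_nonneg n) (rhoN_summable n))

lemma one_le_tau {ω : Linf →ₗ[ℝ] ℝ} (hω : DILim ω) {τ : (H →L[ℂ] H) → ℂ}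
    (hτ : DixTr ω τ) (b : HilbertBasis (ℕ × ℤ) ℂ H) : 1 ≤ (τ (Rop b)).re := by
  rw [tau_nonneg hτ (Rop_M b) (Rop_nonneg b), Complex.ofReal_re]
  have h1 : ω (mkL (fun _ => (1 : ℝ)) 1 (by simp)) = 1 :=
    hω.lim _ 1 tendsto_const_nhds
  rw [← h1]
  refine omega_mono hω (fun n => ?_)
  rw [mkL_apply, dL_apply (Rop_M b), dseq, le_div_iff₀ (logpos n), one_mul]
  exact S_Rop_ge b (n + 1)

lemma spectral (b : HilbertBasis (ℕ × ℤ) ℂ H) : IsSpectralTriple (Alg b) (Dop b lam) (Rop b) where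
  countably_generated := ⟨Set.range (V b), Set.countable_range _, rfl⟩
  dense_domain := Dop_dense b lam
  selfAdjoint := Dop_selfAdjoint b lam
  commutator_bounded := by
    intro a ha
    obtain ⟨C, -, hC⟩ := good_Alg b lam (fun i : ℕ => 2 * ((i : ℝ) + 1)) lam_sh a ha
    exact ⟨C, hC⟩
  resolvent := Dop_resolvent b lam rho 1 rho_abs fun _ => rfl
  compact := by
    rw [japPow_Rop b 1 one_pos]
    refine dg_real_compact b _ 1 _ ?_
    have h2 := rho_tendsto.rpow_const (p := 1 / 2) (Or.inr (by norm_num))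
    rw [Real.zero_rpow (by norm_num)] at h2
    exact h2

lemma sumdim (b : HilbertBasis (ℕ × ℤ) ℂ H) : IsSummabilityDimension (Rop b) 2 := by
  constructor
  · refine ⟨by norm_num, fun p hp => ?_⟩
    rw [japPow_Rop b p (by linarith)]
    exact dg_traceClass b _ _ _ (fun q => Real.rpow_nonneg (rho_pos q).le _)
      (rho_rpow_summable (p / 2) (by linarith))
  · rintro q ⟨hq0, hq⟩
    by_contra hlt
    push Not at hlt
    obtain ⟨hc, hs⟩ := hq 2 hlt
    rw [japPow_two] at hs hc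
    have h1 : ∀ N : ℕ, Real.log (1 + N) ≤ ∑' k, mu (Rop b) k := by
      intro N
      refine (S_Rop_ge b N).trans ?_
      have h2 : S (Rop b) N = ∑ k ∈ Finset.range N, mu (Rop b) k := by
        unfold S
        exact Finset.sum_congr rfl fun k _ => (mu_eq_gel _ hc k).symm
      rw [h2]
      refine hs.sum_le_tsum _ fun k _ => ?_
      rw [mu_eq_gel _ hc k]
      exact gel_nonneg _ k
    have h3 : Tendsto (fun N : ℕ => Real.log (1 + N)) atTop atTop := by
      refine Real.tendsto_log_atTop.comp ?_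
      have := tendsto_natCast_add 0
      simpa using this
    have h4 := (h3.eventually_gt_atTop (∑' k, mu (Rop b) k)).exists
    obtain ⟨N, hN⟩ := h4
    exact absurd (h1 N) (not_le.mpr hN)

lemma one_mem_bicommutant (A : StarSubalgebra ℂ (H →L[ℂ] H)) : (1 : H →L[ℂ] H) ∈ bicommutant A := by
  unfold bicommutant
  exact Set.one_mem_centralizer

lemma mem_bicommutant_of_mem {A : StarSubalgebra ℂ (H →L[ℂ] H)} {T : H →L[ℂ] H} (hT : T ∈ A) :
    T ∈ bicommutant A :=
  Set.subset_centralizer_centralizer hT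

lemma not_normal {ω : Linf →ₗ[ℝ] ℝ} (hω : DILim ω) {τ : (H →L[ℂ] H) → ℂ}
    (hτ : DixTr ω τ) (b : HilbertBasis (ℕ × ℤ) ℂ H) :
    ¬ IsNormalOn (bicommutant (Alg b)) (fun S => τ (S * japPow (Rop b) 2)) := by
  intro hN
  have h1 := hN ℕ (Sn b) 1 (fun n => mem_bicommutant_of_mem (Sn_mem b n))
    (one_mem_bicommutant _) (Sn_nonneg b) (Sn_mono b) (Sn_tendsto b)
  rw [japPow_two] at h1
  simp only [one_mul, tau_Sn hω hτ b] at h1
  have h2 : (τ (Rop b)).re ≤ 0 := by
    refine h1.2 ?_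
    rintro _ ⟨n, rfl⟩
    simp
  linarith [one_le_tau hω hτ b]

end Pool.Agent.Helper28
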