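import Pool.Agent.Helper28.Dixmier

set_option autoImplicit false

namespace Pool.Agent.Helper28

open Module Filter Topology NCG

/-- logarithmic weights -/
noncomputable def wt (n : ℕ) : ℝ := Real.log (((n : ℝ) + 1) / n)

lemma wt_nonneg (n : ℕ) : 0 ≤ wt n := by
  unfold wt
  rcases Nat.eq_zero_or_pos n with h | h
  · subst h; simp
  · apply Real.log_nonneg
    rw [le_div_iff₀ (by exact_mod_cast h)]
    linarith

lemma wt_eq (n : ℕ) (hn : 1 ≤ n) : wt n = Real.log ((n + 1 : ℕ) : ℝ) - Real.log n := by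
  unfold wt
  have : (n : ℝ) ≠ 0 := by
    have : 0 < n := hn
    exact_mod_cast this.ne'
  rw [Real.log_div (by positivity) this]
  push_cast
  rfl

lemma wt_le_one (n : ℕ) : wt n ≤ 1 := by
  rcases Nat.eq_zero_or_pos n with h | h
  · subst h; simp [wt]
  · unfold wt
    have h1 : (0 : ℝ) < n := by exact_mod_cast h
    have h2 : (1 : ℝ) ≤ n := by exact_mod_cast h
    have h3 : Real.log (((n : ℝ) + 1) / n) ≤ ((n : ℝ) + 1) / n - 1 :=
      Real.log_le_sub_one_of_pos (by positivity)
    have h4 : ((n : ℝ) + 1) / n - 1 = 1 / n := by field_simp; ring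
    have h5 : (1 : ℝ) / n ≤ 1 := by
      rw [div_le_one h1]; exact h2
    linarith

lemma sum_wt (N : ℕ) : ∑ n ∈ Finset.range N, wt n = Real.log N := by
  induction N with
  | zero => simp
  | succ N ih =>
    rw [Finset.sum_range_succ, ih]
    rcases Nat.eq_zero_or_pos N with h | h
    · subst h; simp [wt]
    · rw [wt_eq N h]; ring

/-- logarithmic partial sums -/
noncomputable def Xs (x : ℕ → ℝ) (N : ℕ) : ℝ := ∑ n ∈ Finset.range N, x n * wt n

lemma Xs_diff (x : ℕ → ℝ) {C : ℝ} (hC : ∀ n, |x n| ≤ C) {M N : ℕ} (h : M ≤ N) :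
    |Xs x N - Xs x M| ≤ C * ∑ n ∈ Finset.Ico M N, wt n := by
  unfold Xs
  rw [← Finset.sum_Ico_eq_sub _ h, Finset.mul_sum]
  refine (Finset.abs_sum_le_sum_abs _ _).trans ?_
  refine Finset.sum_le_sum fun n _ => ?_
  rw [abs_mul, abs_of_nonneg (wt_nonneg n)]
  exact mul_le_mul_of_nonneg_right (hC n) (wt_nonneg n)

lemma Xs_abs_le (x : ℕ → ℝ) {C : ℝ} (hC : ∀ n, |x n| ≤ C) (N : ℕ) :
    |Xs x N| ≤ C * Real.log N := by
  have := Xs_diff x hC (Nat.zero_le N)
  rw [← Finset.range_eq_Ico, sum_wt] at this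
  simpa [Xs] using this

lemma Xs_dil (x : ℕ → ℝ) (k : ℕ) (hk : 1 ≤ k) (M : ℕ) (hM : 1 ≤ M) :
    Xs (fun n => x (n / k)) (k * M) = Xs x M + x 0 * Real.log k := by
  have hblock : ∀ m, Xs (fun n => x (n / k)) (k * (m + 1)) =
      Xs (fun n => x (n / k)) (k * m) +
        x m * (Real.log (k * (m + 1) : ℕ) - Real.log (k * m : ℕ)) := by
    intro m
    have h1 : Xs (fun n => x (n / k)) (k * (m + 1)) - Xs (fun n => x (n / k)) (k * m) =
        ∑ n ∈ Finset.Ico (k * m) (k * (m + 1)), x (n / k) * wt n := by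
      unfold Xs
      rw [Finset.sum_Ico_eq_sub _ (by nlinarith)]
    have h2 : ∑ n ∈ Finset.Ico (k * m) (k * (m + 1)), x (n / k) * wt n =
        x m * ∑ n ∈ Finset.Ico (k * m) (k * (m + 1)), wt n := by
      rw [Finset.mul_sum]
      refine Finset.sum_congr rfl fun n hn => ?_
      rw [Finset.mem_Ico] at hn
      have : n / k = m := by
        rw [Nat.div_eq_iff (by omega)]
        constructor
        · nlinarith [hn.1]
        · have := hn.2
          have h3 : k * (m + 1) = m * k + k := by ring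
          omega
      rw [this]
    have h3 : ∑ n ∈ Finset.Ico (k * m) (k * (m + 1)), wt n =
        Real.log (k * (m + 1) : ℕ) - Real.log (k * m : ℕ) := by
      rw [Finset.sum_Ico_eq_sub _ (by nlinarith), sum_wt, sum_wt]
    rw [h2, h3] at h1
    linarith
  induction M, hM using Nat.le_induction with
  | base =>
    rw [hblock 0]
    simp [Xs, wt]
  | succ M hM ih =>
    rw [hblock M, ih]
    have hk0 : (k : ℝ) ≠ 0 := by
      have : 0 < k := hk
      exact_mod_cast this.ne'
    have hM0 : (M : ℝ) ≠ 0 := by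
      have : 0 < M := hM
      exact_mod_cast this.ne'
    have hM1 : ((M : ℝ) + 1) ≠ 0 := by positivity
    have h4 : Real.log (k * (M + 1) : ℕ) - Real.log (k * M : ℕ) = wt M := by
      rw [wt_eq M hM]
      push_cast
      rw [Real.log_mul hk0 hM1, Real.log_mul hk0 hM0]
      ring
    rw [h4]
    unfold Xs
    rw [Finset.sum_range_succ]
    ring

lemma Xs_dil_bound (x : ℕ → ℝ) {C : ℝ} (hC : ∀ n, |x n| ≤ C) (k : ℕ) (hk : 1 ≤ k) (N : ℕ)
    (hN : k ≤ N) : |Xs (fun n => x (n / k)) N - Xs x N| ≤ 2 * C * Real.log k + 2 * C * k := by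
  have hC0 : 0 ≤ C := (abs_nonneg _).trans (hC 0)
  set M := N / k with hM
  have hM1 : 1 ≤ M := (Nat.one_le_div_iff (by omega)).mpr hN
  have hMN : k * M ≤ N := Nat.mul_div_le N k
  have hMN' : N < k * M + k := by
    have := Nat.lt_mul_div_succ N (show 0 < k by omega)
    rw [← hM] at this
    nlinarith
  have hMkM : M ≤ k * M := by nlinarith
  have e1 := Xs_dil x k hk M hM1
  have e2 := Xs_diff (fun n => x (n / k)) (C := C) (fun n => hC _) hMN
  have e3 := Xs_diff x hC hMN
  have e4 := Xs_diff x hC hMkM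
  have w1 : ∑ n ∈ Finset.Ico (k * M) N, wt n ≤ k := by
    calc ∑ n ∈ Finset.Ico (k * M) N, wt n ≤ ∑ n ∈ Finset.Ico (k * M) N, (1 : ℝ) :=
          Finset.sum_le_sum fun n _ => wt_le_one n
      _ = ((N - k * M : ℕ) : ℝ) := by simp
      _ ≤ k := by
          have : N - k * M ≤ k := by omega
          exact_mod_cast this
  have w2 : ∑ n ∈ Finset.Ico M (k * M), wt n = Real.log k := by
    rw [Finset.sum_Ico_eq_sub _ hMkM, sum_wt, sum_wt]
    have hk0 : (k : ℝ) ≠ 0 := by
      have : 0 < k := hk
      exact_mod_cast this.ne'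
    have hM0 : (M : ℝ) ≠ 0 := by
      have : 0 < M := hM1
      exact_mod_cast this.ne'
    push_cast
    rw [Real.log_mul hk0 hM0]
    ring
  rw [w2] at e4
  have w3 : C * ∑ n ∈ Finset.Ico (k * M) N, wt n ≤ C * k := mul_le_mul_of_nonneg_left w1 hC0
  have hx0 : |x 0 * Real.log k| ≤ C * Real.log k := by
    have hlk : 0 ≤ Real.log k := Real.log_natCast_nonneg k
    rw [abs_mul, abs_of_nonneg hlk]
    exact mul_le_mul_of_nonneg_right (hC 0) hlk
  have key : Xs (fun n => x (n / k)) N - Xs x N =
      (Xs (fun n => x (n / k)) N - Xs (fun n => x (n / k)) (k * M)) -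
      (Xs x N - Xs x (k * M)) - (Xs x (k * M) - Xs x M) + x 0 * Real.log k := by
    rw [e1]; ring
  rw [key]
  have t1 := abs_add_le ((Xs (fun n => x (n / k)) N - Xs (fun n => x (n / k)) (k * M)) -
      (Xs x N - Xs x (k * M)) - (Xs x (k * M) - Xs x M)) (x 0 * Real.log k)
  have t2 := abs_sub ((Xs (fun n => x (n / k)) N - Xs (fun n => x (n / k)) (k * M)) -
      (Xs x N - Xs x (k * M))) (Xs x (k * M) - Xs x M)
  have t3 := abs_sub (Xs (fun n => x (n / k)) N - Xs (fun n => x (n / k)) (k * M))
      (Xs x N - Xs x (k * M))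
  linarith

lemma tendsto_log_nat : Tendsto (fun N : ℕ => Real.log N) atTop atTop :=
  Real.tendsto_log_atTop.comp tendsto_natCast_atTop_atTop

lemma Xs_lim (x : ℕ → ℝ) (c : ℝ) (h : Tendsto x atTop (𝓝 c)) :
    Tendsto (fun N => Xs x N / Real.log N) atTop (𝓝 c) := by
  have h0 : Tendsto (fun n => x n - c) atTop (𝓝 0) := by simpa using h.sub_const c
  have h1 : (fun n => (x n - c) * wt n) =o[atTop] wt := by
    have : (fun n => x n - c) =o[atTop] (fun _ => (1 : ℝ)) :=
      (Asymptotics.isLittleO_one_iff ℝ).mpr h0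
    have h2 := this.mul_isBigO (Asymptotics.isBigO_refl wt atTop)
    simpa using h2
  have h2 : Tendsto (fun N => ∑ n ∈ Finset.range N, wt n) atTop atTop := by
    simp_rw [sum_wt]
    exact tendsto_log_nat
  have h3 := h1.sum_range wt_nonneg h2
  simp_rw [sum_wt] at h3
  have h4 : Tendsto (fun N : ℕ => (∑ n ∈ Finset.range N, (x n - c) * wt n) / Real.log N)
      atTop (𝓝 0) := h3.tendsto_div_nhds_zero
  have h5 : Tendsto (fun N : ℕ => (∑ n ∈ Finset.range N, (x n - c) * wt n) / Real.log N + c)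
      atTop (𝓝 c) := by simpa using h4.add_const c
  refine h5.congr' ?_
  filter_upwards [eventually_gt_atTop 1] with N hN
  have hL : Real.log N ≠ 0 := (Real.log_pos (by exact_mod_cast hN)).ne'
  have e : ∑ n ∈ Finset.range N, (x n - c) * wt n = Xs x N - c * Real.log N := by
    unfold Xs
    rw [← sum_wt N, Finset.mul_sum, ← Finset.sum_sub_distrib]
    exact Finset.sum_congr rfl fun n _ => by ring
  rw [e]
  field_simp
  ring

/-- the limit along a free ultrafilter of logarithmic means -/
noncomputable def omegaFun (x : Linf) : ℝ :=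
  limUnder (hyperfilter ℕ : Filter ℕ) (fun N => Xs (fun n => x n) N / Real.log N)

lemma avg_bdd (x : Linf) {C : ℝ} (hC : ∀ n, |x n| ≤ C) (N : ℕ) :
    |Xs (fun n => x n) N / Real.log N| ≤ C := by
  have hC0 : 0 ≤ C := (abs_nonneg _).trans (hC 0)
  have hL : 0 ≤ Real.log N := Real.log_natCast_nonneg N
  rw [abs_div, abs_of_nonneg hL]
  exact div_le_of_le_mul₀ hL hC0 (Xs_abs_le _ hC N)

lemma tendsto_omegaFun (x : Linf) :
    Tendsto (fun N => Xs (fun n => x n) N / Real.log N) (hyperfilter ℕ : Filter ℕ)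
      (𝓝 (omegaFun x)) := by
  obtain ⟨C, hC⟩ := Linf_bdd x
  apply tendsto_nhds_limUnder
  have hcomp : IsCompact (Set.Icc (-C) C) := isCompact_Icc
  have := hcomp.ultrafilter_le_nhds
    ((hyperfilter ℕ).map (fun N => Xs (fun n => x n) N / Real.log N)) (by
      rw [le_principal_iff]
      rw [Ultrafilter.coe_map, mem_map]
      refine Filter.univ_mem' fun N => ?_
      have := avg_bdd x hC N
      rw [abs_le] at this
      exact this)
  obtain ⟨c, -, hc⟩ := this
  exact ⟨c, hc⟩

lemma hyper_le : (hyperfilter ℕ : Filter ℕ) ≤ atTop := by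
  rw [← Nat.cofinite_eq_atTop]
  exact hyperfilter_le_cofinite

/-- A dilation-invariant generalised limit. -/
noncomputable def omega0 : Linf →ₗ[ℝ] ℝ where
  toFun := omegaFun
  map_add' := by
    intro x y
    refine tendsto_nhds_unique (tendsto_omegaFun (x + y)) ?_
    refine ((tendsto_omegaFun x).add (tendsto_omegaFun y)).congr fun N => ?_
    rw [← add_div]
    congr 1
    unfold Xs
    rw [← Finset.sum_add_distrib]
    refine Finset.sum_congr rfl fun n _ => ?_
    rw [lp.coeFn_add]
    change x n * wt n + y n * wt n = (x n + y n) * wt n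
    ring
  map_smul' := by
    intro c x
    refine tendsto_nhds_unique (tendsto_omegaFun (c • x)) ?_
    refine ((tendsto_omegaFun x).const_mul c).congr fun N => ?_
    rw [← mul_div_assoc]
    congr 1
    unfold Xs
    rw [Finset.mul_sum]
    refine Finset.sum_congr rfl fun n _ => ?_
    rw [lp.coeFn_smul]
    change c * (x n * wt n) = (c * x n) * wt n
    ring

lemma omega0_spec : DILim omega0 where
  nonneg := by
    intro x hx
    refine ge_of_tendsto (tendsto_omegaFun x) ?_
    refine Filter.Eventually.of_forall fun N => ?_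
    exact div_nonneg (Finset.sum_nonneg fun n _ => mul_nonneg (hx n) (wt_nonneg n))
      (Real.log_natCast_nonneg N)
  lim := by
    intro x c h
    exact tendsto_nhds_unique (tendsto_omegaFun x) ((Xs_lim _ c h).mono_left hyper_le)
  dilation := by
    intro k hk x y hxy
    obtain ⟨C, hC⟩ := Linf_bdd x
    have h1 : Tendsto (fun N => Xs (fun n => y n) N / Real.log N -
        Xs (fun n => x n) N / Real.log N) atTop (𝓝 0) := by
      have h2 : Tendsto (fun N : ℕ => (2 * C * Real.log k + 2 * C * k) / Real.log N) atTop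
          (𝓝 0) := tendsto_log_nat.const_div_atTop _
      refine squeeze_zero_norm' ?_ h2
      filter_upwards [eventually_ge_atTop k, eventually_gt_atTop 1] with N hN hN1
      have hL : 0 < Real.log N := Real.log_pos (by exact_mod_cast hN1)
      rw [← sub_div, Real.norm_eq_abs, abs_div, abs_of_pos hL]
      refine div_le_div_of_nonneg_right ?_ hL.le
      have h3 := Xs_dil_bound (fun n => x n) hC k hk N hN
      have h4 : (fun n => y n) = fun n => x (n / k) := funext hxy
      rw [h4]
      exact h3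
    have h5 : Tendsto (fun N => Xs (fun n => y n) N / Real.log N -
        Xs (fun n => x n) N / Real.log N) (hyperfilter ℕ : Filter ℕ)
        (𝓝 (omegaFun y - omegaFun x)) := (tendsto_omegaFun y).sub (tendsto_omegaFun x)
    have h6 := tendsto_nhds_unique h5 (h1.mono_left hyper_le)
    exact sub_eq_zero.mp h6

end Pool.Agent.Helper28
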