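import Pool.Agent.Helper28.DOp

set_option autoImplicit false

namespace Pool.Agent.Helper28

open Module Filter Topology NCG
open scoped ComplexOrder ENNReal

variable {ι : Type}
variable {H : Type*} [NormedAddCommGroup H] [InnerProductSpace ℂ H] [CompleteSpace H]

lemma mem_L2_perm (σ : ι ≃ ι) (f : L2 ι) : Memℓp (fun i => f (σ i)) 2 := by
  apply mem_L2
  exact (L2_summable f).comp_injective σ.injective

lemma perm_norm (σ : ι ≃ ι) (f : L2 ι) : ‖(⟨fun i => f (σ i), mem_L2_perm σ f⟩ : L2 ι)‖ = ‖f‖ := by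
  have h1 : ‖(⟨fun i => f (σ i), mem_L2_perm σ f⟩ : L2 ι)‖ ^ 2 = ‖f‖ ^ 2 := by
    rw [L2_norm_sq, L2_norm_sq]
    exact Equiv.tsum_eq σ (fun i => ‖f i‖ ^ 2)
  exact (pow_left_inj₀ (norm_nonneg _) (norm_nonneg _) two_ne_zero).mp h1

/-- permutation operators on `L2` -/
noncomputable def perm (σ : ι ≃ ι) : L2 ι →L[ℂ] L2 ι :=
  LinearMap.mkContinuous
    { toFun := fun f => ⟨fun i => f (σ i), mem_L2_perm σ f⟩
      map_add' := by
        intro f g
        ext i
        rfl
      map_smul' := by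
        intro c f
        ext i
        rfl } 1 (by
        intro f
        rw [one_mul]
        exact (perm_norm σ f).le)

/-- permutation operators with respect to a Hilbert basis -/
noncomputable def pm (b : HilbertBasis ι ℂ H) (σ : ι ≃ ι) : H →L[ℂ] H :=
  (b.repr.symm.toContinuousLinearEquiv : L2 ι →L[ℂ] H) ∘L perm σ ∘L
    (b.repr.toContinuousLinearEquiv : H →L[ℂ] L2 ι)

lemma repr_pm (b : HilbertBasis ι ℂ H) (σ : ι ≃ ι) (x : H) (i : ι) :
    b.repr (pm b σ x) i = b.repr x (σ i) := by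
  change b.repr (b.repr.symm (perm σ (b.repr x))) i = _
  rw [LinearIsometryEquiv.apply_symm_apply]
  rfl

lemma pm_star (b : HilbertBasis ι ℂ H) (σ : ι ≃ ι) : star (pm b σ) = pm b σ.symm := by
  symm
  change _ = ContinuousLinearMap.adjoint (pm b σ)
  rw [ContinuousLinearMap.eq_adjoint_iff]
  intro x y
  rw [inner_eq b, inner_eq b, ← Equiv.tsum_eq σ]
  refine tsum_congr fun i => ?_
  rw [repr_pm, repr_pm, Equiv.symm_apply_apply]

lemma dg_pm_comm (b : HilbertBasis ι ℂ H) (d : LI ι) (σ : ι ≃ ι) (h : ∀ i, d (σ i) = d i) :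
    dg b d * pm b σ = pm b σ * dg b d := by
  ext x
  refine repr_ext b fun i => ?_
  change b.repr (dg b d (pm b σ x)) i = b.repr (pm b σ (dg b d x)) i
  rw [repr_dg, repr_pm, repr_pm, repr_dg, h]

lemma pm_comm (b : HilbertBasis ι ℂ H) (σ τ : ι ≃ ι) (h : ∀ i, σ (τ i) = τ (σ i)) :
    pm b σ * pm b τ = pm b τ * pm b σ := by
  ext x
  refine repr_ext b fun i => ?_
  change b.repr (pm b σ (pm b τ x)) i = b.repr (pm b τ (pm b σ x)) i
  rw [repr_pm, repr_pm, repr_pm, repr_pm, h]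

lemma dg_comm (b : HilbertBasis ι ℂ H) (d e : LI ι) : dg b d * dg b e = dg b e * dg b d := by
  ext x
  refine repr_ext b fun i => ?_
  change b.repr (dg b d (dg b e x)) i = b.repr (dg b e (dg b d x)) i
  rw [repr_dg, repr_dg, repr_dg, repr_dg]
  ring

end Pool.Agent.Helper28
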