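import Pool.Agent.Helper28.KyFan2
import Pool.Agent.Helper28.NCGDefs

set_option autoImplicit false

namespace Pool.Agent.Helper28

open Module Filter Topology
open scoped ComplexOrder

variable {H : Type*} [NormedAddCommGroup H] [InnerProductSpace ℂ H] [CompleteSpace H]

/-- Transfer of compactness. -/
lemma compact_of_control (S B : H →L[ℂ] H) (hS : IsCompactOperator S)
    (h : ∀ ε > 0, ∃ δ > 0, ∀ x : H, ‖x‖ ≤ 2 → ‖S x‖ < δ → ‖B x‖ < ε) :
    IsCompactOperator B := by
  have h1 := (isCompactOperator_iff_isCompact_closure_image_closedBall (S : H →ₗ[ℂ] H)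
    (zero_lt_one)).mp hS
  refine (isCompactOperator_iff_isCompact_closure_image_closedBall (B : H →ₗ[ℂ] H)
    (zero_lt_one)).mpr ?_
  have htb : TotallyBounded ((B : H →ₗ[ℂ] H) '' Metric.closedBall 0 1) := by
    rw [Metric.totallyBounded_iff]
    intro ε hε
    obtain ⟨δ, hδ, hδ'⟩ := h ε hε
    have h2 : TotallyBounded ((S : H →ₗ[ℂ] H) '' Metric.closedBall 0 1) :=
      h1.totallyBounded.subset subset_closure
    obtain ⟨t, htsub, htfin, ht⟩ := Metric.finite_approx_of_totallyBounded h2 δ hδ
    choose! g hg using fun y (hy : y ∈ t) => htsub hy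
    refine ⟨(fun y => B (g y)) '' t, htfin.image _, ?_⟩
    rintro _ ⟨x, hx, rfl⟩
    have hxS : (S : H →ₗ[ℂ] H) x ∈ (S : H →ₗ[ℂ] H) '' Metric.closedBall 0 1 := ⟨x, hx, rfl⟩
    have h3 := ht hxS
    simp only [Set.mem_iUnion] at h3 ⊢
    obtain ⟨y, hy, hxy⟩ := h3
    refine ⟨B (g y), ⟨y, hy, rfl⟩, ?_⟩
    have hgy := hg y hy
    have hd : dist (S x) y < δ := hxy
    rw [Metric.mem_ball, dist_eq_norm]
    have h4 : ‖B (x - g y)‖ < ε := by
      refine hδ' _ ?_ ?_
      · have ha : ‖x‖ ≤ 1 := by simpa using hx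
        have hb : ‖g y‖ ≤ 1 := by simpa using hgy.1
        calc ‖x - g y‖ ≤ ‖x‖ + ‖g y‖ := norm_sub_le _ _
          _ ≤ 2 := by linarith
      · rw [map_sub]
        have : S (g y) = y := hgy.2
        rw [this, ← dist_eq_norm]
        exact hd
    rw [map_sub] at h4
    exact h4
  exact htb.closure.isCompact_of_isClosed isClosed_closure

/-- The adjoint of a compact operator on a Hilbert space is compact. -/
lemma compact_star (T : H →L[ℂ] H) (hT : IsCompactOperator T) :
    IsCompactOperator (star T : H →L[ℂ] H) := by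
  have h1 : IsCompactOperator (T * star T : H →L[ℂ] H) :=
    IsCompactOperator.comp_clm (f := (T : H → H)) hT (star T)
  refine compact_of_control (T * star T) (star T) h1 ?_
  intro ε hε
  refine ⟨ε ^ 2 / 4, by positivity, ?_⟩
  intro x hx hx2
  have h2 : ‖(star T : H →L[ℂ] H) x‖ ^ 2 ≤ ‖x‖ * ‖(T * star T : H →L[ℂ] H) x‖ := by
    have h3 : inner ℂ ((star T : H →L[ℂ] H) x) ((star T : H →L[ℂ] H) x) =
        inner ℂ x ((T * star T : H →L[ℂ] H) x) := by
      change inner ℂ (ContinuousLinearMap.adjoint T x) _ = _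
      rw [ContinuousLinearMap.adjoint_inner_left]
      rfl
    have h4 : ‖(star T : H →L[ℂ] H) x‖ ^ 2 =
        ‖inner ℂ ((star T : H →L[ℂ] H) x) ((star T : H →L[ℂ] H) x)‖ := by
      rw [inner_self_eq_norm_sq_to_K]
      simp
    rw [h4, h3]
    exact norm_inner_le_norm _ _
  have h5 : ‖(star T : H →L[ℂ] H) x‖ ^ 2 < ε ^ 2 := by
    calc ‖(star T : H →L[ℂ] H) x‖ ^ 2 ≤ ‖x‖ * ‖(T * star T : H →L[ℂ] H) x‖ := h2
      _ ≤ 2 * (ε ^ 2 / 4) := by
          apply mul_le_mul hx hx2.le (norm_nonneg _) (by norm_num)
      _ < ε ^ 2 := by nlinarith [sq_pos_of_pos hε]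
  exact lt_of_pow_lt_pow_left₀ 2 hε.le h5

lemma norm_abs_apply (T : H →L[ℂ] H) (x : H) : ‖(CFC.abs T : H →L[ℂ] H) x‖ = ‖T x‖ := by
  have hsa : IsSelfAdjoint (CFC.abs T : H →L[ℂ] H) := (CFC.abs_nonneg T).isSelfAdjoint
  have h1 : inner ℂ ((CFC.abs T : H →L[ℂ] H) x) ((CFC.abs T : H →L[ℂ] H) x) =
      inner ℂ (T x) (T x) := by
    have h2 : inner ℂ ((CFC.abs T : H →L[ℂ] H) x) ((CFC.abs T : H →L[ℂ] H) x) =
        inner ℂ x ((CFC.abs T * CFC.abs T : H →L[ℂ] H) x) := by
      have h3 : ContinuousLinearMap.adjoint (CFC.abs T : H →L[ℂ] H) = CFC.abs T := hsa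
      conv_lhs =>
        rw [← h3, ContinuousLinearMap.adjoint_inner_left]
      rw [h3]
      rfl
    rw [h2, CFC.abs_mul_abs]
    change inner ℂ x (ContinuousLinearMap.adjoint T (T x)) = _
    rw [ContinuousLinearMap.adjoint_inner_right]
  rw [inner_self_eq_norm_sq_to_K, inner_self_eq_norm_sq_to_K] at h1
  have h4 : ‖(CFC.abs T : H →L[ℂ] H) x‖ ^ 2 = ‖T x‖ ^ 2 := by exact_mod_cast h1
  exact (pow_left_inj₀ (norm_nonneg _) (norm_nonneg _) two_ne_zero).mp h4

lemma compact_abs (T : H →L[ℂ] H) (hT : IsCompactOperator T) :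
    IsCompactOperator (CFC.abs T : H →L[ℂ] H) := by
  refine compact_of_control T (CFC.abs T) hT ?_
  intro ε hε
  refine ⟨ε, hε, fun x _ hx => ?_⟩
  rwa [norm_abs_apply]

lemma gel_abs (T : H →L[ℂ] H) (k : ℕ) : gel (CFC.abs T : H →L[ℂ] H) k = gel T k :=
  gel_congr_norm (norm_abs_apply T) k

/-- Optimal invariant subspace for the `k`-th Gelfand number. -/
lemma eigen_cut (S : H →L[ℂ] H) (hc : IsCompactOperator S) (hS : S.IsPositive) (k : ℕ) :
    ∃ E : Submodule ℂ H, FiniteDimensional ℂ E ∧ finrank ℂ E ≤ k ∧ (∀ x ∈ E, S x ∈ E) ∧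
      ∀ x ∈ Eᗮ, ‖S x‖ ≤ gel S k * ‖x‖ := by
  obtain ⟨m, e, r, hmN, he, hSe, hr, h1, h2, h3, h4⟩ := eigen_seq S hc hS k
  have hfd : FiniteDimensional ℂ (Submodule.span ℂ (Set.range e)) :=
    FiniteDimensional.span_of_finite ℂ (Set.finite_range e)
  have hfr : finrank ℂ (Submodule.span ℂ (Set.range e)) = m := by
    rw [finrank_span_eq_card he.linearIndependent, Fintype.card_fin]
  refine ⟨Submodule.span ℂ (Set.range e), hfd, by omega,
    span_eigen_invariant S (l := fun i => gel S i) hSe, ?_⟩
  have hrk : r ≤ gel S k := by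
    by_cases hr0 : r = 0
    · rw [hr0]; exact gel_nonneg S k
    · have hm : m = k := by
        by_contra hne
        exact hr0 (h4 (by omega))
      subst hm
      obtain ⟨v, hvE, hv1, hSv⟩ := h2.resolve_left hr0
      have hvorth : ∀ i, inner ℂ (e i) v = 0 := by
        intro i
        rw [Submodule.mem_orthogonal] at hvE
        exact hvE _ (Submodule.subset_span ⟨i, rfl⟩)
      let e' : Fin (m + 1) → H := Fin.snoc e v
      have he'1 : ∀ i : Fin m, e' i.castSucc = e i := fun i => by simp [e']
      have he'2 : e' (Fin.last m) = v := by simp [e']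
      have he' : Orthonormal ℂ e' := by
        rw [orthonormal_iff_ite] at he ⊢
        intro i j
        induction i using Fin.lastCases with
        | last =>
          induction j using Fin.lastCases with
          | last =>
            rw [he'2, inner_self_eq_norm_sq_to_K, hv1]
            simp
          | cast j =>
            rw [he'2, he'1, ← inner_conj_symm, hvorth j, if_neg (Fin.castSucc_lt_last j).ne']
            simp
        | cast i =>
          induction j using Fin.lastCases with
          | last =>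
            rw [he'2, he'1, hvorth i, if_neg (Fin.castSucc_lt_last i).ne]
          | cast j =>
            rw [he'1, he'1, he i j]
            simp
      refine le_gel_of_eigen S he' (l := fun i => Fin.lastCases r (fun i => gel S i) i)
        ?_ hr ?_ m (by omega)
      · intro i
        induction i using Fin.lastCases with
        | last => simp only [he'2, Fin.lastCases_last]; exact hSv
        | cast i => simp only [he'1, Fin.lastCases_castSucc]; exact hSe i
      · intro i
        induction i using Fin.lastCases with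
        | last => simp
        | cast i => simp only [Fin.lastCases_castSucc]; exact h3 i
  intro x hx
  exact (h1 x hx).trans (mul_le_mul_of_nonneg_right hrk (norm_nonneg _))

open NCG

lemma abs_isPositive (T : H →L[ℂ] H) : (CFC.abs T : H →L[ℂ] H).IsPositive :=
  (ContinuousLinearMap.nonneg_iff_isPositive _).mp (CFC.abs_nonneg T)

lemma eigenspace_le_eigAbove (T : H →L[ℂ] H) {s l : ℝ} (hl : s < l) :
    Module.End.eigenspace (CFC.abs T : H →L[ℂ] H).toLinearMap (l : ℂ) ≤ eigAbove T s := by
  unfold eigAbove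
  exact le_iSup₂ (f := fun (l : ℝ) (_ : s < l) =>
    Module.End.eigenspace (CFC.abs T : H →L[ℂ] H).toLinearMap (l : ℂ)) l hl

lemma rank_eigAbove_le_iff (T : H →L[ℂ] H) (hT : IsCompactOperator T) (k : ℕ) {s : ℝ}
    (hs : 0 ≤ s) : Module.rank ℂ (eigAbove T s) ≤ k ↔ gel T k ≤ s := by
  set S : H →L[ℂ] H := CFC.abs T with hSdef
  have hc : IsCompactOperator S := compact_abs T hT
  have hS : S.IsPositive := abs_isPositive T
  have hgel : gel T k = gel S k := (gel_abs T k).symm
  rw [hgel]
  constructor
  · intro hrank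
    have hfd : FiniteDimensional ℂ (eigAbove T s) := by
      rw [FiniteDimensional, ← Module.rank_lt_aleph0_iff]
      exact lt_of_le_of_lt hrank (Cardinal.natCast_lt_aleph0)
    have hfr : finrank ℂ (eigAbove T s) ≤ k := by
      have := hrank
      rw [← Module.finrank_eq_rank] at this
      exact_mod_cast this
    have hinv : ∀ x ∈ eigAbove T s, S x ∈ eigAbove T s := by
      intro x hx
      have : eigAbove T s ≤ (eigAbove T s).comap S.toLinearMap := by
        refine iSup_le fun l => iSup_le fun hl => ?_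
        intro y hy
        have hy' : S y = (l : ℂ) • y := Module.End.mem_eigenspace_iff.mp hy
        rw [Submodule.mem_comap]
        change S y ∈ _
        rw [hy']
        exact Submodule.smul_mem _ _ (eigenspace_le_eigAbove T hl hy)
      exact this hx
    obtain ⟨r, hr, h1, h2⟩ := exists_top S hc hS (eigAbove T s) hinv
    have hrs : r ≤ s := by
      rcases h2 with h | ⟨v, hv, hv1, hSv⟩
      · rw [h]; exact hs
      · by_contra hlt
        rw [not_le] at hlt
        have hvE : v ∈ eigAbove T s := by
          refine eigenspace_le_eigAbove T hlt ?_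
          rw [Module.End.mem_eigenspace_iff]
          exact hSv
        have h0 : inner ℂ v v = 0 := (Submodule.mem_orthogonal _ _).mp hv v hvE
        rw [inner_self_eq_zero] at h0
        rw [h0, norm_zero] at hv1
        exact zero_ne_one hv1
    exact (gel_le S k ⟨hr, eigAbove T s, hfd, hfr, h1⟩).trans hrs
  · intro hle
    obtain ⟨E, hEfd, hEk, hEinv, hE⟩ := eigen_cut S hc hS k
    have hsub : eigAbove T s ≤ E := by
      unfold eigAbove
      refine iSup_le fun l => iSup_le fun hl => ?_
      intro y hy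
      have hy' : S y = (l : ℂ) • y := Module.End.mem_eigenspace_iff.mp hy
      -- decompose `y`
      set p : H := E.starProjection y with hp
      set q : H := y - p with hq
      have hpE : p ∈ E := Submodule.starProjection_apply_mem E y
      have hqE : q ∈ Eᗮ := Submodule.sub_starProjection_mem_orthogonal y
      have hEinv' : ∀ x ∈ Eᗮ, S x ∈ Eᗮ := by
        intro x hx
        rw [Submodule.mem_orthogonal] at hx ⊢
        intro u hu
        have h1 := hx (S u) (hEinv u hu)
        rw [← hS.inner_left_eq_inner_right]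
        exact h1
      have hsum : S p + S q = (l : ℂ) • p + (l : ℂ) • q := by
        rw [← map_add, ← smul_add, hq, add_sub_cancel, hy']
      have hSq : S q = (l : ℂ) • q := by
        have h1 : S q - (l : ℂ) • q ∈ Eᗮ :=
          Submodule.sub_mem _ (hEinv' q hqE) (Submodule.smul_mem _ _ hqE)
        have h2 : S q - (l : ℂ) • q ∈ E := by
          have h3 : S q - (l : ℂ) • q = (l : ℂ) • p - S p := by
            rw [sub_eq_sub_iff_add_eq_add, add_comm, hsum, add_comm]
          rw [h3]
          exact Submodule.sub_mem _ (Submodule.smul_mem _ _ hpE) (hEinv p hpE)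
        have h4 : inner ℂ (S q - (l : ℂ) • q) (S q - (l : ℂ) • q) = 0 :=
          (Submodule.mem_orthogonal _ _).mp h1 _ h2
        rw [inner_self_eq_zero] at h4
        exact sub_eq_zero.mp h4
      have hl0 : 0 < l := lt_of_le_of_lt hs hl
      have hq0 : q = 0 := by
        by_contra hne
        have hqn : 0 < ‖q‖ := norm_pos_iff.mpr hne
        have h5 := hE q hqE
        rw [hSq, norm_smul, Complex.norm_real, Real.norm_eq_abs, abs_of_pos hl0] at h5
        have h6 : l ≤ gel S k := le_of_mul_le_mul_right h5 hqn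
        linarith
      have hyp : y = p := by
        rw [hq] at hq0
        exact sub_eq_zero.mp hq0
      rw [hyp]
      exact hpE
    have h7 : Module.rank ℂ (eigAbove T s) ≤ Module.rank ℂ E := Submodule.rank_mono hsub
    refine h7.trans ?_
    rw [← Module.finrank_eq_rank]
    exact_mod_cast hEk

/-- For compact operators the singular values (eigenvalues of `|T|`) are the Gelfand numbers. -/
lemma mu_eq_gel (T : H →L[ℂ] H) (hT : IsCompactOperator T) (k : ℕ) : mu T k = gel T k := by
  have hset : {s : ℝ | 0 ≤ s ∧ Module.rank ℂ (eigAbove T s) ≤ k} = Set.Ici (gel T k) := by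
    ext s
    simp only [Set.mem_ofPred_eq, Set.mem_Ici]
    constructor
    · rintro ⟨hs, h⟩
      exact (rank_eigAbove_le_iff T hT k hs).mp h
    · intro h
      have hs : 0 ≤ s := (gel_nonneg T k).trans h
      exact ⟨hs, (rank_eigAbove_le_iff T hT k hs).mpr h⟩
  unfold mu
  rw [hset, csInf_Ici]

end Pool.Agent.Helper28
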