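import Mathlib
import Pool.Agent.Helper15.UH.Goals

/-!
# Packet SPEC for `MP_ba83fc_ag`
-/

namespace UnrCoh

namespace SpecPkt

section Symbols

variable {L M : Type} [Field L] [AddCommGroup M] {B : Lˣ → Lˣ → M}

theorem mulr (h : Sym2 B) (a b c : Lˣ) : B a (b * c) = B a b + B a c := by
  rw [h.symm a (b * c), h.mul, h.symm b a, h.symm c a]

theorem sqr (h : Sym2 B) (a c : Lˣ) : B a (c * c) = 0 :=
  h.norm a (c * c) c 0 (by push_cast; ring)

theorem sql (h : Sym2 B) (a c : Lˣ) : B (c * c) a = 0 := by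
  rw [h.symm]; exact sqr h a c

theorem two (h : Sym2 B) (a c : Lˣ) : B a c + B a c = 0 := by
  rw [← mulr h]; exact sqr h a c

theorem one_right (h : Sym2 B) (a : Lˣ) : B a 1 = 0 := by
  have := sqr h a 1
  rwa [mul_one] at this

theorem cong (h : Sym2 B) (a b c : Lˣ) (s : L) (hs : s ≠ 0) (hab : (a : L) = b * s ^ 2) :
    B a c = B b c := by
  have : a = b * (Units.mk0 s hs * Units.mk0 s hs) := by
    ext
    push_cast
    rw [hab]
    simp only [Units.val_mk0]
    ring
  rw [this, h.mul, sql h, add_zero]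

theorem congr_right (h : Sym2 B) (a b c : Lˣ) (s : L) (hs : s ≠ 0) (hab : (a : L) = b * s ^ 2) :
    B c a = B c b := by
  rw [h.symm c a, h.symm c b]; exact cong h a b c s hs hab

theorem stein (h : Sym2 B) (w v : Lˣ) (hv : (v : L) = 1 - w) : B w v = 0 :=
  h.norm w v 1 1 (by rw [hv]; ring)

/-- From `P - Q = D`: `{P, Q} = {P, D} + {Q, D}`, given `{P, P} = 0`. -/
theorem stein3 (h : Sym2 B) (P Q D : Lˣ) (hD : (D : L) = P - Q) (hP : B P P = 0) :
    B P Q = B P D + B Q D := by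
  have hP0 : (P : L) ≠ 0 := P.ne_zero
  have h1 : B (Q / P) (D / P) = 0 := by
    refine stein h _ _ ?_
    simp only [Units.val_div_eq_div_val]
    rw [hD]
    field_simp
  have h2 : B (Q / P) (D / P) = B (Q * P) (D / P) := by
    refine cong h _ _ _ ((P : L)⁻¹) (inv_ne_zero hP0) ?_
    simp only [Units.val_div_eq_div_val, Units.val_mul]
    field_simp
  have h3 : B (Q * P) (D / P) = B (Q * P) (D * P) := by
    refine congr_right h _ _ _ ((P : L)⁻¹) (inv_ne_zero hP0) ?_
    simp only [Units.val_div_eq_div_val, Units.val_mul]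
    field_simp
  rw [h2, h3, mulr h, h.mul, h.mul, hP, add_zero] at h1
  rw [h.symm P Q]
  have h4 := two h Q P
  -- h1 : B Q D + B P D + B Q P = 0
  have h5 : B Q P = -(B Q D + B P D) := by
    rw [eq_neg_iff_add_eq_zero, add_comm]; exact h1
  have h6 : B Q P = -(B Q P) := by
    rw [eq_neg_iff_add_eq_zero]; exact h4
  rw [h6, h5, neg_neg, add_comm]

variable [Algebra ℂ L]

theorem I_sq : (algebraMap ℂ L Complex.I) ^ 2 = -1 := by
  rw [← map_pow, Complex.I_sq, map_neg, map_one]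

theorem self (h : Sym2 B) (a : Lˣ) : B a a = 0 := by
  have h1 : B a (-a) = 0 := h.norm a (-a) 0 1 (by push_cast; ring)
  have h2 : B a a = B a (-a) := by
    refine congr_right h a (-a) a (algebraMap ℂ L Complex.I) ?_ ?_
    · intro h0
      have := I_sq (L := L)
      rw [h0] at this
      norm_num at this
    · rw [I_sq]; push_cast; ring
  rw [h2, h1]

/-- `{x, x + e} = 0` for a constant `e`. -/
theorem shift (h : Sym2 B) (x v : Lˣ) (e : ℂ) (hv : (v : L) = x + algebraMap ℂ L e) :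
    B x v = 0 := by
  refine h.norm x v (algebraMap ℂ L (csq e)) (algebraMap ℂ L Complex.I) ?_
  rw [I_sq, ← map_pow, csq_sq, hv]
  ring

end Symbols

/-- A root of a monic quadratic polynomial over `ℂ` is a constant. -/
theorem const_of_quad {L : Type} [Field L] [Algebra ℂ L] (Y : L) (b c : ℂ)
    (h : Y ^ 2 + 2 * algebraMap ℂ L b * Y + algebraMap ℂ L c = 0) : ∃ d : ℂ, Y = algebraMap ℂ L d := by
  have h1 : (Y + algebraMap ℂ L b) ^ 2 = (algebraMap ℂ L (csq (b ^ 2 - c))) ^ 2 := by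
    rw [← map_pow, csq_sq, map_sub, map_pow]
    linear_combination h
  rcases sq_eq_sq_iff_eq_or_eq_neg.mp h1 with h2 | h2
  · exact ⟨csq (b ^ 2 - c) - b, by rw [map_sub, ← h2]; ring⟩
  · exact ⟨-csq (b ^ 2 - c) - b, by rw [map_sub, map_neg, ← h2]; ring⟩

theorem rec_step (hS : S_SEQ) {L : Type} [Field L] [Algebra ℂ L] (m : ℕ) :
    ∀ Y : L, (∀ c : ℂ, Y ≠ algebraMap ℂ L c) → ∃ T sg ta : L, sg ≠ 0 ∧ ta ≠ 0 ∧
      T + 10 = Y * sg ^ 2 ∧
      T ^ 2 - 36 = (Y - algebraMap ℂ L (pp m) ^ 2) * (Y - algebraMap ℂ L (qq m) ^ 2) * ta ^ 2 := by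
  obtain ⟨hr, hp, hq, -⟩ := hS
  have : CharZero L := charZero_of_injective_algebraMap (algebraMap ℂ L).injective
  induction m with
  | zero =>
    intro Y hY
    refine ⟨Y - 10, 1, 1, one_ne_zero, one_ne_zero, by ring, ?_⟩
    have h4 : algebraMap ℂ L (pp 0) = 4 := map_ofNat _ 4
    have h2 : algebraMap ℂ L (qq 0) = 2 := map_ofNat _ 2
    rw [h4, h2]; ring
  | succ m ih =>
    intro Y hY
    set p := algebraMap ℂ L (pp m) with hpd
    set q := algebraMap ℂ L (qq m) with hqd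
    set r := algebraMap ℂ L (rr m) with hrd
    have hr' : r ^ 2 = p ^ 2 - q ^ 2 := by
      rw [hrd, hpd, hqd, ← map_pow, hr, map_sub, map_pow, map_pow]
    have hY0 : Y ≠ 0 := by
      have := hY 0
      rwa [map_zero] at this
    have hYq : Y + q ^ 2 ≠ 0 := by
      intro h0
      apply hY (-(qq m) ^ 2)
      rw [map_neg, map_pow]
      linear_combination h0
    have hYq' : Y - q ^ 2 ≠ 0 := by
      intro h0
      apply hY ((qq m) ^ 2)
      rw [map_pow]
      linear_combination h0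
    have h4 : (4 : L) ≠ 0 := by norm_num
    have h2 : (2 : L) ≠ 0 := by norm_num
    obtain ⟨T, sg, ta, hsg, hta, h1, h3⟩ := ih ((Y + q ^ 2) ^ 2 / (4 * Y)) (by
      intro c hc
      rw [div_eq_iff (mul_ne_zero h4 hY0)] at hc
      obtain ⟨d, hd⟩ := const_of_quad Y ((qq m) ^ 2 - 2 * c) ((qq m) ^ 4) (by
        have e2 : algebraMap ℂ L 2 = 2 := map_ofNat _ 2
        rw [map_sub, map_mul, e2, map_pow, map_pow]
        linear_combination hc)
      exact hY d hd)
    refine ⟨T, (Y + q ^ 2) / (2 * Y) * sg, (Y - q ^ 2) / (4 * Y) * ta,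
      mul_ne_zero (div_ne_zero hYq (mul_ne_zero h2 hY0)) hsg,
      mul_ne_zero (div_ne_zero hYq' (mul_ne_zero h4 hY0)) hta, ?_, ?_⟩
    · rw [h1]; field_simp; ring
    · rw [h3, hp, hq, map_add, map_sub]
      have e1 : (Y + q ^ 2) ^ 2 / (4 * Y) - q ^ 2 = (Y - q ^ 2) ^ 2 / (4 * Y) := by
        field_simp; ring
      have e2 : (Y + q ^ 2) ^ 2 / (4 * Y) - p ^ 2 =
          (Y - (p + r) ^ 2) * (Y - (p - r) ^ 2) / (4 * Y) := by
        field_simp
        linear_combination (2 * Y + q ^ 2 + p ^ 2 - r ^ 2) * hr'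
      rw [e1, e2, ← hpd, ← hrd]
      field_simp

end SpecPkt

open SpecPkt in
/-- PACKET SPEC. -/
theorem spec_of_seq (hS : S_SEQ) : S_SPEC := by
  intro L _ _ x y hy m A Y F hA hY hF
  have : CharZero L := charZero_of_injective_algebraMap (algebraMap ℂ L).injective
  obtain ⟨hr, hp, hq, hpz, hqz, -⟩ := id hS
  set p := algebraMap ℂ L (pp m) with hpd
  set q := algebraMap ℂ L (qq m) with hqd
  have hp0 : p ≠ 0 := by
    rw [hpd, Ne, map_eq_zero]; exact hpz m
  have hk : algebraMap ℂ L (kk m) = q / p := by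
    rw [kk, map_div₀]
  -- the recursion
  obtain ⟨T, sg, ta, hsg, hta, hT1, hT2⟩ := rec_step hS m (p ^ 2 * y) (by
    intro c hc
    apply hy (c / (pp m) ^ 2)
    rw [map_div₀, map_pow, ← hpd, ← hc]
    field_simp)
  rw [← hpd, ← hqd] at hT2
  -- non-vanishing
  have hF0 : ff x y (algebraMap ℂ L (kk m)) ≠ 0 := by rw [← hF]; exact F.ne_zero
  have hA0 : aa x ≠ 0 := by rw [← hA]; exact A.ne_zero
  have hy0 : y ≠ 0 := by rw [← hY]; exact Y.ne_zero
  have hx0 : x ≠ 0 := by
    intro h0; apply hF0; rw [ff, h0]; ring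
  have hy1 : y - 1 ≠ 0 := by
    intro h0; apply hF0; rw [ff, h0]; ring
  have hyk : y - (q / p) ^ 2 ≠ 0 := by
    intro h0; apply hF0; rw [ff, hk, h0]; ring
  have hx1 : x + 1 ≠ 0 := by
    intro h0; apply hA0; rw [aa, h0]; ring
  have hx9 : x + 9 ≠ 0 := by
    intro h0; apply hA0; rw [aa, h0]; ring
  have hq'' : T ^ 2 - 36 = (y - 1) * (y - (q / p) ^ 2) * (p ^ 2 * ta) ^ 2 := by
    rw [hT2]; field_simp
  have hq0 : T ^ 2 - 36 ≠ 0 := by
    rw [hq'']
    exact mul_ne_zero (mul_ne_zero hy1 hyk) (pow_ne_zero 2 (mul_ne_zero (pow_ne_zero 2 hp0) hta))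
  have hQ0 : T + 10 ≠ 0 := by
    rw [hT1]
    exact mul_ne_zero (mul_ne_zero (pow_ne_zero 2 hp0) hy0) (pow_ne_zero 2 hsg)
  -- units
  let X : Lˣ := Units.mk0 x hx0
  let X1 : Lˣ := Units.mk0 (x + 1) hx1
  let X9 : Lˣ := Units.mk0 (x + 9) hx9
  let Q : Lˣ := Units.mk0 (T + 10) hQ0
  let q2 : Lˣ := Units.mk0 (T ^ 2 - 36) hq0
  have hAX : A = X1 * X9 := by
    ext; rw [hA]; rfl
  have hXv : (X : L) = x := rfl
  have hQv : (Q : L) = T + 10 := rfl
  have hq2v : (q2 : L) = T ^ 2 - 36 := rfl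
  have e1 : algebraMap ℂ L 1 = 1 := map_one _
  have e9 : algebraMap ℂ L 9 = 9 := map_ofNat _ 9
  have key1 : ∀ (M : Type) [AddCommGroup M] (B : Lˣ → Lˣ → M), Sym2 B → B X A = 0 := by
    intro M _ B h
    rw [hAX, mulr h, shift h X X1 1 (by rw [e1]; rfl), shift h X X9 9 (by rw [e9]; rfl), add_zero]
  have keyQ : ∀ (M : Type) [AddCommGroup M] (B : Lˣ → Lˣ → M), Sym2 B → ∀ c, B Q c = B Y c := by
    intro M _ B h c
    refine cong h Q Y c (p * sg) (mul_ne_zero hp0 hsg) ?_
    rw [hQv, hT1, hY]; ring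
  by_cases hRT : x ^ 2 - T * x + 9 = 0
  · refine ⟨1, fun M _ B h => ?_⟩
    rw [one_right h, h.symm, ← keyQ M B h]
    have h1 : B Q A = B (A * X) A := by
      refine cong h _ _ _ (x⁻¹) (inv_ne_zero hx0) ?_
      rw [hQv, Units.val_mul, hA, hXv, aa]
      field_simp
      linear_combination -hRT
    rw [h1, h.mul, SpecPkt.self h, key1 M B h, add_zero]
  · let φ : Lˣ := Units.mk0 _ hRT
    have hφv : (φ : L) = x ^ 2 - T * x + 9 := rfl
    refine ⟨φ, fun M _ B h => ?_⟩
    -- P = a / x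
    let P : Lˣ := A / X
    have hPv : (P : L) = aa x / x := by
      simp only [P, Units.val_div_eq_div_val, hA, hXv]
    let D : Lˣ := φ / X
    have hDv : (D : L) = P - Q := by
      simp only [D, Units.val_div_eq_div_val, hφv, hXv, hPv, hQv, aa]
      field_simp
      ring
    have hst : B P Q = B P D + B Q D := stein3 h P Q D hDv (SpecPkt.self h P)
    have hnorm : B q2 φ = 0 := by
      refine h.norm q2 φ (x - T / 2) (1 / 2) ?_
      rw [hφv, hq2v]
      field_simp
      ring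
    have hPA : B P A = 0 := by
      have : B P A = B (A * X) A := by
        refine cong h _ _ _ (x⁻¹) (inv_ne_zero hx0) ?_
        rw [hPv, Units.val_mul, hA, hXv]
        field_simp
      rw [this, h.mul, SpecPkt.self h, key1 M B h, add_zero]
    -- φ ~ A P D
    have hφ : ∀ c, B c φ = B c A + B c P + B c D := by
      intro c
      rw [← mulr h, ← mulr h]
      refine congr_right h _ _ _ (x / aa x) (div_ne_zero hx0 hA0) ?_
      simp only [D, Units.val_mul, Units.val_div_eq_div_val, hφv, hXv, hPv, hA]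
      field_simp
    -- F ~ P Q q2
    have hFF : ∀ c, B F c = B P c + B Q c + B q2 c := by
      intro c
      rw [← h.mul, ← h.mul]
      have hs : p ^ 2 * ta * (p * sg) / x ≠ 0 :=
        div_ne_zero (mul_ne_zero (mul_ne_zero (pow_ne_zero 2 hp0) hta) (mul_ne_zero hp0 hsg)) hx0
      refine cong h _ _ _ (p ^ 2 * ta * (p * sg) / x)⁻¹ (inv_ne_zero hs) ?_
      rw [Units.val_mul, Units.val_mul, hF, hPv, hQv, hq2v, hT1, hq'', ff, hk]
      field_simp
    have t1 := two h P Q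
    rw [hφ] at hnorm
    have g1 : B A Y = B Q A := by
      rw [h.symm A Y, keyQ M B h]
    rw [g1, hFF, hφ, hφ, hφ, hnorm, hPA, SpecPkt.self h P, h.symm Q P, hst]
    rw [hst] at t1
    have g2 : 0 + 0 + B P D + (B Q A + (B P D + B Q D) + B Q D) + 0 =
        B Q A + (B P D + B Q D + (B P D + B Q D)) := by abel
    rw [g2, t1, add_zero]

end UnrCoh
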